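import Pool.Agent.Q54.ZE.Emb

/-!
# Schemes of finite type over the integers with fibres of dimension at most `n`

A property of schemes of finite type over the integers with the closure properties `Bnd` is true for
all schemes with fibres of dimension at most `n` if and only if it is true for the hypersurfaces
`T(x, y, z) = 1` of the integral trilinear forms `T` with `n + 2` variables in the third block.
-/

set_option autoImplicit false

open MvPolynomial Pool.Agent.Z125.UN TensorProduct

namespace Q54.ZE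

section gens

variable (k : Type) [Field k] [PerfectField k] (B : Type) [CommRing B] [IsDomain B]
  [Algebra.FiniteType ℤ B] [Algebra k (FractionRing B)]

/-- The fraction field of a domain is generated over the prime field by `n + 1` elements if the
generic fibre has dimension at most `n`. -/
lemma gens_prime (n : ℕ) (hn : ringKrullDim (B ⊗[ℤ] k) ≤ n) :
    ∃ x : Fin (n + 1) → FractionRing B, IntermediateField.adjoin k (Set.range x) = ⊤ := by
  classical
  obtain ⟨S, hS⟩ := (Algebra.FiniteType.out : (⊤ : Subalgebra ℤ B).FG)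
  let ι0 : B →+* FractionRing B := algebraMap B (FractionRing B)
  let C : Subalgebra k (FractionRing B) := Algebra.adjoin k (S.image ι0 : Finset (FractionRing B))
  have hCft : Algebra.FiniteType k C := (Subalgebra.fg_iff_finiteType C).1 ⟨_, rfl⟩
  have hmem : ∀ b : B, ι0 b ∈ C := by
    intro b
    have hb : b ∈ Algebra.adjoin ℤ (S : Set B) := by
      rw [hS]
      trivial
    induction hb using Algebra.adjoin_induction with
    | mem x hx =>
      exact Algebra.subset_adjoin (Finset.mem_coe.2 (Finset.mem_image_of_mem _ hx))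
    | algebraMap r =>
      have h1 : ι0 (algebraMap ℤ B r) = (r : FractionRing B) := by
        rw [eq_intCast, map_intCast]
      rw [h1]
      exact intCast_mem C r
    | add x y _ _ hx hy =>
      rw [map_add]
      exact add_mem hx hy
    | mul x y _ _ hx hy =>
      rw [map_mul]
      exact mul_mem hx hy
  let ιC : B →+* C := ι0.codRestrict C.toSubring hmem
  have hfrac : IsFractionRing C (FractionRing B) := by
    refine IsFractionRing.of_field C (FractionRing B) fun z => ?_
    obtain ⟨a, b, hb, rfl⟩ := IsFractionRing.div_surjective (A := B) z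
    exact ⟨ιC a, ιC b, rfl⟩
  let φ : B ⊗[ℤ] k →ₐ[ℤ] C := Algebra.TensorProduct.productMap ιC.toIntAlgHom
    (algebraMap k C).toIntAlgHom
  have hφ : Function.Surjective φ := by
    have h1 : ∀ y : FractionRing B, y ∈ C → ∃ z, ((φ z : C) : FractionRing B) = y := by
      intro y hy
      induction hy using Algebra.adjoin_induction with
      | mem x hx =>
        obtain ⟨b, -, rfl⟩ := Finset.mem_image.1 (Finset.mem_coe.1 hx)
        refine ⟨b ⊗ₜ 1, ?_⟩
        rw [Algebra.TensorProduct.productMap_apply_tmul]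
        simp [ιC]
      | algebraMap r =>
        refine ⟨1 ⊗ₜ r, ?_⟩
        rw [Algebra.TensorProduct.productMap_apply_tmul]
        simp
      | add x y _ _ hx hy =>
        obtain ⟨a, ha⟩ := hx
        obtain ⟨b, hb⟩ := hy
        exact ⟨a + b, by rw [map_add, Subalgebra.coe_add, ha, hb]⟩
      | mul x y _ _ hx hy =>
        obtain ⟨a, ha⟩ := hx
        obtain ⟨b, hb⟩ := hy
        exact ⟨a * b, by rw [map_mul, Subalgebra.coe_mul, ha, hb]⟩
    intro y
    obtain ⟨z, hz⟩ := h1 y.1 y.2
    exact ⟨z, Subtype.ext hz⟩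
  obtain ⟨x, hx⟩ := exists_gens k C n
    ((ringKrullDim_le_of_surjective φ.toRingHom hφ).trans hn)
  let e : FractionRing C ≃ₐ[k] FractionRing B :=
    (FractionRing.algEquiv C (FractionRing B)).restrictScalars k
  refine ⟨fun i => e (x i), ?_⟩
  have h2 := congrArg (IntermediateField.map e.toAlgHom) hx
  rw [IntermediateField.adjoin_map] at h2
  have h3 : (e.toAlgHom '' Set.range x) = Set.range fun i => e (x i) := by
    ext y
    constructor
    · rintro ⟨_, ⟨i, rfl⟩, rfl⟩
      exact ⟨i, rfl⟩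
    · rintro ⟨i, rfl⟩
      exact ⟨_, ⟨i, rfl⟩, rfl⟩
  rw [h3] at h2
  rw [h2, eq_top_iff]
  intro y _
  exact ⟨e.symm y, trivial, e.apply_symm_apply y⟩

/-- Change of the structure of an algebra over the integers. -/
lemma aeval_int_eq {σ L : Type} [CommRing L] (i1 i2 : Algebra ℤ L) (x : σ → L)
    (p : MvPolynomial σ ℤ) : @aeval ℤ L σ _ _ i1 x p = @aeval ℤ L σ _ _ i2 x p := by
  rw [Subsingleton.elim i1 i2]

omit [IsDomain B] [Algebra.FiniteType ℤ B] [Algebra k (FractionRing B)] in
lemma frac_zmod (p : ℕ) [Fact p.Prime] (a : ZMod p) :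
    ∃ m n : ℤ, (m : ZMod p) ≠ 0 ∧ (m : ZMod p) * a = n := by
  obtain ⟨n, hn⟩ := ZMod.intCast_surjective a
  exact ⟨1, n, by simp, by simp [hn]⟩

lemma frac_rat (a : ℚ) : ∃ m n : ℤ, (m : ℚ) ≠ 0 ∧ (m : ℚ) * a = n :=
  ⟨a.den, a.num, by simp, by
    rw [mul_comm]
    exact_mod_cast a.mul_den_eq_num⟩

/-- Coordinates on a domain of finite type over the integers. -/
lemma exists_coords {n : ℕ} (h : ∀ (K : Type) [Field K], ringKrullDim (B ⊗[ℤ] K) ≤ n) :
    ∃ x : Fin (n + 1) → FractionRing B, ∀ y : FractionRing B,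
      ∃ p q : MvPolynomial (Fin (n + 1)) ℤ, aeval x q ≠ 0 ∧ aeval x q * y = aeval x p := by
  obtain ⟨p, hp⟩ := CharP.exists B
  rcases CharP.char_is_prime_or_zero B p with h0 | rfl
  · have : Fact p.Prime := ⟨h0⟩
    have : CharP (FractionRing B) p := IsFractionRing.charP B p
    let _ : Algebra (ZMod p) (FractionRing B) := ZMod.algebra (FractionRing B) p
    obtain ⟨x, hx⟩ := gens_prime (ZMod p) B n (h (ZMod p))
    refine ⟨x, fun y => ?_⟩
    obtain ⟨P, Q, h1, h2⟩ := quot_int (k := ZMod p) (frac_zmod p) x hx y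
    exact ⟨P, Q, by rwa [aeval_int_eq _ (Ring.toIntAlgebra _)],
      by rwa [aeval_int_eq _ (Ring.toIntAlgebra _), aeval_int_eq _ (Ring.toIntAlgebra _) x P]⟩
  · have : CharZero B := CharP.charP_to_charZero B
    have : CharZero (FractionRing B) := inferInstance
    obtain ⟨x, hx⟩ := gens_prime ℚ B n (h ℚ)
    refine ⟨x, fun y => ?_⟩
    obtain ⟨P, Q, h1, h2⟩ := quot_int (k := ℚ) frac_rat x hx y
    exact ⟨P, Q, by rwa [aeval_int_eq _ (Ring.toIntAlgebra _)],
      by rwa [aeval_int_eq _ (Ring.toIntAlgebra _), aeval_int_eq _ (Ring.toIntAlgebra _) x P]⟩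

end gens


section fibres

open CategoryTheory AlgebraicGeometry Pool.Agent.Y116.UV

/-- The fibres of `f` have dimension at most `n`. -/
def FibLE (n : ℕ) {X : Scheme.{0}} (f : X ⟶ Spec (CommRingCat.of ℤ)) : Prop :=
  ∀ (K : Type) [Field K], topologicalKrullDim
    (Limits.pullback f (Spec.map (CommRingCat.ofHom (algebraMap ℤ K))) : Scheme.{0}) ≤ n

lemma topDim_iso {X Y : Scheme.{0}} (e : X ≅ Y) : topologicalKrullDim X ≤ topologicalKrullDim Y :=
  (Scheme.homeoOfIso e).isInducing.topologicalKrullDim_le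

lemma FibLE.comp_closed {n : ℕ} {X Z : Scheme.{0}} {f : X ⟶ Spec (CommRingCat.of ℤ)}
    (h : FibLE n f) (g : Z ⟶ X) [IsClosedImmersion g] : FibLE n (g ≫ f) := by
  intro K _
  let s := Spec.map (CommRingCat.ofHom (algebraMap ℤ K))
  refine (topDim_iso (Limits.pullbackRightPullbackFstIso f s g).symm).trans ?_
  have h1 : IsClosedImmersion (Limits.pullback.snd g (Limits.pullback.fst f s)) := inferInstance
  exact h1.isClosedEmbedding.isInducing.topologicalKrullDim_le.trans (h K)

lemma FibLE.comp_open {n : ℕ} {X Z : Scheme.{0}} {f : X ⟶ Spec (CommRingCat.of ℤ)}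
    (h : FibLE n f) (g : Z ⟶ X) [IsOpenImmersion g] : FibLE n (g ≫ f) := by
  intro K _
  let s := Spec.map (CommRingCat.ofHom (algebraMap ℤ K))
  refine (topDim_iso (Limits.pullbackRightPullbackFstIso f s g).symm).trans ?_
  have h1 : IsOpenImmersion (Limits.pullback.snd g (Limits.pullback.fst f s)) := inferInstance
  exact (Limits.pullback.snd g (Limits.pullback.fst f s)).isOpenEmbedding.isInducing.topologicalKrullDim_le.trans
    (h K)

/-- The fibres of affine schemes. -/
lemma fib_affine {n : ℕ} (A : Type) [CommRing A] :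
    FibLE n (Spec.map (CommRingCat.ofHom (algebraMap ℤ A))) ↔
      ∀ (K : Type) [Field K], ringKrullDim (A ⊗[ℤ] K) ≤ n := by
  refine forall_congr' fun K => forall_congr' fun _ => ?_
  have h1 : topologicalKrullDim (Limits.pullback (Spec.map (CommRingCat.ofHom (algebraMap ℤ A)))
      (Spec.map (CommRingCat.ofHom (algebraMap ℤ K))) : Scheme.{0}) =
      ringKrullDim (A ⊗[ℤ] K) := by
    rw [← PrimeSpectrum.topologicalKrullDim_eq_ringKrullDim]
    exact le_antisymm (topDim_iso (pullbackSpecIso ℤ A K))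
      (topDim_iso (pullbackSpecIso ℤ A K).symm)
  rw [h1]

/-- The dimension of the fibres of locally closed subschemes of the affine space. -/
lemma dim_fib {n : ℕ} {C : Type} [CommRing C] (φ : MvPolynomial (Fin (n + 1)) ℤ →+* C) (m : ℤ)
    (hm : IsUnit (m : C)) (hs : ∀ c : C, ∃ (j : ℕ) (p : MvPolynomial (Fin (n + 1)) ℤ),
      (m : C) ^ j * c = φ p) (f : MvPolynomial (Fin (n + 1)) ℤ) (hf : φ f = 0)
    (d : Fin (n + 1) →₀ ℕ) (hd : f.coeff d = m) (K : Type) [Field K] :
    ringKrullDim (C ⊗[ℤ] K) ≤ n := by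
  let iL : C →+* C ⊗[ℤ] K := (Algebra.TensorProduct.includeLeft : C →ₐ[ℤ] C ⊗[ℤ] K).toRingHom
  let iR : K →+* C ⊗[ℤ] K := (Algebra.TensorProduct.includeRight : K →ₐ[ℤ] C ⊗[ℤ] K).toRingHom
  have hu : IsUnit (m : C ⊗[ℤ] K) := by
    have h1 := hm.map iL
    rwa [map_intCast] at h1
  by_cases hK : (m : K) = 0
  · have h1 : (m : C ⊗[ℤ] K) = 0 := by
      rw [← map_intCast iR, hK, map_zero]
    rw [h1, isUnit_zero_iff] at hu
    have h2 : Subsingleton (C ⊗[ℤ] K) := subsingleton_of_zero_eq_one hu
    rw [ringKrullDim_eq_bot_of_subsingleton]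
    exact bot_le
  · let ψ : MvPolynomial (Fin (n + 1)) K →+* C ⊗[ℤ] K := eval₂Hom iR fun i => iL (φ (X i))
    have hψ : ∀ p, ψ (map (algebraMap ℤ K) p) = iL (φ p) := by
      intro p
      have h1 : ψ.comp (map (algebraMap ℤ K)) = iL.comp φ := by
        apply MvPolynomial.ringHom_ext
        · intro a
          exact congrArg (fun g : ℤ →+* C ⊗[ℤ] K => g a) (Subsingleton.elim
            ((ψ.comp (map (algebraMap ℤ K))).comp MvPolynomial.C)
            ((iL.comp φ).comp MvPolynomial.C))
        · intro i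
          change ψ (map (algebraMap ℤ K) (X i)) = iL (φ (X i))
          rw [map_X]
          exact eval₂Hom_X' _ _ _
      exact congrArg (fun g : MvPolynomial (Fin (n + 1)) ℤ →+* C ⊗[ℤ] K => g p) h1
    have hψC : ∀ a : K, ψ (MvPolynomial.C a) = iR a := fun a => eval₂Hom_C _ _ _
    have hsurj : Function.Surjective ψ := by
      intro z
      induction z using TensorProduct.induction_on with
      | zero => exact ⟨0, map_zero _⟩
      | add x y hx hy =>
        obtain ⟨a, rfl⟩ := hx
        obtain ⟨b, rfl⟩ := hy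
        exact ⟨a + b, map_add _ _ _⟩
      | tmul c a =>
        obtain ⟨j, p, h⟩ := hs c
        refine ⟨MvPolynomial.C (((m : K) ^ j)⁻¹ * a) * map (algebraMap ℤ K) p, ?_⟩
        have h1 : c ⊗ₜ[ℤ] a = iL c * iR a := by
          change c ⊗ₜ[ℤ] a = (c ⊗ₜ[ℤ] (1 : K)) * ((1 : C) ⊗ₜ[ℤ] a)
          rw [Algebra.TensorProduct.tmul_mul_tmul, mul_one, one_mul]
        rw [map_mul, hψ, hψC, ← h, map_mul, map_mul, map_pow, map_intCast, h1]
        have h2 : iR (((m : K) ^ j)⁻¹) * (m : C ⊗[ℤ] K) ^ j = 1 := by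
          rw [← map_intCast iR, ← map_pow, ← map_mul, inv_mul_cancel₀ (pow_ne_zero _ hK), map_one]
        linear_combination (iL c * iR a) * h2
    have hf0 : map (algebraMap ℤ K) f ≠ 0 := by
      intro h0
      have h1 := congrArg (MvPolynomial.coeff d) h0
      rw [coeff_map, hd, coeff_zero] at h1
      exact hK h1
    have hker : RingHom.ker ψ ≠ ⊥ := by
      intro h0
      have h1 : map (algebraMap ℤ K) f ∈ RingHom.ker ψ := by
        rw [RingHom.mem_ker, hψ, hf, map_zero]
      rw [h0] at h1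
      exact hf0 h1
    have h2 := dim_quot (RingHom.ker ψ) hker
    exact (ringKrullDim_le_of_surjective
      (RingHom.quotientKerEquivOfSurjective hsurj).toRingHom
      (RingHom.quotientKerEquivOfSurjective hsurj).surjective).trans h2

end fibres


section main

open CategoryTheory AlgebraicGeometry Pool.Agent.Y116.UV

variable {P : Sch ℤ → Prop} (hP : Bnd False P)

include hP

omit hP in
/-- change of the structure of an algebra over the integers -/
lemma p_inst {B : Type} [CommRing B] (i1 i2 : Algebra ℤ B) (h : P (@aff ℤ B _ _ i1)) :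
    P (@aff ℤ B _ _ i2) := by
  rwa [Subsingleton.elim i2 i1]

/-- localization at `1` -/
lemma p_away_one (B : Type) [CommRing B] [Algebra ℤ B] [Algebra.FiniteType ℤ B]
    (h : P (aff ℤ B)) : P (aff ℤ (Localization.Away (1 : B))) := by
  have e := IsLocalization.atUnits B (Submonoid.powers (1 : B)) (S := Localization.Away (1 : B))
    (by rintro _ ⟨n, rfl⟩; simp)
  exact iso_alg hP.toUni (e.restrictScalars ℤ) h

/-- isomorphic rings -/
lemma p_ringEquiv {B C : Type} [CommRing B] [Algebra ℤ B] [Algebra.FiniteType ℤ B] [CommRing C]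
    [Algebra ℤ C] (e : B ≃+* C) (h : P (aff ℤ B)) : P (aff ℤ C) :=
  iso_alg hP.toUni (AlgEquiv.ofRingEquiv (f := e) (by
    intro r
    rw [eq_intCast, eq_intCast, map_intCast])) h

/-- The polynomial ring over a prime field. -/
lemma p_poly_prime {n : ℕ} (p : ℕ) [Fact p.Prime] (h : P (aff ℤ (ZMod p))) {B : Type} [CommRing B]
    [Algebra ℤ B] (φ : MvPolynomial (Fin (n + 1)) ℤ →+* B) (hφ : Function.Surjective φ)
    (hp : (p : B) = 0) (hker : ∀ f, φ f = 0 → ∀ d, (p : ℤ) ∣ f.coeff d) : P (aff ℤ B) := by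
  have : Algebra.FiniteType ℤ (ZMod p) :=
    Algebra.FiniteType.of_surjective (Algebra.ofId ℤ (ZMod p)) (ZMod.intCast_surjective)
  have h1 : P (aff ℤ (MvPolynomial (Fin (n + 1)) (ZMod p))) := p_poly hP _ h
  let θ : MvPolynomial (Fin (n + 1)) ℤ →+* MvPolynomial (Fin (n + 1)) (ZMod p) :=
    map (Int.castRingHom (ZMod p))
  have hθ : Function.Surjective θ := map_surjective _ ZMod.intCast_surjective
  have hk : RingHom.ker θ = RingHom.ker φ := by
    ext f
    rw [RingHom.mem_ker, RingHom.mem_ker]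
    constructor
    · intro hf
      have h2 : ∀ d, (p : ℤ) ∣ f.coeff d := by
        intro d
        have h3 := congrArg (MvPolynomial.coeff d) hf
        rw [coeff_map, coeff_zero] at h3
        exact (ZMod.intCast_zmod_eq_zero_iff_dvd _ _).1 h3
      obtain ⟨g, rfl⟩ := (C_dvd_iff_dvd_coeff (p : ℤ) f).2 h2
      rw [map_mul]
      have h4 : φ (MvPolynomial.C (p : ℤ)) = 0 := by
        rw [show (MvPolynomial.C (p : ℤ) : MvPolynomial (Fin (n + 1)) ℤ) = (p : MvPolynomial _ ℤ) by
          simp, map_natCast, hp]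
      rw [h4, zero_mul]
    · intro hf
      ext d
      rw [coeff_map, coeff_zero]
      exact (ZMod.intCast_zmod_eq_zero_iff_dvd _ _).2 (hker f hf d)
  have : Algebra.FiniteType ℤ (MvPolynomial (Fin (n + 1)) (ZMod p)) :=
    Algebra.FiniteType.trans (S := ZMod p) inferInstance inferInstance
  exact p_ringEquiv hP (((RingHom.quotientKerEquivOfSurjective hθ).symm.trans
    (Ideal.quotEquivOfEq hk)).trans (RingHom.quotientKerEquivOfSurjective hφ)) h1

/-- from schemes with fibres of dimension at most `n` to closed subschemes of the affine space of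
dimension `n + 1` -/
lemma fib_to_closed {n : ℕ}
    (h : ∀ X : Sch ℤ, FT False X → FibLE n (X := X.left) X.hom → P X)
    (I : Ideal (MvPolynomial (Fin (n + 1)) ℤ)) :
    P (aff ℤ (MvPolynomial (Fin (n + 1)) ℤ ⧸ I)) := by
  -- rings
  have hR : ∀ (C : Type) [CommRing C] [Algebra.FiniteType ℤ C],
      (∀ (K : Type) [Field K], ringKrullDim (C ⊗[ℤ] K) ≤ n) →
      ∀ inst : Algebra ℤ C, P (@aff ℤ C _ _ inst) := by
    intro C _ _ hC inst
    obtain rfl : inst = Ring.toIntAlgebra C := Subsingleton.elim _ _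
    exact h _ (ft_aff False) ((fib_affine C).2 hC)
  have hfin : ∀ (C : Type) [CommRing C] (inst : Algebra ℤ C),
      @Algebra.FiniteType ℤ C _ _ inst → @Algebra.FiniteType ℤ C _ _ (Ring.toIntAlgebra C) := by
    intro C _ inst hC
    rwa [Subsingleton.elim (Ring.toIntAlgebra C) inst]
  refine noeth hP (fun B _ _ hB => p_empty hP B hB) fun p hp => ?_
  let A := MvPolynomial (Fin (n + 1)) ℤ ⧸ I
  let B := A ⧸ p
  let φ : MvPolynomial (Fin (n + 1)) ℤ →+* B := (Ideal.Quotient.mk p).comp (Ideal.Quotient.mk I)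
  have hφ : Function.Surjective φ :=
    Ideal.Quotient.mk_surjective.comp Ideal.Quotient.mk_surjective
  have hBft : @Algebra.FiniteType ℤ B _ _ (Ring.toIntAlgebra B) := hfin B _ inferInstance
  by_cases hker : ∃ f, φ f = 0 ∧ f ≠ 0
  · obtain ⟨f, hf, hf0⟩ := hker
    obtain ⟨d, hd⟩ := MvPolynomial.ne_zero_iff.1 hf0
    by_cases hm : ((f.coeff d : ℤ) : B) = 0
    · obtain ⟨q, hq⟩ := CharP.exists B
      have hq0 : q ≠ 0 := by
        rintro rfl
        have : CharZero B := CharP.charP_to_charZero B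
        exact hd (Int.cast_eq_zero.1 hm)
      have hqp : Fact q.Prime := ⟨(CharP.char_is_prime_or_zero B q).resolve_right hq0⟩
      refine ⟨1, one_ne_zero, p_away_one hP B ?_⟩
      by_cases hall : ∀ f, φ f = 0 → ∀ d, (q : ℤ) ∣ f.coeff d
      · refine p_poly_prime hP q ?_ φ hφ (CharP.cast_eq_zero B q) hall
        have : Algebra.FiniteType ℤ (ZMod q) :=
          Algebra.FiniteType.of_surjective (Algebra.ofId ℤ (ZMod q)) (ZMod.intCast_surjective)
        refine hR (ZMod q) (fun K _ => ?_) _
        have h1 : Function.Surjective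
            (Algebra.TensorProduct.includeRight : K →ₐ[ℤ] ZMod q ⊗[ℤ] K) := by
          intro z
          induction z using TensorProduct.induction_on with
          | zero => exact ⟨0, map_zero _⟩
          | add x y hx hy =>
            obtain ⟨a, rfl⟩ := hx
            obtain ⟨b, rfl⟩ := hy
            exact ⟨a + b, map_add _ _ _⟩
          | tmul c a =>
            obtain ⟨c, rfl⟩ := ZMod.intCast_surjective c
            refine ⟨c • a, ?_⟩
            change (1 : ZMod q) ⊗ₜ[ℤ] (c • a) = _
            rw [← TensorProduct.smul_tmul, zsmul_one]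
        refine (ringKrullDim_le_of_surjective
          (Algebra.TensorProduct.includeRight : K →ₐ[ℤ] ZMod q ⊗[ℤ] K).toRingHom h1).trans ?_
        rw [ringKrullDim_eq_zero_of_field]
        exact_mod_cast Nat.zero_le n
      · push Not at hall
        obtain ⟨g, hg, d, hgd⟩ := hall
        have hcop : IsCoprime (g.coeff d) (q : ℤ) :=
          ((Nat.prime_iff_prime_int.1 hqp.1).irreducible.coprime_iff_not_dvd.2 hgd).symm
        obtain ⟨u, v, huv⟩ := hcop
        refine hR B (fun K _ => dim_fib φ 1 (by simp) (fun c => ?_)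
          (MvPolynomial.C u * g + MvPolynomial.C v * monomial d (q : ℤ)) ?_ d ?_ K) _
        · obtain ⟨a, rfl⟩ := hφ c
          exact ⟨0, a, by simp⟩
        · have h4 : φ (monomial d (q : ℤ)) = 0 := by
            have h5 : (monomial d (q : ℤ) : MvPolynomial (Fin (n + 1)) ℤ) =
                (q : MvPolynomial (Fin (n + 1)) ℤ) * monomial d 1 := by
              rw [← nsmul_eq_mul, ← map_nsmul]
              simp
            rw [h5, map_mul, map_natCast, CharP.cast_eq_zero, zero_mul]
          rw [map_add, map_mul, map_mul, hg, h4, mul_zero, mul_zero, add_zero]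
        · rw [coeff_add, coeff_C_mul, coeff_C_mul, coeff_monomial, if_pos rfl]
          exact huv
    · refine ⟨((f.coeff d : ℤ) : B), hm, ?_⟩
      let L := Localization.Away (((f.coeff d : ℤ) : B))
      have hu : IsUnit (algebraMap B L ((f.coeff d : ℤ) : B)) :=
        IsLocalization.Away.algebraMap_isUnit _
      rw [map_intCast] at hu
      have hLft : @Algebra.FiniteType ℤ L _ _ (Ring.toIntAlgebra L) :=
        hfin L _ (Algebra.FiniteType.trans (S := B) inferInstance inferInstance)
      refine hR L (fun K _ => dim_fib ((algebraMap B L).comp φ) (f.coeff d) hu (fun c => ?_) f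
        (by rw [RingHom.comp_apply, hf, map_zero]) d rfl K) _
      obtain ⟨⟨b, ⟨_, j, rfl⟩⟩, hb⟩ := IsLocalization.surj
        (Submonoid.powers (((f.coeff d : ℤ) : B))) c
      obtain ⟨a, rfl⟩ := hφ b
      refine ⟨j, a, ?_⟩
      rw [RingHom.comp_apply, ← hb, mul_comm]
      congr 1
      change ((f.coeff d : ℤ) : L) ^ j = algebraMap B L (((f.coeff d : ℤ) : B) ^ j)
      rw [map_pow, map_intCast]
  · push Not at hker
    refine ⟨1, one_ne_zero, p_away_one hP B ?_⟩
    have hinj : Function.Injective φ := by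
      rw [injective_iff_map_eq_zero]
      exact hker
    have : Algebra.FiniteType ℤ (MvPolynomial (Fin (n + 1)) ℤ) := inferInstance
    exact p_ringEquiv hP (RingEquiv.ofBijective φ ⟨hinj, hφ⟩) (hP.space (n + 1))

omit hP in
/-- Dimensions of the fibres of closed subschemes. -/
lemma dim_surj {A B : Type} [CommRing A] [CommRing B] (f : A →+* B) (hf : Function.Surjective f)
    (K : Type) [Field K] : ringKrullDim (B ⊗[ℤ] K) ≤ ringKrullDim (A ⊗[ℤ] K) := by
  let g : A ⊗[ℤ] K →ₐ[ℤ] B ⊗[ℤ] K := Algebra.TensorProduct.map f.toIntAlgHom (AlgHom.id ℤ K)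
  refine ringKrullDim_le_of_surjective g.toRingHom ?_
  intro z
  induction z using TensorProduct.induction_on with
  | zero => exact ⟨0, map_zero _⟩
  | add x y hx hy =>
    obtain ⟨a, rfl⟩ := hx
    obtain ⟨b, rfl⟩ := hy
    exact ⟨a + b, map_add _ _ _⟩
  | tmul c a =>
    obtain ⟨c, rfl⟩ := hf c
    exact ⟨c ⊗ₜ a, rfl⟩

/-- Open parts of domains. -/
lemma domain_step {n : ℕ} (h : ∀ I : Ideal (MvPolynomial (Fin (n + 1)) ℤ),
    P (aff ℤ (MvPolynomial (Fin (n + 1)) ℤ ⧸ I))) (B : Type) [CommRing B] [IsDomain B]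
    [Algebra.FiniteType ℤ B] (hd : ∀ (K : Type) [Field K], ringKrullDim (B ⊗[ℤ] K) ≤ n) :
    ∃ w : B, w ≠ 0 ∧ P (aff ℤ (Localization.Away w)) := by
  obtain ⟨x, hx⟩ := exists_coords B hd
  obtain ⟨w, hw, φ, g, h1, h2⟩ := exists_emb' x (R := ℤ) (B := B) (fun y => by
    obtain ⟨P, Q, h3, h4⟩ := hx y
    refine ⟨P, Q, ?_, ?_⟩
    · rwa [aeval_int_eq _ (Ring.toIntAlgebra _)] at h3 ⊢
    · rwa [aeval_int_eq _ (Ring.toIntAlgebra _), aeval_int_eq _ (Ring.toIntAlgebra _) x P] at h4 ⊢)
  exact ⟨w, hw, p_emb hP h φ g h1 h2⟩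

/-- from closed subschemes of the affine space of dimension `n + 1` to schemes with fibres of
dimension at most `n` -/
lemma closed_to_fib {n : ℕ} (h : ∀ I : Ideal (MvPolynomial (Fin (n + 1)) ℤ),
    P (aff ℤ (MvPolynomial (Fin (n + 1)) ℤ ⧸ I))) (A : Type) [CommRing A] [inst : Algebra ℤ A]
    [Algebra.FiniteType ℤ A]
    (hA : FibLE n (Spec.map (CommRingCat.ofHom (algebraMap ℤ A)))) : P (aff ℤ A) := by
  obtain rfl : inst = Ring.toIntAlgebra A := Subsingleton.elim _ _
  rw [fib_affine] at hA
  refine noeth hP (fun B _ _ hB => p_empty hP B hB) fun p hp => ?_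
  have hBft : @Algebra.FiniteType ℤ (A ⧸ p) _ _ (Ring.toIntAlgebra (A ⧸ p)) :=
    Algebra.FiniteType.of_surjective (Ideal.Quotient.mk p).toIntAlgHom Ideal.Quotient.mk_surjective
  obtain ⟨w, hw, h1⟩ := domain_step hP h (A ⧸ p) fun K _ =>
    (dim_surj (Ideal.Quotient.mk p) Ideal.Quotient.mk_surjective K).trans (hA K)
  exact ⟨w, hw, p_inst (P := P) _ _ h1⟩

/-- **Schemes with fibres of dimension at most `n` and trilinear forms with `n + 2` variables in the
third block.** -/
theorem fib_tri (n : ℕ) :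
    (∀ X : Sch ℤ, FT False X → FibLE n (X := X.left) X.hom → P X) ↔
      ∀ (a b : ℕ) (T : Fin a → Fin b → Fin (n + 2) → ℤ), P (hypS T) := by
  rw [show (∀ (a b : ℕ) (T : Fin a → Fin b → Fin (n + 2) → ℤ), P (hypS T)) ↔
    ∀ (I : Ideal (MvPolynomial (Fin (n + 1)) ℤ)), P (aff ℤ (_ ⧸ I)) from (graded hP (n + 1)).symm]
  constructor
  · exact fun h => fib_to_closed hP h
  · intro h X hX hn
    refine of_affine' (P := fun X => FibLE n (X := X.left) X.hom → P X) (sep := False) ?_ ?_ ?_ X
      hX hn
    · intro X Y hX e hPX hY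
      refine hP.iso hX e (hPX ?_)
      obtain ⟨e⟩ := e
      have h1 : X.hom = e.hom.left ≫ Y.hom := (Over.w e.hom).symm
      rw [h1]
      have : IsIso e.hom.left := inferInstanceAs (IsIso ((Over.forget _).map e.hom))
      exact FibLE.comp_open hY e.hom.left
    · intro Z X U i j hX ht hZ hU hn
      refine hP.total i j hX ht (hZ ?_) (hU ?_)
      · have h1 : Z.hom = i.left ≫ X.hom := (Over.w i).symm
        rw [h1]
        have := ht.closed
        exact FibLE.comp_closed hn i.left
      · have h1 : U.hom = j.left ≫ X.hom := (Over.w j).symm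
        rw [h1]
        have := ht.opened
        exact FibLE.comp_open hn j.left
    · intro A _ _ _ hA
      exact closed_to_fib hP h A hA

end main

end Q54.ZE
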