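import Pool.Agent.Q54.ZE.Zet
import Pool.Agent.Q54.CU.Ds

/-!
# Zeta functions and counting solutions of bilinear equations
-/

set_option autoImplicit false

namespace Q54.ZE

open CategoryTheory AlgebraicGeometry Topology Pool.Agent.Y116.UV Pool.Agent.Z125.UN

section quot

variable {F : Type} [Field F] {σ : Type}

/-- Homomorphisms from a quotient of a polynomial ring. -/
noncomputable def quotHom (s : Set (MvPolynomial σ ℤ)) :
    (MvPolynomial σ ℤ ⧸ Ideal.span s →+* F) ≃
      {v : σ → F // ∀ g ∈ s, MvPolynomial.aeval v g = 0} where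
  toFun f := ⟨fun i => f (Ideal.Quotient.mk _ (MvPolynomial.X i)), fun g hg => by
    have h1 : (MvPolynomial.aeval fun i => f (Ideal.Quotient.mk (Ideal.span s)
        (MvPolynomial.X i)) : MvPolynomial σ ℤ →ₐ[ℤ] F).toRingHom =
        f.comp (Ideal.Quotient.mk (Ideal.span s)) := by
      apply MvPolynomial.ringHom_ext
      · intro a
        exact congrArg (fun g : ℤ →+* F => g a) (Subsingleton.elim
          ((MvPolynomial.aeval fun i => f (Ideal.Quotient.mk (Ideal.span s)
            (MvPolynomial.X i)) : MvPolynomial σ ℤ →ₐ[ℤ] F).toRingHom.comp MvPolynomial.C)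
          ((f.comp (Ideal.Quotient.mk (Ideal.span s))).comp MvPolynomial.C))
      · intro i
        exact MvPolynomial.aeval_X _ _
    have h2 := congrArg (fun k : MvPolynomial σ ℤ →+* F => k g) h1
    change MvPolynomial.aeval _ g = f (Ideal.Quotient.mk (Ideal.span s) g) at h2
    rw [h2, Ideal.Quotient.eq_zero_iff_mem.2 (Ideal.subset_span hg), map_zero]⟩
  invFun v := Ideal.Quotient.lift _ (MvPolynomial.aeval v.1 : MvPolynomial σ ℤ →ₐ[ℤ] F).toRingHom
    (fun a ha => by
      have h : Ideal.span s ≤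
          RingHom.ker (MvPolynomial.aeval v.1 : MvPolynomial σ ℤ →ₐ[ℤ] F).toRingHom :=
        Ideal.span_le.2 fun g hg => v.2 g hg
      exact h ha)
  left_inv f := by
    apply Ideal.Quotient.ringHom_ext
    apply MvPolynomial.ringHom_ext
    · intro a
      rw [← RingHom.comp_apply, ← RingHom.comp_apply]
      exact congrArg (fun g : ℤ →+* F => g a) (Subsingleton.elim _ _)
    · intro i
      exact MvPolynomial.aeval_X _ _
  right_inv v := by
    apply Subtype.ext
    funext i
    exact MvPolynomial.aeval_X _ _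

end quot

/-- The property is also true for the affine bundles of Jouanolou. -/
theorem bnd_zmer {S : Set ℂ} (hS : Tr S) (hz : Mer S (idN (maxS ℤ))) : Bnd False (ZMer S) where
  toUni := uni_zmer hS hz
  bundle A _ _ _ m f U j hj hr h := by
    have := ft_jou f
    have : JacobsonSpace (aff ℤ A).left := jacobson_ft (ft_aff False)
    rw [zmer_aff]
    rw [zmer_opn f j (pres_open j.left) hr] at h
    obtain ⟨σ, h1, h2⟩ := exists_good2 (neS_subset f) (subset_rfl (a := maxS (Jou f)))
    exact mer_shift hS h1 h2 (m - 1) (co_jou f) h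

section one

/-- The hypersurface `x y z = 1`. -/
abbrev H0 : Finset (Fin 1 × Fin 1 × Fin 1) := {(0, 0, 0)}

variable {F : Type} [Field F]

lemma xyz_eq (v : Fin 1 ⊕ (Fin 1 ⊕ Fin 1) → F) :
    MvPolynomial.aeval v (∑ h ∈ H0, MvPolynomial.X (Sum.inl h.1) *
      MvPolynomial.X (Sum.inr (Sum.inl h.2.1)) * MvPolynomial.X (Sum.inr (Sum.inr h.2.2)) -
      (1 : MvPolynomial (Fin 1 ⊕ (Fin 1 ⊕ Fin 1)) ℤ)) =
      v (Sum.inl 0) * v (Sum.inr (Sum.inl 0)) * v (Sum.inr (Sum.inr 0)) - 1 := by
  rw [Finset.sum_singleton, map_sub, map_mul, map_mul, map_one, MvPolynomial.aeval_X,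
    MvPolynomial.aeval_X, MvPolynomial.aeval_X]

/-- The solutions of `x y z = 1`. -/
noncomputable def xyzEquiv : (Trip ℤ H0 →+* F) ≃ Fˣ × Fˣ :=
  (quotHom _).trans
    { toFun := fun v => by
        have h : v.1 (Sum.inl 0) * v.1 (Sum.inr (Sum.inl 0)) * v.1 (Sum.inr (Sum.inr 0)) = 1 := by
          have h1 := v.2 _ rfl
          exact sub_eq_zero.1 ((xyz_eq v.1).symm.trans h1)
        refine (Units.mk0 (v.1 (Sum.inr (Sum.inl 0))) ?_, Units.mk0 (v.1 (Sum.inr (Sum.inr 0))) ?_)
        · intro h2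
          rw [h2, mul_zero, zero_mul] at h
          exact zero_ne_one h
        · intro h2
          rw [h2, mul_zero] at h
          exact zero_ne_one h
      invFun := fun u => ⟨Sum.elim (fun _ => ((u.1⁻¹ * u.2⁻¹ : Fˣ) : F))
          (Sum.elim (fun _ => (u.1 : F)) fun _ => (u.2 : F)), by
        rintro g rfl
        rw [xyz_eq, sub_eq_zero]
        change ((u.1⁻¹ * u.2⁻¹ : Fˣ) : F) * (u.1 : F) * (u.2 : F) = 1
        rw [← Units.val_mul, ← Units.val_mul]
        have h : u.1⁻¹ * u.2⁻¹ * u.1 * u.2 = 1 := by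
          rw [mul_assoc, mul_mul_mul_comm, inv_mul_cancel, inv_mul_cancel, one_mul]
        rw [h, Units.val_one]⟩
      left_inv := fun v => by
        have h : v.1 (Sum.inl 0) * v.1 (Sum.inr (Sum.inl 0)) * v.1 (Sum.inr (Sum.inr 0)) = 1 := by
          have h1 := v.2 _ rfl
          exact sub_eq_zero.1 ((xyz_eq v.1).symm.trans h1)
        apply Subtype.ext
        funext s
        rcases s with i | i | i
        · rw [Subsingleton.elim i 0]
          change (v.1 (Sum.inr (Sum.inl 0)))⁻¹ * (v.1 (Sum.inr (Sum.inr 0)))⁻¹ = v.1 (Sum.inl 0)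
          rw [← mul_inv]
          rw [mul_assoc] at h
          exact (eq_inv_of_mul_eq_one_left h).symm
        · rw [Subsingleton.elim i 0]
          rfl
        · rw [Subsingleton.elim i 0]
          rfl
      right_inv := fun u => by
        apply Prod.ext
        · apply Units.ext
          rfl
        · apply Units.ext
          rfl }

end one

lemma co_xyz (k : ℕ) : co (idN (maxS (LaurentPolynomial (LaurentPolynomial ℤ)))) k =
    (k : ℂ) ^ 0 * co (idN (maxS (Trip ℤ H0))) k := by
  have h1 := ft_laurent (R := ℤ) ℤ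
  have h2 := ft_laurent (R := ℤ) (LaurentPolynomial ℤ)
  refine co_compare (isFin_maxS (Trip ℤ H0)) (isFin_maxS (LaurentPolynomial (LaurentPolynomial ℤ)))
    (fun p n _ => finite_hom (Trip ℤ H0))
    (fun p n _ => finite_hom (LaurentPolynomial (LaurentPolynomial ℤ))) (fun k => (k : ℂ) ^ 0) ?_ k
  intro p n _ hn
  have h3 : Nat.card (ℤ →+* GaloisField p n) = 1 :=
    Nat.card_eq_one_iff_unique.2 ⟨inferInstance, ⟨Int.castRingHom _⟩⟩
  rw [card_laurent, card_laurent, Nat.card_congr (ptsMax ℤ), Nat.card_congr (ptsMax (Trip ℤ H0)),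
    Nat.card_congr xyzEquiv, Nat.card_prod, Nat.card_units, h3, mul_one, pow_zero, one_mul]

/-- The zeta function of the integers is controlled by the hypersurface `x y z = 1`. -/
theorem mer_int_of_xyz {S : Set ℂ} (hS : Tr S) (h : ZMer S (tripS ℤ H0)) :
    Mer S (idN (maxS ℤ)) := by
  have h1 := ft_laurent (R := ℤ) ℤ
  have h2 := ft_laurent (R := ℤ) (LaurentPolynomial ℤ)
  have h3 : Mer S (idN (maxS (Trip ℤ H0))) := (zmer_aff (Trip ℤ H0)).1 h
  obtain ⟨σ, g1, g2⟩ := exists_good2 (subset_rfl (a := maxS (Trip ℤ H0)))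
    (subset_rfl (a := maxS (LaurentPolynomial (LaurentPolynomial ℤ))))
  have h4 := mer_shift hS g1 g2 0 co_xyz h3
  obtain ⟨σ, g1, g2⟩ := exists_good2 (subset_rfl (a := maxS (LaurentPolynomial ℤ)))
    (subset_rfl (a := maxS (LaurentPolynomial (LaurentPolynomial ℤ))))
  have h5 := mer_torus hS g1 g2 co_laurent h4
  obtain ⟨σ, g1, g2⟩ := exists_good2 (subset_rfl (a := maxS ℤ))
    (subset_rfl (a := maxS (LaurentPolynomial ℤ)))
  exact mer_torus hS g1 g2 co_laurent h5

/-- Zeta functions of all schemes of finite type and of the hypersurfaces of tripartite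
hypergraphs. -/
theorem all_of_trip {S : Set ℂ} (hS : Tr S)
    (h : ∀ (a b c : ℕ) (H : Finset (Fin a × Fin b × Fin c)), ZMer S (tripS ℤ H)) (X : Sch ℤ)
    (hX : FT False X) : ZMer S X :=
  universal_int (fun x => ⟨x, Int.cast_id⟩) (uni_zmer hS (mer_int_of_xyz hS (h 1 1 1 H0))) h X hX

end Q54.ZE
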