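import Mathlib

/-!
# Euler products over a set of norms

For norms `N i ≥ 2` such that `∑ N i ^ (-σ)` converges the Euler product
`∏ (1 - N i ^ (-s))⁻¹` is the exponential of a Dirichlet series `∑ co N k * k ^ (-s)`.
-/

set_option autoImplicit false

namespace Q54.ZE

open Complex

section

variable {I : Type} (N : I → ℕ)

/-- The powers of the norms. -/
def nm (j : I × ℕ) : ℕ := N j.1 ^ (j.2 + 1)

/-- The weights `1 / m` of the `m`-th powers. -/
noncomputable def wt (j : I × ℕ) : ℂ := 1 / ((j.2 : ℂ) + 1)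

/-- The coefficient of `k ^ (-s)` in the logarithm of the Euler product. -/
noncomputable def co (k : ℕ) : ℂ := ∑' j : (nm N) ⁻¹' {k}, wt j.1

/-- The Euler factor. -/
noncomputable def fac (s : ℂ) (i : I) : ℂ := (1 - (N i : ℂ) ^ (-s))⁻¹

/-- The Euler product converges absolutely for `σ ≤ re s`. -/
structure Good (σ : ℝ) : Prop where
  pos : 0 < σ
  two : ∀ i, 2 ≤ N i
  sum : Summable fun i => (N i : ℝ) ^ (-σ)

variable {N} {σ : ℝ}

lemma Good.mono (h : Good N σ) {τ : ℝ} (hτ : σ ≤ τ) : Good N τ where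
  pos := h.pos.trans_le hτ
  two := h.two
  sum := by
    refine Summable.of_nonneg_of_le (fun i => by positivity) (fun i => ?_) h.sum
    refine Real.rpow_le_rpow_of_exponent_le ?_ (neg_le_neg hτ)
    have := h.two i
    exact_mod_cast (by omega : 1 ≤ N i)

lemma norm_a (h : Good N σ) {s : ℂ} (hs : σ ≤ s.re) (i : I) :
    ‖(N i : ℂ) ^ (-s)‖ ≤ (N i : ℝ) ^ (-σ) := by
  have h2 := h.two i
  have h1 : 1 ≤ N i := by omega
  rw [norm_natCast_cpow_of_pos (by omega), neg_re]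
  exact Real.rpow_le_rpow_of_exponent_le (by exact_mod_cast h1) (neg_le_neg hs)

lemma le_r (h : Good N σ) (i : I) : (N i : ℝ) ^ (-σ) ≤ (2 : ℝ) ^ (-σ) := by
  have h2 := h.two i
  exact Real.rpow_le_rpow_of_nonpos (by norm_num) (by exact_mod_cast h2)
    (neg_nonpos.2 h.pos.le)

lemma r_lt (h : Good N σ) : (2 : ℝ) ^ (-σ) < 1 := by
  rw [Real.rpow_neg (by norm_num)]
  exact inv_lt_one_of_one_lt₀ (Real.one_lt_rpow (by norm_num) h.pos)

lemma norm_a_lt (h : Good N σ) {s : ℂ} (hs : σ ≤ s.re) (i : I) : ‖(N i : ℂ) ^ (-s)‖ < 1 :=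
  ((norm_a h hs i).trans (le_r h i)).trans_lt (r_lt h)

/-- The terms. -/
noncomputable def tm (N : I → ℕ) (s : ℂ) (j : I × ℕ) : ℂ :=
  ((N j.1 : ℂ) ^ (-s)) ^ (j.2 + 1) / ((j.2 : ℂ) + 1)

lemma summable_tm (h : Good N σ) {s : ℂ} (hs : σ ≤ s.re) : Summable (tm N s) := by
  have h1 : Summable fun m : ℕ => ((2 : ℝ) ^ (-σ)) ^ m :=
    summable_geometric_of_lt_one (by positivity) (r_lt h)
  refine Summable.of_norm_bounded (h.sum.mul_of_nonneg h1 (fun i => by positivity)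
    (fun m => by positivity)) ?_
  rintro ⟨i, m⟩
  have h2 : (1 : ℝ) ≤ ‖(m : ℂ) + 1‖ := by
    have h3 : ((m : ℂ) + 1) = ((m + 1 : ℕ) : ℂ) := by push_cast; rfl
    rw [h3, Complex.norm_natCast]
    exact_mod_cast (by omega : 1 ≤ m + 1)
  change ‖((N i : ℂ) ^ (-s)) ^ (m + 1) / ((m : ℂ) + 1)‖ ≤ (N i : ℝ) ^ (-σ) * ((2 : ℝ) ^ (-σ)) ^ m
  rw [norm_div, norm_pow, pow_succ, mul_comm (_ ^ m) _]
  have h4 : ‖(N i : ℂ) ^ (-s)‖ ^ m ≤ ((2 : ℝ) ^ (-σ)) ^ m :=
    pow_le_pow_left₀ (norm_nonneg _) ((norm_a h hs i).trans (le_r h i)) m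
  calc ‖(N i : ℂ) ^ (-s)‖ * ‖(N i : ℂ) ^ (-s)‖ ^ m / ‖(m : ℂ) + 1‖
      ≤ ‖(N i : ℂ) ^ (-s)‖ * ‖(N i : ℂ) ^ (-s)‖ ^ m / 1 := by gcongr
    _ = ‖(N i : ℂ) ^ (-s)‖ * ‖(N i : ℂ) ^ (-s)‖ ^ m := div_one _
    _ ≤ _ := by
      gcongr
      exact norm_a h hs i

lemma tm_fib (s : ℂ) (k : ℕ) (j : I × ℕ) (hj : nm N j = k) :
    tm N s j = wt j * (k : ℂ) ^ (-s) := by
  obtain ⟨i, m⟩ := j
  change ((N i : ℂ) ^ (-s)) ^ (m + 1) / ((m : ℂ) + 1) = 1 / ((m : ℂ) + 1) * (k : ℂ) ^ (-s)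
  have h1 : (k : ℂ) ^ (-s) = ((N i : ℂ) ^ (-s)) ^ (m + 1) := by
    rw [← hj, ← Complex.cpow_nat_mul, natCast_cpow_natCast_mul]
    change ((N i ^ (m + 1) : ℕ) : ℂ) ^ (-s) = _
    push_cast
    rfl
  rw [h1]
  ring

/-- The logarithm of the Euler product. -/
noncomputable def lg (N : I → ℕ) (s : ℂ) : ℂ := ∑' j, tm N s j

lemma hasSum_co (h : Good N σ) {s : ℂ} (hs : σ ≤ s.re) :
    HasSum (fun k : ℕ => co N k * (k : ℂ) ^ (-s)) (lg N s) := by
  have h1 := (summable_tm h hs).hasSum.tsum_fiberwise (nm N)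
  have h2 : (fun k : ℕ => ∑' b : (nm N) ⁻¹' {k}, tm N s b) =
      fun k : ℕ => co N k * (k : ℂ) ^ (-s) := by
    funext k
    rw [co, ← tsum_mul_right]
    exact tsum_congr fun b => tm_fib s k b.1 b.2
  rw [h2] at h1
  exact h1

lemma log_fac (h : Good N σ) {s : ℂ} (hs : σ ≤ s.re) (i : I) :
    log (fac N s i) = -log (1 - (N i : ℂ) ^ (-s)) := by
  rw [fac, Complex.log_inv]
  have h1 := norm_a_lt h hs i
  have h2 : 0 < (1 - (N i : ℂ) ^ (-s)).re := by
    have h3 := (Complex.abs_re_le_norm ((N i : ℂ) ^ (-s)))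
    have h4 := (le_abs_self ((N i : ℂ) ^ (-s)).re).trans h3
    rw [sub_re, one_re]
    linarith
  intro h5
  rw [Complex.arg_eq_pi_iff] at h5
  linarith [h5.1]

lemma hasSum_log_fac (h : Good N σ) {s : ℂ} (hs : σ ≤ s.re) (i : I) :
    HasSum (fun m : ℕ => tm N s (i, m)) (log (fac N s i)) := by
  rw [log_fac h hs]
  have h1 := hasSum_taylorSeries_neg_log' (norm_a_lt h hs i)
  exact h1

lemma hasSum_log (h : Good N σ) {s : ℂ} (hs : σ ≤ s.re) :
    HasSum (fun i => log (fac N s i)) (lg N s) := by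
  have h1 : HasSum (tm N s) (lg N s) := (summable_tm h hs).hasSum
  exact h1.prod_fiberwise (hasSum_log_fac h hs)

lemma fac_ne (h : Good N σ) {s : ℂ} (hs : σ ≤ s.re) (i : I) : fac N s i ≠ 0 := by
  apply inv_ne_zero
  intro h1
  have h2 := norm_a_lt h hs i
  rw [← sub_eq_zero.1 h1, norm_one] at h2
  exact lt_irrefl _ h2

/-- The Euler product is the exponential of its logarithm. -/
theorem hasProd_fac (h : Good N σ) {s : ℂ} (hs : σ ≤ s.re) :
    HasProd (fac N s) (exp (lg N s)) :=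
  hasProd_of_hasSum_log (fac_ne h hs) (hasSum_log h hs)

lemma tprod_fac (h : Good N σ) {s : ℂ} (hs : σ ≤ s.re) : ∏' i, fac N s i = exp (lg N s) :=
  (hasProd_fac h hs).tprod_eq

end

section

variable {I J : Type} {N : I → ℕ} {N' : J → ℕ} {σ : ℝ}

/-- Multiplication of the coefficients by `k ^ m` is the shift `s - m`. -/
theorem lg_shift (h : Good N σ) (h' : Good N' σ) (m : ℕ)
    (hc : ∀ k, co N' k = (k : ℂ) ^ m * co N k) {s : ℂ} (hs : σ + m ≤ s.re) :
    lg N' s = lg N (s - m) := by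
  have h1 := hasSum_co h' (s := s) (by have : (0 : ℝ) ≤ m := by positivity
                                       linarith)
  have h2 := hasSum_co h (s := s - m) (by
    rw [sub_re, Complex.natCast_re]
    linarith)
  refine h1.unique ?_
  convert h2 using 2 with k
  rw [hc]
  rcases Nat.eq_zero_or_pos k with rfl | hk
  · have h3 : co N 0 = 0 := by
      rw [co]
      have h4 : IsEmpty ((nm N) ⁻¹' {0}) := by
        constructor
        rintro ⟨⟨i, m⟩, hj⟩
        have h5 : N i ^ (m + 1) = 0 := hj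
        have h6 := h.two i
        rw [pow_eq_zero_iff (by omega)] at h5
        omega
      exact tsum_empty
    rw [h3, mul_zero, zero_mul, zero_mul]
  · have h3 : (k : ℂ) ≠ 0 := by exact_mod_cast hk.ne'
    have h4 : -(s - (m : ℂ)) = (m : ℂ) + -s := by ring
    rw [h4, Complex.cpow_add _ _ h3, Complex.cpow_natCast]
    ring

lemma co_zero (h : Good N σ) : co N 0 = 0 := by
  rw [co]
  have h4 : IsEmpty ((nm N) ⁻¹' {0}) := by
    constructor
    rintro ⟨⟨i, m⟩, hj⟩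
    have h5 : N i ^ (m + 1) = 0 := hj
    have h6 := h.two i
    rw [pow_eq_zero_iff (by omega)] at h5
    omega
  exact tsum_empty

lemma torus_aux (h : Good N σ) (hc : ∀ k, co N' k = ((k : ℂ) - 1) * co N k) (s : ℂ) (k : ℕ) :
    co N' k * (k : ℂ) ^ (-s) =
      co N k * (k : ℂ) ^ (-(s - 1)) - co N k * (k : ℂ) ^ (-s) := by
  rw [hc]
  rcases Nat.eq_zero_or_pos k with rfl | hk
  · rw [co_zero h, mul_zero, zero_mul, zero_mul, sub_zero]
  · have h3 : (k : ℂ) ≠ 0 := by exact_mod_cast hk.ne'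
    have h4 : -(s - 1) = 1 + -s := by ring
    rw [h4, Complex.cpow_add _ _ h3, Complex.cpow_one]
    ring

/-- Multiplication of the coefficients by `k - 1`. -/
theorem lg_torus (h : Good N σ) (h' : Good N' σ)
    (hc : ∀ k, co N' k = ((k : ℂ) - 1) * co N k) {s : ℂ} (hs : σ + 1 ≤ s.re) :
    lg N' s = lg N (s - 1) - lg N s := by
  have h1 := hasSum_co h' (s := s) (by linarith)
  have h2 := hasSum_co h (s := s - 1) (by
    rw [sub_re, one_re]
    linarith)
  have h3 := hasSum_co h (s := s) (by linarith)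
  have h4 : (fun k : ℕ => co N' k * (k : ℂ) ^ (-s)) =
      fun k : ℕ => co N k * (k : ℂ) ^ (-(s - 1)) - co N k * (k : ℂ) ^ (-s) := by
    funext k
    exact torus_aux h hc s k
  rw [h4] at h1
  exact h1.unique (h2.sub h3)
end

end Q54.ZE
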