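import Pool.Agent.Q54.ZE.Fld
import Pool.Agent.Y116.UV.Defs

/-!
# Counting points of polynomial rings, Laurent polynomial rings and affine bundles
-/

set_option autoImplicit false

namespace Q54.ZE

open Complex Pool.Agent.Y116.UV

section

variable {F : Type} [Field F] [Finite F]

omit [Finite F] in
/-- The restriction of a homomorphism to generators. -/
lemma hom_inj {A : Type} [CommRing A] [Algebra ℤ A] {r : ℕ} (φ : MvPolynomial (Fin r) ℤ →ₐ[ℤ] A)
    (hφ : Function.Surjective φ) :
    Function.Injective fun (g : A →+* F) (i : Fin r) => g (φ (MvPolynomial.X i)) := by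
  intro g g' h
  have h1 : g.comp φ.toRingHom = g'.comp φ.toRingHom := by
    apply MvPolynomial.ringHom_ext
    · intro a
      rw [RingHom.comp_apply, RingHom.comp_apply]
      exact congrArg (fun f : ℤ →+* F => f a) (Subsingleton.elim
        ((g.comp φ.toRingHom).comp MvPolynomial.C) ((g'.comp φ.toRingHom).comp MvPolynomial.C))
    · intro i
      exact congrFun h i
  ext a
  obtain ⟨b, rfl⟩ := hφ a
  exact congrArg (fun f : MvPolynomial (Fin r) ℤ →+* F => f b) h1

lemma finite_hom (A : Type) [CommRing A] [Algebra ℤ A] [Algebra.FiniteType ℤ A] : Finite (A →+* F) := by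
  obtain ⟨r, φ, hφ⟩ := Algebra.FiniteType.iff_quotient_mvPolynomial''.mp
    (inferInstance : Algebra.FiniteType ℤ A)
  exact Finite.of_injective _ (hom_inj φ hφ)

lemma exists_card_le (A : Type) [CommRing A] [Algebra ℤ A] [Algebra.FiniteType ℤ A] :
    ∃ r : ℕ, ∀ (F : Type) [Field F] [Finite F], Nat.card (A →+* F) ≤ Nat.card F ^ r := by
  obtain ⟨r, φ, hφ⟩ := Algebra.FiniteType.iff_quotient_mvPolynomial''.mp
    (inferInstance : Algebra.FiniteType ℤ A)
  refine ⟨r, fun F _ _ => ?_⟩
  have h1 := Nat.card_le_card_of_injective _ (hom_inj (F := F) φ hφ)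
  rwa [Nat.card_fun, Nat.card_fin] at h1

end

/-- The set of all maximal ideals. -/
def maxS (A : Type) [CommRing A] : Set (Ideal A) := {m | m.IsMaximal}

theorem jac_int : IsJacobsonRing ℤ := by
  rw [isJacobsonRing_iff_prime_eq]
  intro P hP
  by_cases h : P = ⊥
  · subst h
    rw [eq_bot_iff]
    intro x hx
    rw [Ideal.mem_jacobson_bot] at hx
    have h1 := hx x
    rw [Int.isUnit_iff] at h1
    rw [Ideal.mem_bot]
    rcases h1 with h1 | h1
    · have : x * x = 0 := by linarith
      exact mul_self_eq_zero.1 this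
    · exfalso
      nlinarith [mul_self_nonneg x]
  · have : P.IsMaximal := IsPrime.to_maximal_ideal h
    exact Ideal.jacobson_eq_self_of_isMaximal

/-- A field that is finitely generated as a ring is finite. -/
theorem finite_of_ft (κ : Type) [Field κ] [i : Algebra ℤ κ] [Algebra.FiniteType ℤ κ] :
    Finite κ := by
  obtain rfl : i = Ring.toIntAlgebra κ := Subsingleton.elim _ _
  have := jac_int
  have hfin : Module.Finite ℤ κ := finite_of_finite_type_of_isJacobsonRing ℤ κ
  have hp0 : ringChar κ ≠ 0 := by
    intro h0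
    have hc : CharZero κ := (CharP.charP_zero_iff_charZero κ).1 (ringChar.of_eq h0)
    have hinj : Function.Injective (algebraMap ℤ κ) := by
      have : (algebraMap ℤ κ) = Int.castRingHom κ := RingHom.ext_int _ _
      rw [this]
      exact RingHom.injective_int _
    have hint : Algebra.IsIntegral ℤ κ := Algebra.IsIntegral.of_finite ℤ κ
    exact Int.not_isField (isField_of_isIntegral_of_isField hinj (Field.toIsField κ))
  have hprime : Fact (ringChar κ).Prime := by
    rcases CharP.char_is_prime_or_zero κ (ringChar κ) with h | h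
    · exact ⟨h⟩
    · exact absurd h hp0
  let _ := ZMod.algebra κ (ringChar κ)
  have : IsScalarTower ℤ (ZMod (ringChar κ)) κ := by
    refine IsScalarTower.of_algebraMap_eq' (RingHom.ext_int _ _)
  have : Module.Finite (ZMod (ringChar κ)) κ := Module.Finite.of_restrictScalars_finite ℤ _ κ
  exact Module.finite_of_finite (ZMod (ringChar κ))

lemma finite_quot (A : Type) [CommRing A] [Algebra ℤ A] [Algebra.FiniteType ℤ A] (m : Ideal A)
    [m.IsMaximal] : Finite (A ⧸ m) := by
  let _ := Ideal.Quotient.field m
  have : Algebra.FiniteType ℤ (A ⧸ m) :=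
    Algebra.FiniteType.of_surjective (Ideal.Quotient.mkₐ ℤ m) Ideal.Quotient.mk_surjective
  exact finite_of_ft (A ⧸ m)

lemma isFin_maxS (A : Type) [CommRing A] [Algebra ℤ A] [Algebra.FiniteType ℤ A] :
    IsFin (maxS A) where
  maximal _ hm := hm
  finite m hm := have : m.IsMaximal := hm
    finite_quot A m

lemma isFin_of_subset {A : Type} [CommRing A] [Algebra ℤ A] [Algebra.FiniteType ℤ A]
    {S : Set (Ideal A)} (hS : S ⊆ maxS A) : IsFin S where
  maximal _ hm := hS hm
  finite m hm := (isFin_maxS A).finite m (hS hm)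

section growth

variable {A : Type} [CommRing A] [Algebra ℤ A] [Algebra.FiniteType ℤ A] {S : Set (Ideal A)}

/-- The number of the ideals of given norm. -/
lemma exists_fib_le (hS : S ⊆ maxS A) : ∃ r : ℕ, ∀ k : ℕ,
    Finite {m : S // idN S m = k} ∧ Nat.card {m : S // idN S m = k} ≤ k ^ r := by
  obtain ⟨r, hr⟩ := exists_card_le A
  refine ⟨r, fun k => ?_⟩
  have hF := isFin_of_subset hS
  by_cases hk : ∃ p n : ℕ, p.Prime ∧ n ≠ 0 ∧ k = p ^ n
  · obtain ⟨p, n, hp, hn, rfl⟩ := hk
    have : Fact p.Prime := ⟨hp⟩
    have hex : ∀ m : {m : S // idN S m = p ^ n}, Nonempty {f : A →+* GaloisField p n //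
        RingHom.ker f = m.1.1} := by
      intro m
      have := hF.maximal m.1.1 m.1.2
      have := hF.finite m.1.1 m.1.2
      let _ := Ideal.Quotient.field m.1.1
      obtain ⟨d, hd1, hd2⟩ := card_ringHom_of_pow (K := A ⧸ m.1.1) (e := 0) p n hn (by
        rw [zero_add, pow_one]
        exact m.2)
      have hd3 : 0 < Nat.card (A ⧸ m.1.1 →+* GaloisField p n) := by
        rw [hd1]
        rcases Nat.eq_zero_or_pos d with h | h
        · rw [h, zero_mul] at hd2
          exact absurd hd2.symm hn
        · exact h
      rw [← Nat.card_congr (kerEquiv m.1.1)] at hd3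
      exact (Nat.card_pos_iff.1 hd3).1
    let g := fun m => (hex m).some
    have hinj : Function.Injective fun m => (g m).1 := by
      intro m m' h
      have h1 : (g m).1 = (g m').1 := h
      apply Subtype.ext
      apply Subtype.ext
      rw [← (g m).2, ← (g m').2, h1]
    have hfin : Finite (A →+* GaloisField p n) := finite_hom A
    refine ⟨Finite.of_injective _ hinj, (Nat.card_le_card_of_injective _ hinj).trans ?_⟩
    rw [← GaloisField.card p n hn]
    exact hr _
  · have h4 : IsEmpty {m : S // idN S m = k} := by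
      constructor
      rintro ⟨m, hj⟩
      have := hF.maximal m.1 m.2
      have := hF.finite m.1 m.2
      let _ := Ideal.Quotient.field m.1
      obtain ⟨q, hq⟩ := CharP.exists (A ⧸ m.1)
      have hq2 : q.Prime := by
        rcases CharP.char_is_prime_or_zero (A ⧸ m.1) q with h2 | h2
        · exact h2
        · rw [h2] at hq
          have := CharP.charP_to_charZero (A ⧸ m.1)
          exact absurd (inferInstance : Infinite (A ⧸ m.1)) (by
            rw [not_infinite_iff_finite]
            infer_instance)
      have : Fact q.Prime := ⟨hq2⟩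
      let _ : Algebra (ZMod q) (A ⧸ m.1) := ZMod.algebra _ q
      have h1 := FiniteField.pow_finrank_eq_natCard q (A ⧸ m.1)
      apply hk
      refine ⟨q, Module.finrank (ZMod q) (A ⧸ m.1), hq2, ?_, ?_⟩
      · have h4 : 0 < Module.finrank (ZMod q) (A ⧸ m.1) := Module.finrank_pos
        exact h4.ne'
      · rw [← hj, h1]
        rfl
    refine ⟨inferInstance, ?_⟩
    rw [Nat.card_of_isEmpty]
    exact Nat.zero_le _

/-- The Euler product over maximal ideals converges. -/
theorem exists_good (hS : S ⊆ maxS A) : ∃ σ : ℝ, Good (idN S) σ := by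
  obtain ⟨r, hr⟩ := exists_fib_le hS
  have hF := isFin_of_subset hS
  refine ⟨r + 2, by positivity, fun m => hF.two m, ?_⟩
  rw [← (Equiv.sigmaFiberEquiv (idN S)).summable_iff]
  rw [summable_sigma_of_nonneg]
  · refine ⟨fun k => ?_, ?_⟩
    · have := (hr k).1
      exact Summable.of_finite
    · refine Summable.of_nonneg_of_le
        (fun k => tsum_nonneg fun m => Real.rpow_nonneg (Nat.cast_nonneg _) _) (fun k => ?_)
        (Real.summable_nat_rpow.2 (by norm_num : (-2 : ℝ) < -1))
      have := (hr k).1
      have := Fintype.ofFinite {m : S // idN S m = k}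
      have h1 : ∀ m : {m : S // idN S m = k}, ((fun m : S => (idN S m : ℝ) ^ (-((r : ℝ) + 2))) ∘
          (Equiv.sigmaFiberEquiv (idN S))) ⟨k, m⟩ = (k : ℝ) ^ (-((r : ℝ) + 2)) := by
        intro m
        change (idN S m.1 : ℝ) ^ (-((r : ℝ) + 2)) = _
        rw [m.2]
      rw [tsum_congr h1, tsum_fintype, Finset.sum_const, Finset.card_univ, ← Nat.card_eq_fintype_card,
        nsmul_eq_mul]
      rcases Nat.eq_zero_or_pos k with rfl | hk
      · rw [Nat.cast_zero, Real.zero_rpow (by
          have : (0 : ℝ) ≤ r := by positivity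
          linarith), mul_zero]
        positivity
      · have hk2 : (0 : ℝ) < k := by exact_mod_cast hk
        calc (Nat.card {m : S // idN S m = k} : ℝ) * (k : ℝ) ^ (-((r : ℝ) + 2))
            ≤ (k : ℝ) ^ r * (k : ℝ) ^ (-((r : ℝ) + 2)) := by
              gcongr
              exact_mod_cast (hr k).2
          _ = (k : ℝ) ^ (-2 : ℝ) := by
              rw [← Real.rpow_natCast, ← Real.rpow_add hk2]
              congr 1
              ring
  · intro x
    exact Real.rpow_nonneg (Nat.cast_nonneg _) _

end growth

end Q54.ZE
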