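import Pool.Agent.Q54.ZE.Cnt

/-!
# Counting points of polynomial rings, Laurent polynomial rings and affine bundles
-/

set_option autoImplicit false

namespace Q54.ZE

open Complex Pool.Agent.Y116.UV

section

variable {F : Type} [Field F]

/-- Homomorphisms from a polynomial ring. -/
noncomputable def polyHom (A σ : Type) [CommRing A] :
    (MvPolynomial σ A →+* F) ≃ (A →+* F) × (σ → F) where
  toFun g := (g.comp MvPolynomial.C, fun i => g (MvPolynomial.X i))
  invFun x := MvPolynomial.eval₂Hom x.1 x.2
  left_inv g := by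
    apply MvPolynomial.ringHom_ext
    · intro a
      rw [MvPolynomial.eval₂Hom_C]
      rfl
    · intro i
      rw [MvPolynomial.eval₂Hom_X']
  right_inv x := by
    apply Prod.ext
    · ext a
      exact MvPolynomial.eval₂Hom_C _ _ _
    · funext i
      exact MvPolynomial.eval₂Hom_X' _ _ _

/-- Homomorphisms from a ring of Laurent polynomials. -/
noncomputable def laurentHom (A : Type) [CommRing A] :
    (LaurentPolynomial A →+* F) ≃ (A →+* F) × Fˣ where
  toFun g := (g.comp LaurentPolynomial.C, ((LaurentPolynomial.isUnit_T 1).map g).unit)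
  invFun x := LaurentPolynomial.eval₂ x.1 x.2
  left_inv g := by
    have h1 : ∀ n : ℤ, g (LaurentPolynomial.T n) =
        ((((LaurentPolynomial.isUnit_T (R := A) 1).map g).unit ^ n : Fˣ) : F) := by
      intro n
      have h2 : ∀ m : ℕ, g (LaurentPolynomial.T m) =
          ((((LaurentPolynomial.isUnit_T (R := A) 1).map g).unit ^ m : Fˣ) : F) := by
        intro m
        have h3 : (LaurentPolynomial.T m : LaurentPolynomial A) = LaurentPolynomial.T 1 ^ m := by
          rw [LaurentPolynomial.T_pow, mul_one]
        rw [h3, map_pow, Units.val_pow_eq_pow_val]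
        rfl
      obtain ⟨m, rfl | rfl⟩ := n.eq_nat_or_neg
      · rw [h2, zpow_natCast]
      · have h4 : g (LaurentPolynomial.T (-(m : ℤ))) * g (LaurentPolynomial.T m) = 1 := by
          rw [← map_mul, ← LaurentPolynomial.T_add, neg_add_cancel, LaurentPolynomial.T_zero,
            map_one]
        rw [h2] at h4
        rw [zpow_neg, zpow_natCast]
        rw [Units.val_inv_eq_inv_val]
        exact eq_inv_of_mul_eq_one_left h4
    apply RingHom.ext
    intro f
    induction f using LaurentPolynomial.induction_on' with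
    | add p q hp hq => rw [map_add, map_add, hp, hq]
    | C_mul_T n a =>
      rw [map_mul, map_mul, LaurentPolynomial.eval₂_C, LaurentPolynomial.eval₂_T, h1]
      rfl
  right_inv x := by
    apply Prod.ext
    · ext a
      exact LaurentPolynomial.eval₂_C _ _ _
    · apply Units.ext
      change LaurentPolynomial.eval₂ x.1 x.2 (LaurentPolynomial.T 1) = _
      rw [LaurentPolynomial.eval₂_T, zpow_one]

/-- Homomorphisms from the ring of functions on an affine bundle of Jouanolou. -/
noncomputable def jouHom {A : Type} [CommRing A] {m : ℕ} (f : Fin m → A) :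
    (Jou f →+* F) ≃ Σ φ : A →+* F, {w : Fin m → F // ∑ l, φ (f l) * w l = 1} where
  toFun g := ⟨(g.comp (Ideal.Quotient.mk _)).comp MvPolynomial.C,
    fun l => g (Ideal.Quotient.mk _ (MvPolynomial.X l)), by
      have h1 : (Ideal.Quotient.mk (Ideal.span {∑ l, MvPolynomial.C (f l) * MvPolynomial.X l - 1}) :
          MvPolynomial (Fin m) A →+* Jou f)
          (∑ l, MvPolynomial.C (f l) * MvPolynomial.X l - 1) = 0 :=
        Ideal.Quotient.eq_zero_iff_mem.2 (Ideal.mem_span_singleton_self _)
      have h2 := congrArg g h1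
      rw [map_sub, map_sub, map_one, map_one, map_zero, map_sum, map_sum, sub_eq_zero] at h2
      rw [← h2]
      apply Finset.sum_congr rfl
      intro l _
      rw [map_mul, map_mul]
      rfl⟩
  invFun x := Ideal.Quotient.lift _ (MvPolynomial.eval₂Hom x.1 x.2.1) (by
    intro a ha
    have h : Ideal.span {∑ l, MvPolynomial.C (f l) * MvPolynomial.X l - 1} ≤
        RingHom.ker (MvPolynomial.eval₂Hom x.1 x.2.1) := by
      rw [Ideal.span_le, Set.singleton_subset_iff]
      change MvPolynomial.eval₂Hom x.1 x.2.1 _ = 0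
      rw [map_sub, map_one, map_sum, sub_eq_zero]
      refine Eq.trans (Finset.sum_congr rfl fun l _ => ?_) x.2.2
      rw [map_mul, MvPolynomial.eval₂Hom_C, MvPolynomial.eval₂Hom_X']
    exact h ha)
  left_inv g := by
    apply Ideal.Quotient.ringHom_ext
    apply MvPolynomial.ringHom_ext
    · intro a
      change MvPolynomial.eval₂Hom _ _ (MvPolynomial.C a) = _
      rw [MvPolynomial.eval₂Hom_C]
      rfl
    · intro i
      change MvPolynomial.eval₂Hom _ _ (MvPolynomial.X i) = _
      rw [MvPolynomial.eval₂Hom_X']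
      rfl
  right_inv x := by
    obtain ⟨φ, w, hw⟩ := x
    have h1 : (((Ideal.Quotient.lift (Ideal.span {∑ l, MvPolynomial.C (f l) * MvPolynomial.X l - 1})
        (MvPolynomial.eval₂Hom φ w) (by
          intro a ha
          have h : Ideal.span {∑ l, MvPolynomial.C (f l) * MvPolynomial.X l - 1} ≤
              RingHom.ker (MvPolynomial.eval₂Hom φ w) := by
            rw [Ideal.span_le, Set.singleton_subset_iff]
            change MvPolynomial.eval₂Hom φ w _ = 0
            rw [map_sub, map_one, map_sum, sub_eq_zero, ← hw]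
            apply Finset.sum_congr rfl
            intro l _
            rw [map_mul, MvPolynomial.eval₂Hom_C, MvPolynomial.eval₂Hom_X']
          exact h ha)).comp (Ideal.Quotient.mk _)).comp MvPolynomial.C) = φ := by
      ext a
      change MvPolynomial.eval₂Hom φ w (MvPolynomial.C a) = _
      rw [MvPolynomial.eval₂Hom_C]
    refine Sigma.subtype_ext h1 ?_
    funext l
    change MvPolynomial.eval₂Hom φ w (MvPolynomial.X l) = _
    rw [MvPolynomial.eval₂Hom_X']

variable [Finite F]

omit [Finite F] in
/-- The number of solutions of a linear equation. -/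
lemma card_linear {m : ℕ} (a : Fin m → F) (ha : ∃ l, a l ≠ 0) :
    Nat.card {w : Fin m → F // ∑ l, a l * w l = 1} = Nat.card F ^ (m - 1) := by
  obtain ⟨l₀, hl⟩ := ha
  let L : (Fin m → F) →ₗ[F] F := Fintype.linearCombination F a ∘ₗ LinearMap.id
  have hL : ∀ w, L w = ∑ l, a l * w l := by
    intro w
    change Fintype.linearCombination F a w = _
    rw [Fintype.linearCombination_apply]
    apply Finset.sum_congr rfl
    intro l _
    rw [smul_eq_mul, mul_comm]
  let w₀ : Fin m → F := Pi.single l₀ (a l₀)⁻¹
  have hw₀ : L w₀ = 1 := by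
    rw [hL, Finset.sum_eq_single l₀]
    · change a l₀ * (Pi.single l₀ (a l₀)⁻¹ : Fin m → F) l₀ = 1
      rw [Pi.single_eq_same, mul_inv_cancel₀ hl]
    · intro l _ hl
      change a l * (Pi.single l₀ (a l₀)⁻¹ : Fin m → F) l = 0
      rw [Pi.single_eq_of_ne hl, mul_zero]
    · intro h
      exact absurd (Finset.mem_univ _) h
  let e : {w : Fin m → F // ∑ l, a l * w l = 1} ≃ LinearMap.ker L :=
    { toFun := fun w => ⟨w.1 - w₀, by
        rw [LinearMap.mem_ker, map_sub, hw₀, hL, w.2, sub_self]⟩
      invFun := fun v => ⟨v.1 + w₀, by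
        rw [← hL, map_add, hw₀, v.2, zero_add]⟩
      left_inv := fun w => Subtype.ext (sub_add_cancel _ _)
      right_inv := fun v => Subtype.ext (add_sub_cancel_right _ _) }
  have h1 : LinearMap.range L = ⊤ := by
    rw [LinearMap.range_eq_top]
    intro y
    refine ⟨y • w₀, ?_⟩
    rw [map_smul, hw₀, smul_eq_mul, mul_one]
  have h2 := LinearMap.finrank_range_add_finrank_ker L
  rw [h1, finrank_top, Module.finrank_self, Module.finrank_fin_fun] at h2
  rw [Nat.card_congr e, Module.natCard_eq_pow_finrank (K := F)]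
  congr 1
  omega

end

section

variable {F : Type} [Field F] [Finite F]

/-- All homomorphisms to a finite field have a maximal kernel. -/
noncomputable def ptsMax (A : Type) [CommRing A] : Pts (maxS A) F ≃ (A →+* F) :=
  Equiv.subtypeUnivEquiv fun f => ker_maximal f

lemma card_space (n : ℕ) : Nat.card (Pts (maxS (MvPolynomial (Fin n) ℤ)) F) =
    Nat.card F ^ n * Nat.card (Pts (maxS ℤ) F) := by
  rw [Nat.card_congr (ptsMax _), Nat.card_congr (ptsMax _), Nat.card_congr (polyHom ℤ (Fin n)),
    Nat.card_prod, Nat.card_fun, Nat.card_fin, mul_comm]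

lemma card_laurent (A : Type) [CommRing A] : Nat.card (Pts (maxS (LaurentPolynomial A)) F) =
    (Nat.card F - 1) * Nat.card (Pts (maxS A) F) := by
  rw [Nat.card_congr (ptsMax _), Nat.card_congr (ptsMax _), Nat.card_congr (laurentHom A),
    Nat.card_prod, Nat.card_units, mul_comm]

/-- The maximal ideals outside of the zero set of `f`. -/
def neS {A : Type} [CommRing A] {m : ℕ} (f : Fin m → A) : Set (Ideal A) :=
  {I | I.IsMaximal ∧ ∃ l, f l ∉ I}

lemma neS_subset {A : Type} [CommRing A] {m : ℕ} (f : Fin m → A) : neS f ⊆ maxS A :=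
  fun _ h => h.1

lemma card_jou {A : Type} [CommRing A] [Algebra ℤ A] [Algebra.FiniteType ℤ A] {m : ℕ}
    (f : Fin m → A) : Nat.card (Pts (maxS (Jou f)) F) =
      Nat.card F ^ (m - 1) * Nat.card (Pts (neS f) F) := by
  have hfin : Finite (A →+* F) := finite_hom A
  have := Fintype.ofFinite (A →+* F)
  classical
  rw [Nat.card_congr (ptsMax _), Nat.card_congr (jouHom f), Nat.card_sigma]
  have h1 : ∀ φ : A →+* F, Nat.card {w : Fin m → F // ∑ l, φ (f l) * w l = 1} =
      if RingHom.ker φ ∈ neS f then Nat.card F ^ (m - 1) else 0 := by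
    intro φ
    by_cases h : ∃ l, φ (f l) ≠ 0
    · rw [card_linear _ h, if_pos]
      exact ⟨ker_maximal φ, h⟩
    · rw [if_neg fun h2 => h h2.2]
      push Not at h
      have h2 : IsEmpty {w : Fin m → F // ∑ l, φ (f l) * w l = 1} := by
        constructor
        rintro ⟨w, hw⟩
        rw [Finset.sum_eq_zero fun l _ => by rw [h l, zero_mul]] at hw
        exact zero_ne_one hw
      exact Nat.card_of_isEmpty
  rw [Finset.sum_congr rfl fun φ _ => h1 φ, ← Finset.sum_filter, Finset.sum_const, smul_eq_mul,
    mul_comm]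
  congr 1
  rw [Nat.card_eq_fintype_card, Fintype.card_subtype]

end

end Q54.ZE
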