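import Pool.Agent.Z125.UN.Dim

/-!
# Locally closed embeddings of open parts of domains of finite type over an arbitrary base

The proof of `Pool.Agent.Z125.UN.exists_emb`, for an arbitrary base ring.
-/

set_option autoImplicit false

open MvPolynomial Pool.Agent.Z125.UN

namespace Q54.ZE

section emb

variable {R : Type} [CommRing R] {B : Type} [CommRing B] [IsDomain B] [Algebra R B]
  {N : ℕ} (x : Fin N → FractionRing B)

/-- the elements of `R[x][1/G0(x)]` -/
def Tr0 (G0 : MvPolynomial (Fin N) R) : Subalgebra R (FractionRing B) where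
  carrier := {a | ∃ (m : ℕ) (p : MvPolynomial (Fin N) R), aeval x G0 ^ m * a = aeval x p}
  mul_mem' := by
    rintro a b ⟨m, p, h1⟩ ⟨m', p', h2⟩
    refine ⟨m + m', p * p', ?_⟩
    rw [map_mul, ← h1, ← h2, pow_add]
    ring
  add_mem' := by
    rintro a b ⟨m, p, h1⟩ ⟨m', p', h2⟩
    refine ⟨m + m', G0 ^ m' * p + G0 ^ m * p', ?_⟩
    rw [map_add, map_mul, map_mul, map_pow, map_pow, ← h1, ← h2, pow_add]
    ring
  algebraMap_mem' := by
    intro r
    refine ⟨0, C r, ?_⟩
    rw [pow_zero, one_mul, algHom_C]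

/-- A domain of finite type such that every element of the fraction field is a quotient of
polynomials in `N` elements has a non-empty open subscheme which is a locally closed subscheme of
the affine space of dimension `N`. -/
lemma exists_emb' [Algebra.FiniteType R B]
    (hq : ∀ y : FractionRing B, ∃ p q : MvPolynomial (Fin N) R, aeval x q ≠ 0 ∧
      aeval x q * y = aeval x p) :
    ∃ w : B, w ≠ 0 ∧ ∃ (φ : MvPolynomial (Fin N) R →ₐ[R] Localization.Away w)
      (g : MvPolynomial (Fin N) R), IsUnit (φ g) ∧ ∀ a, ∃ (m : ℕ) (p : MvPolynomial (Fin N) R),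
        φ g ^ m * a = φ p := by
  classical
  choose num den hden hnum using hq
  -- common denominator of `x`
  obtain ⟨⟨f, hf⟩, hfx⟩ := IsLocalization.exist_integer_multiples_of_finite (nonZeroDivisors B) x
  choose a ha using hfx
  have hf0 : f ≠ 0 := nonZeroDivisors.ne_zero hf
  obtain ⟨S, hS⟩ := (Algebra.FiniteType.out : (⊤ : Subalgebra R B).FG)
  let ι0 : B →+* FractionRing B := algebraMap B (FractionRing B)
  have hι0 : Function.Injective ι0 := IsFractionRing.injective B (FractionRing B)
  let G0 : MvPolynomial (Fin N) R := den ((ι0 f)⁻¹) * ∏ b ∈ S, den (ι0 b)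
  have hG0 : aeval x G0 ≠ 0 := by
    rw [map_mul, map_prod]
    exact mul_ne_zero (hden _) (Finset.prod_ne_zero_iff.mpr fun b _ => hden _)
  -- `B` is contained in `Tr0`
  have hT1 : (ι0 f)⁻¹ ∈ Tr0 x G0 := by
    refine ⟨1, num ((ι0 f)⁻¹) * ∏ b ∈ S, den (ι0 b), ?_⟩
    rw [pow_one, map_mul, map_mul, ← hnum]
    ring
  have hT2 : ∀ b : B, ι0 b ∈ Tr0 x G0 := by
    have h1 : (⊤ : Subalgebra R B) ≤
        (Tr0 x G0).comap (IsScalarTower.toAlgHom R B (FractionRing B)) := by
      rw [← hS, Algebra.adjoin_le_iff]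
      intro b hb
      refine ⟨1, den ((ι0 f)⁻¹) * (num (ι0 b) * ∏ c ∈ S.erase b, den (ι0 c)), ?_⟩
      have h2 : ∏ c ∈ S, den (ι0 c) = den (ι0 b) * ∏ c ∈ S.erase b, den (ι0 c) :=
        (Finset.mul_prod_erase S (fun c => den (ι0 c)) hb).symm
      have h3 := hnum (ι0 b)
      change aeval x G0 ^ 1 * ι0 b = _
      rw [pow_one, map_mul, h2, map_mul, map_mul, map_mul, ← h3]
      ring
    intro b
    exact h1 (Algebra.mem_top (x := b))
  have hT3 : (aeval x G0)⁻¹ ∈ Tr0 x G0 := by
    refine ⟨1, 1, ?_⟩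
    rw [pow_one, map_one]
    exact mul_inv_cancel₀ hG0
  -- `G0(x)` as a fraction
  have hφ : ∀ p : MvPolynomial (Fin N) R, ∃ (M : ℕ) (b : B), aeval x p * ι0 f ^ M = ι0 b := by
    intro p
    induction p using MvPolynomial.induction_on with
    | C r =>
      refine ⟨0, algebraMap R B r, ?_⟩
      rw [pow_zero, mul_one, algHom_C]
      exact IsScalarTower.algebraMap_apply R B (FractionRing B) r
    | add p q hp hq =>
      obtain ⟨M, b, h1⟩ := hp
      obtain ⟨M', b', h2⟩ := hq
      refine ⟨M + M', b * f ^ M' + b' * f ^ M, ?_⟩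
      rw [map_add, map_add, map_mul, map_mul, map_pow, map_pow, ← h1, ← h2, pow_add]
      ring
    | mul_X p i hp =>
      obtain ⟨M, b, h1⟩ := hp
      refine ⟨M + 1, b * a i, ?_⟩
      have h2 : ι0 (a i) = ι0 f * x i := by
        have := ha i
        rw [Algebra.smul_def] at this
        exact this
      rw [map_mul, map_mul, aeval_X, h2, ← h1]
      ring
  obtain ⟨M, w', hw'⟩ := hφ G0
  have hιf : ι0 f ≠ 0 := fun h => hf0 (hι0 (h.trans (map_zero ι0).symm))
  have hw'0 : w' ≠ 0 := by
    rintro rfl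
    rw [map_zero] at hw'
    exact (mul_ne_zero hG0 (pow_ne_zero _ hιf)) hw'
  let w : B := f * w'
  have hw0 : w ≠ 0 := mul_ne_zero hf0 hw'0
  have hιw : ι0 w ≠ 0 := fun h => hw0 (hι0 (h.trans (map_zero ι0).symm))
  refine ⟨w, hw0, ?_⟩
  -- the localisation and its embedding
  let L := Localization.Away w
  let ι : L →+* FractionRing B := IsLocalization.Away.lift w (g := ι0) (isUnit_iff_ne_zero.mpr hιw)
  have hι : ∀ b, ι (algebraMap B L b) = ι0 b := fun b => IsLocalization.Away.lift_eq w _ b
  have hsurj : ∀ c : L, ∃ (n : ℕ) (b : B), c * algebraMap B L w ^ n = algebraMap B L b := by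
    intro c
    obtain ⟨⟨b, ⟨_, n, rfl⟩⟩, hb⟩ := IsLocalization.surj (Submonoid.powers w) c
    refine ⟨n, b, ?_⟩
    rw [← map_pow]
    exact hb
  have hιinj : Function.Injective ι := by
    rw [injective_iff_map_eq_zero]
    intro c hc
    obtain ⟨n, b, hb⟩ := hsurj c
    have h1 := congrArg ι hb
    rw [map_mul, hc, zero_mul, hι] at h1
    have h2 : b = 0 := hι0 (h1.symm.trans (map_zero ι0).symm)
    rw [h2, map_zero] at hb
    exact ((IsLocalization.Away.algebraMap_isUnit (S := L) w).pow n).mul_left_eq_zero.mp hb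
  have huw : IsUnit (algebraMap B L w) := IsLocalization.Away.algebraMap_isUnit w
  have huf : IsUnit (algebraMap B L f) := by
    have h1 : algebraMap B L w = algebraMap B L f * algebraMap B L w' := map_mul _ _ _
    rw [h1] at huw
    exact isUnit_of_mul_isUnit_left huw
  have huw' : IsUnit (algebraMap B L w') := by
    have h1 : algebraMap B L w = algebraMap B L f * algebraMap B L w' := map_mul _ _ _
    rw [h1] at huw
    exact isUnit_of_mul_isUnit_right huw
  let fi : L := ↑huf.unit⁻¹
  have hfi : algebraMap B L f * fi = 1 := huf.mul_val_inv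
  let φ : MvPolynomial (Fin N) R →ₐ[R] L := aeval fun i => algebraMap B L (a i) * fi
  have hax : ∀ i, ι0 (a i) = ι0 f * x i := by
    intro i
    have := ha i
    rw [Algebra.smul_def] at this
    exact this
  have hιfi : ι0 f * ι fi = 1 := by
    rw [← hι f, ← map_mul, hfi, map_one]
  have hιφ : ∀ p, ι (φ p) = aeval x p := by
    have h1 : ι.comp φ.toRingHom = (aeval x : MvPolynomial (Fin N) R →ₐ[R] _).toRingHom := by
      apply MvPolynomial.ringHom_ext
      · intro r
        change ι (φ (C r)) = aeval x (C r)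
        rw [algHom_C, algHom_C, IsScalarTower.algebraMap_apply R B L, hι]
        exact (IsScalarTower.algebraMap_apply R B (FractionRing B) r).symm
      · intro i
        change ι (φ (X i)) = aeval x (X i)
        have h2 : φ (X i) = algebraMap B L (a i) * fi := aeval_X _ _
        rw [h2, map_mul, hι, hax, aeval_X]
        linear_combination x i * hιfi
    intro p
    exact congrArg (fun h : MvPolynomial (Fin N) R →+* FractionRing B => h p) h1
  refine ⟨φ, G0, ?_, ?_⟩
  · have h1 : φ G0 * algebraMap B L f ^ M = algebraMap B L w' := by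
      apply hιinj
      rw [map_mul, map_pow, hιφ, hι, hι, hw']
    rw [← h1] at huw'
    exact isUnit_of_mul_isUnit_left huw'
  · intro c
    have h1 : ι c ∈ Tr0 x G0 := by
      obtain ⟨n, b, hb⟩ := hsurj c
      have h3 := congrArg ι hb
      rw [map_mul, map_pow, hι, hι] at h3
      have h4 : (ι0 w)⁻¹ ∈ Tr0 x G0 := by
        have h5 : (ι0 w)⁻¹ = (ι0 f)⁻¹ * ((aeval x G0)⁻¹ * ((ι0 f)⁻¹) ^ M) := by
          change (ι0 (f * w'))⁻¹ = _
          rw [map_mul, ← hw', mul_inv, mul_inv, inv_pow]
        rw [h5]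
        exact mul_mem hT1 (mul_mem hT3 (pow_mem hT1 M))
      have h6 : ι c = ι0 b * ((ι0 w)⁻¹) ^ n := by
        rw [← h3, mul_assoc, inv_pow, mul_inv_cancel₀ (pow_ne_zero _ hιw), mul_one]
      rw [h6]
      exact mul_mem (hT2 b) (pow_mem h4 n)
    obtain ⟨m, p, h2⟩ := h1
    refine ⟨m, p, hιinj ?_⟩
    rw [map_mul, map_pow, hιφ, hιφ, h2]

end emb

section clear

variable {k : Type} [Field k] (hk : ∀ a : k, ∃ m n : ℤ, (m : k) ≠ 0 ∧ (m : k) * a = n)

include hk

/-- Clearing the denominators of a polynomial over a prime field. -/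
lemma exists_int {σ : Type} (p : MvPolynomial σ k) : ∃ m : ℤ, (m : k) ≠ 0 ∧
    ∃ P : MvPolynomial σ ℤ, map (algebraMap ℤ k) P = C (m : k) * p := by
  induction p using MvPolynomial.induction_on with
  | C a =>
    obtain ⟨m, n, hm, h⟩ := hk a
    refine ⟨m, hm, C n, ?_⟩
    rw [map_C, ← C_mul, h]
    rfl
  | add p q hp hq =>
    obtain ⟨m, hm, P, hP⟩ := hp
    obtain ⟨m', hm', Q, hQ⟩ := hq
    refine ⟨m * m', by push_cast; exact mul_ne_zero hm hm', C m' * P + C m * Q, ?_⟩
    rw [map_add, map_mul, map_mul, hP, hQ, map_C, map_C]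
    push_cast
    rw [C_mul]
    change C (m' : k) * _ + C (m : k) * _ = _
    ring
  | mul_X p i hp =>
    obtain ⟨m, hm, P, hP⟩ := hp
    refine ⟨m, hm, P * X i, ?_⟩
    rw [map_mul, map_X, hP]
    ring

variable {L : Type} [Field L] [Algebra k L]

/-- Quotients of polynomials over a prime field are quotients of integral polynomials. -/
lemma quot_int {N : ℕ} (x : Fin N → L) (hx : IntermediateField.adjoin k (Set.range x) = ⊤)
    (y : L) : ∃ p q : MvPolynomial (Fin N) ℤ, aeval x q ≠ 0 ∧ aeval x q * y = aeval x p := by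
  have h1 : y ∈ IntermediateField.adjoin k (Set.range x) := by
    rw [hx]
    trivial
  obtain ⟨p, q, h2⟩ := (IntermediateField.mem_adjoin_range_iff k x y).mp h1
  by_cases h3 : aeval x q = 0
  · refine ⟨0, 1, ?_, ?_⟩
    · rw [map_one]
      exact one_ne_zero
    · rw [h2, h3, div_zero, mul_zero, map_zero]
  · obtain ⟨m, hm, P, hP⟩ := exists_int hk p
    obtain ⟨m', hm', Q, hQ⟩ := exists_int hk q
    have h4 : ∀ (n : ℤ) (P' : MvPolynomial (Fin N) ℤ) (p' : MvPolynomial (Fin N) k),
        map (algebraMap ℤ k) P' = C (n : k) * p' →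
        aeval x P' = algebraMap k L n * aeval x p' := by
      intro n P' p' h
      rw [← aeval_map_algebraMap k, h, map_mul, algHom_C]
    have hmL : algebraMap k L (m : k) ≠ 0 := by
      rw [Ne, map_eq_zero]
      exact hm
    have hmL' : algebraMap k L (m' : k) ≠ 0 := by
      rw [Ne, map_eq_zero]
      exact hm'
    have h5 : ∀ n : ℤ, aeval x (C n : MvPolynomial (Fin N) ℤ) = algebraMap k L (n : k) := by
      intro n
      rw [algHom_C, map_intCast]
      rfl
    refine ⟨C m' * P, C m * Q, ?_, ?_⟩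
    · rw [map_mul, h4 _ _ _ hQ, h5]
      exact mul_ne_zero hmL (mul_ne_zero hmL' h3)
    · rw [map_mul, map_mul, h4 _ _ _ hQ, h4 _ _ _ hP, h5, h5, h2]
      field_simp

end clear

end Q54.ZE
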