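import Pool.Agent.Q54.ZE.Zet2

/-!
# The Euler products in terms of the numbers of solutions of bilinear equations
-/

set_option autoImplicit false

namespace Q54.ZE

open CategoryTheory AlgebraicGeometry Topology Pool.Agent.Y116.UV Pool.Agent.Z125.UN Q54.CU

section general

/-- The number of homomorphisms to the field with `p ^ (n + 1)` elements. -/
noncomputable def homCount (A : Type) [CommRing A] (x : Nat.Primes × ℕ) : ℕ :=
  haveI : Fact x.1.1.Prime := ⟨x.1.2⟩
  Nat.card (A →+* GaloisField x.1.1 (x.2 + 1))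

/-- Prime powers. -/
def ppow (x : Nat.Primes × ℕ) : ℕ := x.1.1 ^ (x.2 + 1)

lemma ppow_inj : Function.Injective ppow := by
  rintro ⟨p, n⟩ ⟨q, m⟩ h
  have h1 : p.1 ^ (n + 1) = q.1 ^ (m + 1) := h
  have h2 : p.1 = q.1 := by
    have h3 : p.1 ∣ q.1 ^ (m + 1) := by
      rw [← h1]
      exact dvd_pow_self _ (by omega)
    exact (Nat.prime_dvd_prime_iff_eq p.2 q.2).1 (p.2.dvd_of_dvd_pow h3)
  have h3 : p = q := Subtype.ext h2
  subst h3
  have h4 := Nat.pow_right_injective p.2.two_le h1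
  have h5 : n = m := by omega
  rw [h5]

variable {A : Type} [CommRing A] [Algebra ℤ A] [Algebra.FiniteType ℤ A] {σ : ℝ}

/-- The logarithm of the Euler product in terms of the numbers of points. -/
theorem hasSum_points (h : Good (idN (maxS A)) σ) {s : ℂ} (hs : σ ≤ s.re) :
    HasSum (fun x : Nat.Primes × ℕ => (homCount A x : ℂ) / (x.2 + 1) *
      ((x.1.1 : ℂ) ^ (-(((x.2 : ℂ) + 1) * s)))) (lg (idN (maxS A)) s) := by
  have h1 := hasSum_co h hs
  have h2 : ∀ k ∉ Set.range ppow, co (idN (maxS A)) k * (k : ℂ) ^ (-s) = 0 := by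
    intro k hk
    rw [co_eq_zero (isFin_maxS A), zero_mul]
    rintro ⟨p, n, hp, hn, rfl⟩
    apply hk
    exact ⟨(⟨p, hp⟩, n - 1), by
      change p ^ (n - 1 + 1) = p ^ n
      rw [Nat.sub_add_cancel (by omega)]⟩
  rw [← ppow_inj.hasSum_iff h2] at h1
  refine h1.congr_fun ?_
  rintro ⟨p, n⟩
  have : Fact p.1.Prime := ⟨p.2⟩
  have hfin : Finite (A →+* GaloisField p.1 (n + 1)) := finite_hom A
  have h3 := mul_co p.1 (n + 1) (isFin_maxS A) (Nat.succ_ne_zero n)
  rw [Nat.card_congr (ptsMax A)] at h3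
  have h4 : ((n : ℂ) + 1) ≠ 0 := by exact_mod_cast (Nat.succ_ne_zero n)
  have h5 : co (idN (maxS A)) (p.1 ^ (n + 1)) = (homCount A (p, n) : ℂ) / ((n : ℂ) + 1) := by
    rw [eq_div_iff h4]
    push_cast at h3
    rw [mul_comm]
    exact h3
  change (homCount A (p, n) : ℂ) / ((n : ℂ) + 1) * ((p.1 : ℂ) ^ (-(((n : ℂ) + 1) * s))) =
    co (idN (maxS A)) (p.1 ^ (n + 1)) * ((p.1 ^ (n + 1) : ℕ) : ℂ) ^ (-s)
  rw [h5]
  congr 1
  have h6 : -(((n : ℂ) + 1) * s) = ((n + 1 : ℕ) : ℂ) * (-s) := by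
    push_cast
    ring
  rw [h6, Complex.natCast_cpow_natCast_mul]
  push_cast
  rfl

lemma mer_points (S : Set ℂ) : Mer S (idN (maxS A)) ↔ ∃ F : ℂ → ℂ, NoDiv S F ∧
    ∃ τ : ℝ, ∀ s : ℂ, τ < s.re → F s = Complex.exp (∑' x : Nat.Primes × ℕ,
      (homCount A x : ℂ) / (x.2 + 1) * ((x.1.1 : ℂ) ^ (-(((x.2 : ℂ) + 1) * s)))) := by
  obtain ⟨σ, h⟩ := exists_good (A := A) (S := maxS A) subset_rfl
  rw [mer_iff h]
  constructor
  · rintro ⟨F, hF, τ, h1⟩
    refine ⟨F, hF, max σ τ, fun s hs => ?_⟩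
    rw [(hasSum_points h ((le_max_left _ _).trans hs.le)).tsum_eq]
    exact h1 s ((le_max_right _ _).trans_lt hs)
  · rintro ⟨F, hF, τ, h1⟩
    refine ⟨F, hF, max σ τ, fun s hs => ?_⟩
    rw [← (hasSum_points h ((le_max_left _ _).trans hs.le)).tsum_eq]
    exact h1 s ((le_max_right _ _).trans_lt hs)

end general

section sol

variable {a b c : ℕ} (H : Finset (Fin a × Fin b × Fin c))

/-- The number of solutions `(y, z)` of the bilinear equations `∑_{(i, j, k) ∈ H} y_j z_k = 0`, one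
for each `i`, in the field with `p ^ (n + 1)` elements. -/
noncomputable def solCount (x : Nat.Primes × ℕ) : ℕ :=
  haveI : Fact x.1.1.Prime := ⟨x.1.2⟩
  Nat.card {v : (Fin b → GaloisField x.1.1 (x.2 + 1)) × (Fin c → GaloisField x.1.1 (x.2 + 1)) //
    ∀ i : Fin a, ∑ h ∈ H with h.1 = i, v.1 h.2.1 * v.2 h.2.2 = 0}

/-- The exponential of the Dirichlet series of the numbers of solutions. -/
noncomputable def solZeta (s : ℂ) : ℂ :=
  Complex.exp (∑' x : Nat.Primes × ℕ, (solCount H x : ℂ) / (x.2 + 1) *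
    ((x.1.1 : ℂ) ^ (-(((x.2 : ℂ) + 1) * s))))

/-- The coefficients of the hypergraph. -/
def indT : Fin a → Fin b → Fin c → ℤ := fun i j k => if (i, j, k) ∈ H then 1 else 0

/-- The ring of the bilinear equations. -/
abbrev BRing : Type := MvPolynomial (Fin b ⊕ Fin c) ℤ ⧸ Ideal.span (Set.range (bl (indT H)))

lemma aeval_indT {F : Type} [Field F] (v : Fin b ⊕ Fin c → F) (i : Fin a) :
    MvPolynomial.aeval v (bl (indT H) i) =
      ∑ h ∈ H with h.1 = i, v (Sum.inl h.2.1) * v (Sum.inr h.2.2) := by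
  have h1 : ∑ h ∈ H with h.1 = i, v (Sum.inl h.2.1) * v (Sum.inr h.2.2) =
      ∑ h : Fin a × Fin b × Fin c, if h ∈ H ∧ h.1 = i then
        v (Sum.inl h.2.1) * v (Sum.inr h.2.2) else 0 := by
    rw [← Finset.sum_filter]
    apply Finset.sum_congr _ fun _ _ => rfl
    ext h
    simp
  rw [aeval_bl, h1, Fintype.sum_prod_type, Finset.sum_eq_single i]
  · rw [Fintype.sum_prod_type]
    apply Finset.sum_congr rfl
    intro j _
    rw [Finset.sum_mul]
    apply Finset.sum_congr rfl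
    intro k _
    by_cases h : (i, j, k) ∈ H
    · rw [if_pos ⟨h, rfl⟩, indT, if_pos h, map_one, one_mul, mul_comm]
    · rw [if_neg fun h2 => h h2.1, indT, if_neg h, map_zero, zero_mul, zero_mul]
  · intro i' _ hi'
    apply Finset.sum_eq_zero
    intro x _
    rw [if_neg fun h2 => hi' h2.2]
  · intro h
    exact absurd (Finset.mem_univ i) h

/-- The homomorphisms are the solutions. -/
noncomputable def solEquiv {F : Type} [Field F] : (BRing H →+* F) ≃
    {v : (Fin b → F) × (Fin c → F) // ∀ i : Fin a, ∑ h ∈ H with h.1 = i,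
      v.1 h.2.1 * v.2 h.2.2 = 0} :=
  (quotHom _).trans ((Equiv.sumArrowEquivProdArrow (Fin b) (Fin c) F).subtypeEquiv fun v => by
    constructor
    · intro h i
      have h1 := h _ ⟨i, rfl⟩
      rw [aeval_indT] at h1
      exact h1
    · rintro h _ ⟨i, rfl⟩
      rw [aeval_indT]
      exact h i)

lemma homCount_eq (x : Nat.Primes × ℕ) : homCount (BRing H) x = solCount H x :=
  Nat.card_congr (solEquiv H)

/-- The zeta function of the hypersurface and the numbers of solutions of the bilinear equations. -/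
theorem zmer_sol {S : Set ℂ} (hS : Tr S) (hz : Mer S (idN (maxS ℤ))) : ZMer S (tripS ℤ H) ↔
    ∃ F : ℂ → ℂ, NoDiv S F ∧ ∃ τ : ℝ, ∀ s : ℂ, τ < s.re → F s = solZeta H s := by
  have hP := bnd_zmer hS hz
  have h1 : ZMer S (tripS ℤ H) ↔ ZMer S (aff ℤ (Hyp (indT H))) := by
    unfold tripS Trip
    rw [← tri_ind]
    rfl
  have h2 : ZMer S (aff ℤ (Pc (bl (indT H)) 1)) ↔ ZMer S (aff ℤ (BRing H)) :=
    ⟨iso_alg hP.toUni (oneE (bl (indT H))).symm, iso_alg hP.toUni (oneE (bl (indT H)))⟩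
  rw [h1, hyp_bl_iff hP, h2, zmer_aff, mer_points]
  unfold solZeta
  simp only [homCount_eq]

end sol

end Q54.ZE
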