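import Pool.Agent.Q54.ZE.Fib
import Pool.Agent.Q54.ZE.Zet3

/-!
# Zeta functions of schemes with fibres of dimension at most `n`
-/

set_option autoImplicit false

namespace Q54.ZE

open CategoryTheory AlgebraicGeometry Topology Pool.Agent.Y116.UV Pool.Agent.Z125.UN

/-- The trilinear form `x y z_0`. -/
def T0 (n : ℕ) : Fin 1 → Fin 1 → Fin (n + 2) → ℤ := fun _ _ k => if k = 0 then 1 else 0

section

variable {F : Type} [Field F] {n : ℕ}

lemma tri_T0 (v : Fin 1 ⊕ (Fin 1 ⊕ Fin (n + 2)) → F) :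
    MvPolynomial.aeval v (tri (T0 n) - 1) =
      v (Sum.inl 0) * v (Sum.inr (Sum.inl 0)) * v (Sum.inr (Sum.inr 0)) - 1 := by
  rw [tri, map_sub, map_one, map_sum, Fin.sum_univ_one, map_sum, Fin.sum_univ_one, map_sum,
    Finset.sum_eq_single (0 : Fin (n + 2))]
  · rw [map_mul, map_mul, map_mul, MvPolynomial.aeval_X, MvPolynomial.aeval_X,
      MvPolynomial.aeval_X, T0, if_pos rfl, MvPolynomial.C_1, map_one, one_mul]
  · intro k _ hk
    rw [T0, if_neg hk, MvPolynomial.C_0]
    simp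
  · intro h
    exact absurd (Finset.mem_univ _) h

/-- The solutions of `x y z_0 = 1`. -/
abbrev SolA (F : Type) [Field F] (n : ℕ) : Type :=
  {v : Fin 1 ⊕ (Fin 1 ⊕ Fin (n + 2)) → F // v (Sum.inl 0) * v (Sum.inr (Sum.inl 0)) *
    v (Sum.inr (Sum.inr 0)) - 1 = 0}

/-- The solutions of `x y z = 1`. -/
abbrev SolB (F : Type) [Field F] : Type :=
  {v : Fin 1 ⊕ (Fin 1 ⊕ Fin 1) → F // v (Sum.inl 0) * v (Sum.inr (Sum.inl 0)) *
    v (Sum.inr (Sum.inr 0)) - 1 = 0}

/-- Separation of the free variables. -/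
def solE : SolA F n ≃ SolB F × (Fin (n + 1) → F) where
  toFun v := (⟨Sum.elim (fun i => v.1 (Sum.inl i)) (Sum.elim (fun j => v.1 (Sum.inr (Sum.inl j)))
    fun _ => v.1 (Sum.inr (Sum.inr 0))), v.2⟩, fun k => v.1 (Sum.inr (Sum.inr k.succ)))
  invFun u := ⟨Sum.elim (fun i => u.1.1 (Sum.inl i))
    (Sum.elim (fun j => u.1.1 (Sum.inr (Sum.inl j)))
      (Fin.cons (u.1.1 (Sum.inr (Sum.inr 0))) u.2 : Fin (n + 2) → F)), u.1.2⟩
  left_inv v := by
    apply Subtype.ext
    funext s
    rcases s with i | j | k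
    · rfl
    · rfl
    · refine Fin.cases ?_ (fun k => ?_) k
      · rfl
      · rfl
  right_inv u := by
    apply Prod.ext
    · apply Subtype.ext
      funext s
      rcases s with i | j | k
      · rfl
      · rfl
      · rw [Subsingleton.elim k 0]
        rfl
    · funext k
      rfl

/-- The points of the hypersurface `x y z_0 = 1`. -/
noncomputable def t0Equiv : (Hyp (T0 n) →+* F) ≃ (Trip ℤ H0 →+* F) × (Fin (n + 1) → F) :=
  ((quotHom _).trans (Equiv.subtypeEquivRight fun v => by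
    simp only [Set.mem_singleton_iff, forall_eq, tri_T0])).trans (solE.trans
    (((quotHom _).trans (Equiv.subtypeEquivRight fun v => by
      simp only [Set.mem_singleton_iff, forall_eq, xyz_eq])).symm.prodCongr (Equiv.refl _)))

end

lemma co_t0 (n k : ℕ) : co (idN (maxS (Hyp (T0 n)))) k =
    (k : ℂ) ^ (n + 1) * co (idN (maxS (Trip ℤ H0))) k := by
  refine co_compare (isFin_maxS (Trip ℤ H0)) (isFin_maxS (Hyp (T0 n)))
    (fun p m _ => finite_hom (Trip ℤ H0)) (fun p m _ => finite_hom (Hyp (T0 n)))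
    (fun k => (k : ℂ) ^ (n + 1)) ?_ k
  intro p m _ hm
  rw [Nat.card_congr (ptsMax (Trip ℤ H0)), Nat.card_congr (ptsMax (Hyp (T0 n))),
    Nat.card_congr t0Equiv, Nat.card_prod, Nat.card_fun, Nat.card_fin,
    GaloisField.card p m hm]
  push_cast
  ring

/-- The zeta function of the integers is controlled by the hypersurface `x y z_0 = 1`. -/
theorem mer_int_of_t0 {S : Set ℂ} (hS : Tr S) {n : ℕ} (h : ZMer S (hypS (T0 n))) :
    Mer S (idN (maxS ℤ)) := by
  refine mer_int_of_xyz hS ((zmer_aff (Trip ℤ H0)).2 ?_)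
  obtain ⟨σ, g1, g2⟩ := exists_good2 (subset_rfl (a := maxS (Trip ℤ H0)))
    (subset_rfl (a := maxS (Hyp (T0 n))))
  exact mer_unshift hS g1 g2 (n + 1) (co_t0 n) ((zmer_aff (Hyp (T0 n))).1 h)

open TensorProduct in
/-- Localizations and quotients of the integers have fibres of dimension at most `n`. -/
lemma fib_int (n : ℕ) (A : Type) [CommRing A] (hA : ∀ a : A, ∃ m j : ℤ, IsUnit (m : A) ∧
    (m : A) * a = j) : FibLE n (Spec.map (CommRingCat.ofHom (algebraMap ℤ A))) := by
  rw [fib_affine]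
  intro K _
  let iL : A →+* A ⊗[ℤ] K := (Algebra.TensorProduct.includeLeft : A →ₐ[ℤ] A ⊗[ℤ] K).toRingHom
  let iR : K →+* A ⊗[ℤ] K := (Algebra.TensorProduct.includeRight : K →ₐ[ℤ] A ⊗[ℤ] K).toRingHom
  have h1 : Function.Surjective iR := by
    intro z
    induction z using TensorProduct.induction_on with
    | zero => exact ⟨0, map_zero _⟩
    | add x y hx hy =>
      obtain ⟨a, rfl⟩ := hx
      obtain ⟨b, rfl⟩ := hy
      exact ⟨a + b, map_add _ _ _⟩
    | tmul c a =>
      obtain ⟨m, j, hm, h⟩ := hA c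
      have h2 : c ⊗ₜ[ℤ] a = iL c * iR a := by
        change c ⊗ₜ[ℤ] a = (c ⊗ₜ[ℤ] (1 : K)) * ((1 : A) ⊗ₜ[ℤ] a)
        rw [Algebra.TensorProduct.tmul_mul_tmul, mul_one, one_mul]
      have hu : IsUnit (m : A ⊗[ℤ] K) := by
        have h1 := hm.map iL
        rwa [map_intCast] at h1
      by_cases hK : (m : K) = 0
      · have h3 : (m : A ⊗[ℤ] K) = 0 := by
          rw [← map_intCast iR, hK, map_zero]
        rw [h3, isUnit_zero_iff] at hu
        have h4 : Subsingleton (A ⊗[ℤ] K) := subsingleton_of_zero_eq_one hu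
        exact ⟨0, Subsingleton.elim _ _⟩
      · refine ⟨(m : K)⁻¹ * j * a, ?_⟩
        have h3 : iR ((m : K)⁻¹) * (m : A ⊗[ℤ] K) = 1 := by
          rw [← map_intCast iR, ← map_mul, inv_mul_cancel₀ hK, map_one]
        have h4 : (m : A ⊗[ℤ] K) * iL c = (j : A ⊗[ℤ] K) := by
          rw [← map_intCast iL, ← map_mul, h, map_intCast]
        rw [h2, map_mul, map_mul, map_intCast, ← h4]
        linear_combination (iL c * iR a) * h3
  refine (ringKrullDim_le_of_surjective iR h1).trans ?_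
  rw [ringKrullDim_eq_zero_of_field]
  exact_mod_cast Nat.zero_le n

/-- **Zeta functions of schemes with fibres of dimension at most `n` and trilinear forms.** -/
theorem zmer_fib {S : Set ℂ} (hS : Tr S) (n : ℕ) :
    (∀ X : Sch ℤ, FT False X → FibLE n (X := X.left) X.hom → ZMer S X) ↔
      ∀ (a b : ℕ) (T : Fin a → Fin b → Fin (n + 2) → ℤ), ZMer S (hypS T) := by
  constructor
  · intro h
    have h1 : Mer S (idN (maxS ℤ)) := by
      have h2 : ZMer S (aff ℤ ℤ) := h _ (ft_aff False) (by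
        exact fib_int n ℤ fun a => ⟨1, a, by simp, by simp⟩)
      exact (zmer_aff ℤ).1 h2
    exact (fib_tri (bnd_zmer hS h1) n).1 h
  · intro h
    exact (fib_tri (bnd_zmer hS (mer_int_of_t0 hS (h 1 1 (T0 n)))) n).2 h

end Q54.ZE
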