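import Pool.Agent.Q54.ZE.Ana

/-!
# Homomorphisms to finite fields and the coefficients of Euler products
-/

set_option autoImplicit false

namespace Q54.ZE

open Complex

section field

variable (p n : ℕ) [hp : Fact p.Prime]

/-- Ring homomorphisms between finite fields of characteristic `p`. -/
lemma card_ringHom {K : Type} [Field K] [Finite K] [CharP K p] (hn : n ≠ 0) {d : ℕ}
    (hd : Nat.card K = p ^ d) (h : d ∣ n) : Nat.card (K →+* GaloisField p n) = d := by
  let _ : Algebra (ZMod p) K := ZMod.algebra K p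
  have h1 : Module.finrank (ZMod p) K = d := by
    have h2 := FiniteField.pow_finrank_eq_natCard p K
    rw [hd] at h2
    exact Nat.pow_right_injective hp.out.two_le h2
  have h3 : Module.finrank (ZMod p) (GaloisField p n) = n := GaloisField.finrank p hn
  have h4 : Nat.card (K →ₐ[ZMod p] GaloisField p n) = d := by
    rw [FiniteField.natCard_algHom_of_finrank_dvd (by rw [h1, h3]; exact h), h1]
  rw [← h4]
  refine Nat.card_congr ⟨fun f => ⟨f, fun r => ?_⟩, fun f => f.toRingHom, fun f => rfl,
    fun f => rfl⟩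
  change (f.comp (algebraMap (ZMod p) K)) r = algebraMap (ZMod p) (GaloisField p n) r
  rw [Subsingleton.elim (f.comp (algebraMap (ZMod p) K)) (algebraMap (ZMod p) (GaloisField p n))]

/-- If a power of the order of the finite field `K` is `p ^ n`. -/
lemma card_ringHom_of_pow {K : Type} [Field K] [Finite K] (hn : n ≠ 0) {e : ℕ}
    (h : Nat.card K ^ (e + 1) = p ^ n) :
    ∃ d, Nat.card (K →+* GaloisField p n) = d ∧ d * (e + 1) = n := by
  obtain ⟨q, hq⟩ := CharP.exists K
  have hq2 : q.Prime := by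
    rcases CharP.char_is_prime_or_zero K q with h2 | h2
    · exact h2
    · rw [h2] at hq
      have := CharP.charP_to_charZero K
      exact absurd (inferInstance : Infinite K) (by
        rw [not_infinite_iff_finite]
        infer_instance)
  have : Fact q.Prime := ⟨hq2⟩
  let _ : Algebra (ZMod q) K := ZMod.algebra K q
  have h1 := FiniteField.pow_finrank_eq_natCard q K
  have h2 : q = p := by
    have h3 : q ∣ p ^ n := by
      rw [← h, ← h1, ← pow_mul]
      refine dvd_pow_self q ?_
      have h4 : 0 < Module.finrank (ZMod q) K := Module.finrank_pos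
      positivity
    exact (Nat.prime_dvd_prime_iff_eq hq2 hp.out).1 (hq2.dvd_of_dvd_pow h3)
  subst h2
  have h3 : Module.finrank (ZMod q) K * (e + 1) = n := by
    rw [← h1, ← pow_mul] at h
    exact Nat.pow_right_injective hq2.two_le h
  exact ⟨_, card_ringHom q n hn h1.symm ⟨_, h3.symm⟩, h3⟩

end field

section ring

variable {A : Type} [CommRing A]

/-- Homomorphisms with a given maximal ideal as kernel. -/
noncomputable def kerEquiv {F : Type} [Field F] (m : Ideal A) [hm : m.IsMaximal] :
    {f : A →+* F // RingHom.ker f = m} ≃ (A ⧸ m →+* F) where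
  toFun f := Ideal.Quotient.lift m f.1 fun a ha => by
    have h := f.2
    rw [← h] at ha
    exact ha
  invFun g := ⟨g.comp (Ideal.Quotient.mk m), by
    let _ := Ideal.Quotient.field m
    ext a
    rw [RingHom.mem_ker, RingHom.comp_apply, map_eq_zero_iff g g.injective,
      Ideal.Quotient.eq_zero_iff_mem]⟩
  left_inv f := by
    apply Subtype.ext
    ext a
    rfl
  right_inv g := by
    apply Ideal.Quotient.ringHom_ext
    ext a
    rfl

/-- The kernel of a homomorphism to a finite field is maximal. -/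
lemma ker_maximal {F : Type} [Field F] [Finite F] (f : A →+* F) : (RingHom.ker f).IsMaximal := by
  have h1 : (RingHom.ker f).IsPrime := RingHom.ker_isPrime f
  have h2 : Finite (A ⧸ RingHom.ker f) := Finite.of_injective _ (RingHom.kerLift_injective f)
  exact Ideal.Quotient.maximal_of_isField _ (Finite.isField_of_domain _)

/-- The order of the residue field of the kernel. -/
lemma exists_pow_ker {F : Type} [Field F] [Finite F] (f : A →+* F) :
    ∃ e : ℕ, Nat.card (A ⧸ RingHom.ker f) ^ (e + 1) = Nat.card F := by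
  have h1 := ker_maximal f
  let _ := Ideal.Quotient.field (RingHom.ker f)
  let _ : Algebra (A ⧸ RingHom.ker f) F := (RingHom.kerLift f).toAlgebra
  have h2 : Module.Finite (A ⧸ RingHom.ker f) F := Module.Finite.of_finite
  have h3 : 0 < Module.finrank (A ⧸ RingHom.ker f) F := Module.finrank_pos
  obtain ⟨e, he⟩ := Nat.exists_eq_succ_of_ne_zero h3.ne'
  refine ⟨e, ?_⟩
  have h4 := Module.natCard_eq_pow_finrank (K := A ⧸ RingHom.ker f) (V := F)
  rw [h4, he]

variable (S : Set (Ideal A))

/-- The residue fields of the maximal ideals in `S` are finite. -/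
structure IsFin : Prop where
  maximal : ∀ m ∈ S, m.IsMaximal
  finite : ∀ m ∈ S, Finite (A ⧸ m)

/-- The norms of the ideals. -/
noncomputable def idN (m : S) : ℕ := Nat.card (A ⧸ m.1)

/-- The homomorphisms to the field `F` with kernel in `S`. -/
abbrev Pts (F : Type) [Field F] : Type := {f : A →+* F // RingHom.ker f ∈ S}

variable {S}

lemma IsFin.two (hS : IsFin S) (m : S) : 2 ≤ idN S m := by
  have := hS.maximal m.1 m.2
  have := hS.finite m.1 m.2
  let _ := Ideal.Quotient.field m.1
  exact Finite.one_lt_card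

variable (p n : ℕ) [hp : Fact p.Prime]

/-- From pairs of a maximal ideal and a homomorphism to homomorphisms. -/
noncomputable def ptsEquiv (hS : IsFin S) (hn : n ≠ 0) :
    (Σ b : (nm (idN S)) ⁻¹' {p ^ n}, {f : A →+* GaloisField p n // RingHom.ker f = b.1.1.1}) ≃
      Pts S (GaloisField p n) :=
  Equiv.ofBijective (fun x => ⟨x.2.1, by rw [x.2.2]; exact x.1.1.1.2⟩) (by
    constructor
    · rintro ⟨⟨⟨⟨m, hm⟩, e⟩, hb⟩, ⟨f, hf⟩⟩ ⟨⟨⟨⟨m', hm'⟩, e'⟩, hb'⟩, ⟨f', hf'⟩⟩ h
      have h1 : f = f' := congrArg Subtype.val h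
      change RingHom.ker f = m at hf
      change RingHom.ker f' = m' at hf'
      subst hf
      subst h1
      subst hf'
      have h2 : e = e' := by
        have h3 : idN S ⟨_, hm⟩ ^ (e + 1) = idN S ⟨_, hm⟩ ^ (e' + 1) := hb.trans hb'.symm
        have h4 := Nat.pow_right_injective (hS.two ⟨_, hm⟩) h3
        omega
      subst h2
      rfl
    · rintro ⟨f, hf⟩
      obtain ⟨e, he⟩ := exists_pow_ker f
      rw [GaloisField.card p n hn] at he
      exact ⟨⟨⟨(⟨RingHom.ker f, hf⟩, e), he⟩, ⟨f, rfl⟩⟩, rfl⟩)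

/-- **The coefficients of the Euler product count points.** -/
theorem mul_co (hS : IsFin S) (hn : n ≠ 0) [Finite (A →+* GaloisField p n)] :
    (n : ℂ) * co (idN S) (p ^ n) = Nat.card (Pts S (GaloisField p n)) := by
  have hfin : Finite (Pts S (GaloisField p n)) := inferInstance
  have hfin2 : Finite (Σ b : (nm (idN S)) ⁻¹' {p ^ n},
      {f : A →+* GaloisField p n // RingHom.ker f = b.1.1.1}) :=
    Finite.of_equiv _ (ptsEquiv p n hS hn).symm
  have hcard : ∀ b : (nm (idN S)) ⁻¹' {p ^ n},
      ∃ d, Nat.card {f : A →+* GaloisField p n // RingHom.ker f = b.1.1.1} = d ∧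
        d * (b.1.2 + 1) = n := by
    intro b
    have := hS.maximal b.1.1.1 b.1.1.2
    have := hS.finite b.1.1.1 b.1.1.2
    let _ := Ideal.Quotient.field b.1.1.1
    rw [Nat.card_congr (kerEquiv b.1.1.1)]
    exact card_ringHom_of_pow p n hn b.2
  have hsurj : Function.Surjective (Sigma.fst : (Σ b : (nm (idN S)) ⁻¹' {p ^ n},
      {f : A →+* GaloisField p n // RingHom.ker f = b.1.1.1}) → _) := by
    intro b
    obtain ⟨d, hd1, hd2⟩ := hcard b
    have hd3 : 0 < d := by
      rcases Nat.eq_zero_or_pos d with h | h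
      · rw [h, zero_mul] at hd2
        exact absurd hd2.symm hn
      · exact h
    rw [← hd1] at hd3
    obtain ⟨f⟩ := (Nat.card_pos_iff.1 hd3).1
    exact ⟨⟨b, f⟩, rfl⟩
  have hfin3 : Finite ((nm (idN S)) ⁻¹' {p ^ n}) := Finite.of_surjective _ hsurj
  have hfin4 : ∀ b : (nm (idN S)) ⁻¹' {p ^ n},
      Finite {f : A →+* GaloisField p n // RingHom.ker f = b.1.1.1} := fun b => inferInstance
  have := Fintype.ofFinite ((nm (idN S)) ⁻¹' {p ^ n})
  rw [← Nat.card_congr (ptsEquiv p n hS hn), Nat.card_sigma, co, tsum_fintype, Finset.mul_sum]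
  push_cast
  apply Finset.sum_congr rfl
  intro b _
  obtain ⟨d, hd1, hd2⟩ := hcard b
  rw [hd1, wt]
  have h1 : ((b.1.2 : ℂ) + 1) ≠ 0 := by exact_mod_cast (by omega : b.1.2 + 1 ≠ 0)
  have h2 := congrArg (Nat.cast : ℕ → ℂ) hd2
  push_cast at h2
  rw [← h2]
  field_simp

omit hp in
/-- The other coefficients are zero. -/
lemma co_eq_zero (hS : IsFin S) {k : ℕ} (hk : ¬ ∃ p n : ℕ, p.Prime ∧ n ≠ 0 ∧ k = p ^ n) :
    co (idN S) k = 0 := by
  rw [co]
  have h4 : IsEmpty ((nm (idN S)) ⁻¹' {k}) := by
    constructor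
    rintro ⟨⟨m, e⟩, hj⟩
    have := hS.maximal m.1 m.2
    have := hS.finite m.1 m.2
    let _ := Ideal.Quotient.field m.1
    have h5 : idN S m ^ (e + 1) = k := hj
    obtain ⟨q, hq⟩ := CharP.exists (A ⧸ m.1)
    have hq2 : q.Prime := by
      rcases CharP.char_is_prime_or_zero (A ⧸ m.1) q with h2 | h2
      · exact h2
      · rw [h2] at hq
        have := CharP.charP_to_charZero (A ⧸ m.1)
        exact absurd (inferInstance : Infinite (A ⧸ m.1)) (by
          rw [not_infinite_iff_finite]
          infer_instance)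
    have : Fact q.Prime := ⟨hq2⟩
    let _ : Algebra (ZMod q) (A ⧸ m.1) := ZMod.algebra _ q
    have h1 := FiniteField.pow_finrank_eq_natCard q (A ⧸ m.1)
    apply hk
    refine ⟨q, Module.finrank (ZMod q) (A ⧸ m.1) * (e + 1), hq2, ?_, ?_⟩
    · have h4 : 0 < Module.finrank (ZMod q) (A ⧸ m.1) := Module.finrank_pos
      positivity
    · rw [← h5, pow_mul, h1]
      rfl
  exact tsum_empty

end ring

/-- Comparison of the coefficients by counting points. -/
theorem co_compare {A B : Type} [CommRing A] [CommRing B] {S : Set (Ideal A)} {T : Set (Ideal B)}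
    (hS : IsFin S) (hT : IsFin T)
    (hA : ∀ (p n : ℕ) [Fact p.Prime], Finite (A →+* GaloisField p n))
    (hB : ∀ (p n : ℕ) [Fact p.Prime], Finite (B →+* GaloisField p n)) (c : ℕ → ℂ)
    (h : ∀ (p n : ℕ) [Fact p.Prime], n ≠ 0 → (Nat.card (Pts T (GaloisField p n)) : ℂ) =
      c (p ^ n) * Nat.card (Pts S (GaloisField p n))) (k : ℕ) :
    co (idN T) k = c k * co (idN S) k := by
  by_cases hk : ∃ p n : ℕ, p.Prime ∧ n ≠ 0 ∧ k = p ^ n
  · obtain ⟨p, n, hp, hn, rfl⟩ := hk
    have : Fact p.Prime := ⟨hp⟩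
    have := hA p n
    have := hB p n
    have h1 := h p n hn
    rw [← mul_co p n hS hn, ← mul_co p n hT hn] at h1
    have h2 : (n : ℂ) ≠ 0 := by exact_mod_cast hn
    apply mul_left_cancel₀ h2
    rw [h1]
    ring
  · rw [co_eq_zero hS hk, co_eq_zero hT hk, mul_zero]

end Q54.ZE
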