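import Pool.Agent.Q54.ZE.Pts

/-!
# Hasse-Weil L-functions and zeta functions of schemes
-/

set_option autoImplicit false

namespace Q54.ZE

open CategoryTheory AlgebraicGeometry Topology Pool.Agent.Y116.UV Complex

/-- The ring of integers with `N` inverted. -/
abbrev ZN (N : ℕ) : Type := Localization.Away (N : ℤ)

/-- The affine space of dimension `t` over `ℤ[1/N]`. -/
noncomputable def spN (N t : ℕ) : Sch ℤ := aff ℤ (MvPolynomial (Fin t) (ZN N))

lemma ft_spN (N t : ℕ) : FT False (spN N t) := by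
  have h1 : Algebra.FiniteType ℤ (ZN N) := inferInstance
  have h2 : Algebra.FiniteType ℤ (MvPolynomial (Fin t) (ZN N)) :=
    Algebra.FiniteType.trans (S := ZN N) inferInstance inferInstance
  exact ft_aff False

section count

variable {p : ℕ} {K : Type} [Field K] [CharP K p]

lemma isEmpty_hom {N : ℕ} (h : p ∣ N) : IsEmpty (ZN N →+* K) := by
  constructor
  intro f
  have h1 : IsUnit (f (algebraMap ℤ (ZN N) (N : ℤ))) :=
    (IsLocalization.map_units (M := Submonoid.powers (N : ℤ)) (ZN N)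
      ⟨_, Submonoid.mem_powers _⟩).map f
  have h2 : f (algebraMap ℤ (ZN N) (N : ℤ)) = ((N : ℕ) : K) := by
    rw [map_natCast, map_natCast]
  rw [h2, (CharP.cast_eq_zero_iff K p N).2 h] at h1
  exact not_isUnit_zero h1

lemma card_hom_one {N : ℕ} (h : ¬ p ∣ N) : Nat.card (ZN N →+* K) = 1 := by
  rw [Nat.card_eq_one_iff_unique]
  have h0 : ((N : ℕ) : K) ≠ 0 := fun h1 => h ((CharP.cast_eq_zero_iff K p N).1 h1)
  refine ⟨⟨fun f g => ?_⟩, ⟨?_⟩⟩
  · apply IsLocalization.ringHom_ext (Submonoid.powers (N : ℤ))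
    exact Subsingleton.elim _ _
  · exact IsLocalization.Away.lift (N : ℤ) (g := Int.castRingHom K) (by
      rw [map_natCast]
      exact isUnit_iff_ne_zero.2 h0)

end count

/-- Points of affine schemes. -/
noncomputable def specHom (K A : Type) [CommRing K] [CommRing A] :
    (Spec (CommRingCat.of K) ⟶ Spec (CommRingCat.of A)) ≃ (A →+* K) where
  toFun f := (Spec.preimage f).hom
  invFun g := Spec.map (CommRingCat.ofHom g)
  left_inv f := by
    change Spec.map (CommRingCat.ofHom (Spec.preimage f).hom) = f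
    rw [CommRingCat.ofHom_hom, Spec.map_preimage]
  right_inv g := by
    change (Spec.preimage (Spec.map (CommRingCat.ofHom g))).hom = g
    rw [Spec.preimage_map]
    rfl

lemma ptCount_spN (N t : ℕ) (x : Nat.Primes × ℕ) :
    ptCount (spN N t).left x = if x.1.1 ∣ N then 0 else x.1.1 ^ ((x.2 + 1) * t) := by
  have : Fact x.1.1.Prime := ⟨x.1.2⟩
  let K := GaloisField x.1.1 (x.2 + 1)
  have h1 : ptCount (spN N t).left x = Nat.card (MvPolynomial (Fin t) (ZN N) →+* K) :=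
    Nat.card_congr (specHom K (MvPolynomial (Fin t) (ZN N)))
  rw [h1, Nat.card_congr (polyHom (ZN N) (Fin t)), Nat.card_prod, Nat.card_fun, Nat.card_fin,
    GaloisField.card x.1.1 (x.2 + 1) (Nat.succ_ne_zero _)]
  split_ifs with h
  · have := isEmpty_hom (K := K) h
    rw [Nat.card_of_isEmpty, zero_mul]
  · rw [card_hom_one (K := K) h, one_mul, ← pow_mul]

/-- A scheme over `ℤ[1/N]` has no points in the characteristics dividing `N`. -/
lemma ptCount_bad {N : ℕ} {X : Scheme.{0}} (f : X ⟶ Spec (CommRingCat.of (ZN N)))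
    (x : Nat.Primes × ℕ) (h : x.1.1 ∣ N) : ptCount X x = 0 := by
  have : Fact x.1.1.Prime := ⟨x.1.2⟩
  let K := GaloisField x.1.1 (x.2 + 1)
  have h1 : IsEmpty (Spec (CommRingCat.of K) ⟶ X) := by
    constructor
    intro g
    exact (isEmpty_hom (K := K) h).false (specHom K (ZN N) (g ≫ f))
  exact Nat.card_of_isEmpty

lemma NoDiv.zpow {S : Set ℂ} {F : ℂ → ℂ} (hF : NoDiv S F) (n : ℤ) : NoDiv S (F ^ n) where
  mero := hF.mero.zpow n
  order s hs := by
    rw [meromorphicOrderAt_zpow (hF.mero s trivial), hF.order s hs, mul_zero]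

lemma NoDiv.prod {S : Set ℂ} {r : ℕ} {F : Fin r → ℂ → ℂ} (hF : ∀ l, NoDiv S (F l)) :
    NoDiv S (∏ l, F l) where
  mero s _ := MeromorphicAt.prod fun l _ => (hF l).mero s trivial
  order s hs := by
    rw [meromorphicOrderAt_prod fun l _ => (hF l).mero s trivial]
    exact Finset.sum_eq_zero fun l _ => (hF l).order s hs

/-- The Euler product of the polynomials `∏_k (1 - α_{p,k} T)` for the primes not dividing `N`. -/
noncomputable def hasseWeil (N : ℕ) {b : ℕ} (α : Nat.Primes → Fin b → ℂ) (s : ℂ) : ℂ :=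
  ∏' p : {p : Nat.Primes // ¬ p.1 ∣ N}, ∏ k, (1 - α p.1 k * (p.1.1 : ℂ) ^ (-s))⁻¹

/-- The term of the logarithm. -/
noncomputable def lterm {b : ℕ} (α : Nat.Primes → Fin b → ℂ) (s : ℂ) (x : Nat.Primes × ℕ) : ℂ :=
  (∑ k, α x.1 k ^ (x.2 + 1)) / ((x.2 : ℂ) + 1) * ((x.1.1 : ℂ) ^ (-(((x.2 : ℂ) + 1) * s)))

lemma norm_lt {b : ℕ} {α : Nat.Primes → Fin b → ℂ} {w : ℝ}
    (hw : ∀ p k, ‖α p k‖ ≤ (p.1 : ℝ) ^ w) {s : ℂ} (hs : w < s.re) (p : Nat.Primes) (k : Fin b) :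
    ‖α p k * (p.1 : ℂ) ^ (-s)‖ < 1 := by
  have hp := p.2.one_lt
  have hp0 : (0 : ℝ) < p.1 := by exact_mod_cast p.2.pos
  rw [norm_mul, norm_natCast_cpow_of_pos p.2.pos, neg_re]
  calc ‖α p k‖ * (p.1 : ℝ) ^ (-s.re) ≤ (p.1 : ℝ) ^ w * (p.1 : ℝ) ^ (-s.re) := by
        gcongr
        exact hw p k
    _ = (p.1 : ℝ) ^ (w + -s.re) := (Real.rpow_add hp0 _ _).symm
    _ < 1 := Real.rpow_lt_one_of_one_lt_of_neg (by exact_mod_cast hp) (by linarith)

lemma hasSum_local {b : ℕ} {α : Nat.Primes → Fin b → ℂ} {w : ℝ}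
    (hw : ∀ p k, ‖α p k‖ ≤ (p.1 : ℝ) ^ w) {s : ℂ} (hs : w < s.re) (p : Nat.Primes) :
    HasSum (fun n : ℕ => lterm α s (p, n)) (∑ k, -log (1 - α p k * (p.1 : ℂ) ^ (-s))) := by
  have h1 : ∀ k ∈ (Finset.univ : Finset (Fin b)), HasSum
      (fun n : ℕ => (α p k * (p.1 : ℂ) ^ (-s)) ^ (n + 1) / ((n : ℂ) + 1))
      (-log (1 - α p k * (p.1 : ℂ) ^ (-s))) :=
    fun k _ => hasSum_taylorSeries_neg_log' (norm_lt hw hs p k)
  refine (hasSum_sum h1).congr_fun ?_
  intro n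
  change (∑ k, α p k ^ (n + 1)) / ((n : ℂ) + 1) * ((p.1 : ℂ) ^ (-(((n : ℂ) + 1) * s))) = _
  have h6 : -(((n : ℂ) + 1) * s) = ((n + 1 : ℕ) : ℂ) * (-s) := by
    push_cast
    ring
  rw [h6, Complex.cpow_nat_mul, Finset.sum_div, Finset.sum_mul]
  apply Finset.sum_congr rfl
  intro k _
  rw [mul_pow]
  ring

lemma exp_local {b : ℕ} {α : Nat.Primes → Fin b → ℂ} {w : ℝ}
    (hw : ∀ p k, ‖α p k‖ ≤ (p.1 : ℝ) ^ w) {s : ℂ} (hs : w < s.re) (p : Nat.Primes) :
    exp (∑ k, -log (1 - α p k * (p.1 : ℂ) ^ (-s))) =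
      ∏ k, (1 - α p k * (p.1 : ℂ) ^ (-s))⁻¹ := by
  rw [Complex.exp_sum]
  apply Finset.prod_congr rfl
  intro k _
  rw [Complex.exp_neg, Complex.exp_log]
  intro h
  have h1 := norm_lt hw hs p k
  rw [← sub_eq_zero.1 h, norm_one] at h1
  exact lt_irrefl _ h1

/-- The L-function is the exponential of the sum of its terms. -/
theorem hasseWeil_eq {N b : ℕ} {α : Nat.Primes → Fin b → ℂ} {w : ℝ}
    (hw : ∀ p k, ‖α p k‖ ≤ (p.1 : ℝ) ^ w) {s V : ℂ} (hs : w < s.re)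
    (h : HasSum (fun x : Nat.Primes × ℕ => if x.1.1 ∣ N then 0 else lterm α s x) V) :
    hasseWeil N α s = exp V := by
  let ι : {p : Nat.Primes // ¬ p.1 ∣ N} × ℕ → Nat.Primes × ℕ := fun y => (y.1.1, y.2)
  have hι : Function.Injective ι := by
    rintro ⟨⟨p, hp⟩, n⟩ ⟨⟨q, hq⟩, m⟩ h
    have h1 := (Prod.mk.inj h).1
    have h2 := (Prod.mk.inj h).2
    change p = q at h1
    change n = m at h2
    subst h1
    subst h2
    rfl
  have h1 : ∀ x ∉ Set.range ι, (if x.1.1 ∣ N then 0 else lterm α s x) = 0 := by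
    intro x hx
    rw [if_pos]
    by_contra h2
    exact hx ⟨(⟨x.1, h2⟩, x.2), rfl⟩
  rw [← hι.hasSum_iff h1] at h
  have h2 : HasSum (fun p : {p : Nat.Primes // ¬ p.1 ∣ N} =>
      ∑ k, -log (1 - α p.1 k * (p.1.1 : ℂ) ^ (-s))) V := by
    refine h.prod_fiberwise fun p => ?_
    refine (hasSum_local hw hs p.1).congr_fun ?_
    intro n
    exact if_neg p.2
  have h3 := h2.cexp
  have h4 : (exp ∘ fun p : {p : Nat.Primes // ¬ p.1 ∣ N} =>
      ∑ k, -log (1 - α p.1 k * (p.1.1 : ℂ) ^ (-s))) =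
      fun p : {p : Nat.Primes // ¬ p.1 ∣ N} => ∏ k, (1 - α p.1 k * (p.1.1 : ℂ) ^ (-s))⁻¹ := by
    funext p
    exact exp_local hw hs p.1
  rw [h4] at h3
  exact h3.tprod_eq

/-- **Hasse-Weil L-functions of schemes with one interesting cohomology group.** -/
theorem hasseWeil_noDiv {S : Set ℂ} (hall : ∀ X : Sch ℤ, FT False X → ZMer S X) {N : ℕ}
    {X : Scheme.{0}} (f : X ⟶ Spec (CommRingCat.of (ZN N))) (hf : LocallyOfFiniteType f)
    (hq : QuasiCompact f) {b r : ℕ} {α : Nat.Primes → Fin b → ℂ} {w : ℝ}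
    (hw : ∀ p k, ‖α p k‖ ≤ (p.1 : ℝ) ^ w) (c : Fin r → ℤ) (t : Fin r → ℕ) {ε : ℤ}
    (hε : ε * ε = 1) (hcount : ∀ x : Nat.Primes × ℕ, ¬ x.1.1 ∣ N → (ptCount X x : ℂ) =
      ∑ l, (c l : ℂ) * (x.1.1 : ℂ) ^ ((x.2 + 1) * t l) + ε * ∑ k, α x.1 k ^ (x.2 + 1)) :
    ∃ F : ℂ → ℂ, NoDiv S F ∧ ∃ τ : ℝ, ∀ s : ℂ, τ < s.re → F s = hasseWeil N α s := by
  let Y : Sch ℤ := Over.mk (f ≫ Spec.map (CommRingCat.ofHom (algebraMap ℤ (ZN N))))
  have hY : FT False Y := by
    have h1 : FT False (aff ℤ (ZN N)) := ft_aff False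
    have h2 := h1.locallyOfFiniteType
    have h3 := h1.quasiCompact
    change LocallyOfFiniteType (Spec.map (CommRingCat.ofHom (algebraMap ℤ (ZN N)))) at h2
    change QuasiCompact (Spec.map (CommRingCat.ofHom (algebraMap ℤ (ZN N)))) at h3
    exact ⟨inferInstanceAs (LocallyOfFiniteType (f ≫ _)),
      inferInstanceAs (QuasiCompact (f ≫ _)), fun h => h.elim⟩
  obtain ⟨σ, hσ⟩ := zgood Y hY
  have hmY := hall Y hY
  have hsp : ∀ l : Fin r, ∃ σ, Good (nrm (spN N (t l)).left) σ := fun l =>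
    zgood _ (ft_spN N (t l))
  choose σ' hσ' using hsp
  have hmS : ∀ l : Fin r, Mer S (nrm (spN N (t l)).left) := fun l => hall _ (ft_spN N (t l))
  obtain ⟨G, hG, τ, hGτ⟩ := (mer_iff hσ).1 hmY
  have h1 : ∀ l : Fin r, ∃ F : ℂ → ℂ, NoDiv S F ∧ ∃ τ : ℝ, ∀ s : ℂ, τ < s.re →
      F s = exp (lg (nrm (spN N (t l)).left) s) := fun l => (mer_iff (hσ' l)).1 (hmS l)
  choose F hF τ' hFτ using h1
  let M : ℝ := ∑ l, (|σ' l| + |τ' l|)
  have hM : ∀ l, σ' l ≤ M ∧ τ' l ≤ M := by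
    intro l
    have h2 : |σ' l| + |τ' l| ≤ M :=
      Finset.single_le_sum (f := fun l => |σ' l| + |τ' l|) (fun l _ => by positivity)
        (Finset.mem_univ l)
    have h3 := le_abs_self (σ' l)
    have h4 := le_abs_self (τ' l)
    have h5 := abs_nonneg (σ' l)
    have h6 := abs_nonneg (τ' l)
    constructor <;> linarith
  refine ⟨(G / ∏ l, F l ^ c l) ^ ε, (hG.div (NoDiv.prod fun l => (hF l).zpow (c l))).zpow ε,
    max (max σ τ) (max M w), fun s hs => ?_⟩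
  rw [max_lt_iff, max_lt_iff, max_lt_iff] at hs
  obtain ⟨⟨hs1, hs2⟩, hs3, hs4⟩ := hs
  let V : ℂ := ε * (lg (nrm Y.left) s - ∑ l, (c l : ℂ) * lg (nrm (spN N (t l)).left) s)
  have hV : HasSum (fun x : Nat.Primes × ℕ => if x.1.1 ∣ N then 0 else lterm α s x) V := by
    have h2 := hasSum_scheme hY hσ (s := s) hs1.le
    have h3 : ∀ l ∈ (Finset.univ : Finset (Fin r)), HasSum (fun x : Nat.Primes × ℕ => (c l : ℂ) *
        ((ptCount (spN N (t l)).left x : ℂ) / ((x.2 : ℂ) + 1) *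
          ((x.1.1 : ℂ) ^ (-(((x.2 : ℂ) + 1) * s)))))
        ((c l : ℂ) * lg (nrm (spN N (t l)).left) s) := fun l _ =>
      (hasSum_scheme (ft_spN N (t l)) (hσ' l) (s := s) ((hM l).1.trans hs3.le)).mul_left _
    have h4 := (h2.sub (hasSum_sum h3)).mul_left (ε : ℂ)
    refine h4.congr_fun ?_
    intro x
    have hε2 : (ε : ℂ) * ε = 1 := by exact_mod_cast hε
    have h5 : ∑ l, (c l : ℂ) * ((ptCount (spN N (t l)).left x : ℂ) / ((x.2 : ℂ) + 1) *
          ((x.1.1 : ℂ) ^ (-(((x.2 : ℂ) + 1) * s)))) =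
        (∑ l, (c l : ℂ) * (ptCount (spN N (t l)).left x : ℂ)) / ((x.2 : ℂ) + 1) *
          ((x.1.1 : ℂ) ^ (-(((x.2 : ℂ) + 1) * s))) := by
      rw [Finset.sum_div, Finset.sum_mul]
      apply Finset.sum_congr rfl
      intro l _
      ring
    have h6 : Y.left = X := rfl
    rw [h5, h6]
    by_cases hx : x.1.1 ∣ N
    · rw [if_pos hx, ptCount_bad f x hx]
      have h7 : ∑ l, (c l : ℂ) * (ptCount (spN N (t l)).left x : ℂ) = 0 := by
        apply Finset.sum_eq_zero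
        intro l _
        rw [ptCount_spN, if_pos hx, Nat.cast_zero, mul_zero]
      rw [h7]
      simp
    · rw [if_neg hx, hcount x hx]
      have h7 : ∑ l, (c l : ℂ) * (ptCount (spN N (t l)).left x : ℂ) =
          ∑ l, (c l : ℂ) * (x.1.1 : ℂ) ^ ((x.2 + 1) * t l) := by
        apply Finset.sum_congr rfl
        intro l _
        rw [ptCount_spN, if_neg hx]
        push_cast
        rfl
      rw [h7, lterm]
      linear_combination (-(∑ k, α x.1 k ^ (x.2 + 1)) / ((x.2 : ℂ) + 1) *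
        ((x.1.1 : ℂ) ^ (-(((x.2 : ℂ) + 1) * s)))) * hε2
  rw [hasseWeil_eq hw hs4 hV, Pi.pow_apply, Pi.div_apply, Finset.prod_apply, hGτ s hs2]
  have h2 : ∏ l, (F l ^ c l) s = exp (∑ l, (c l : ℂ) * lg (nrm (spN N (t l)).left) s) := by
    rw [Complex.exp_sum]
    apply Finset.prod_congr rfl
    intro l _
    rw [Pi.pow_apply, hFτ l s ((hM l).2.trans_lt hs3), ← Complex.exp_int_mul]
  rw [h2, ← Complex.exp_sub, ← Complex.exp_int_mul]

end Q54.ZE
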