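import Pool.Agent.Q54.ZE.Lfun
import Pool.Agent.Q54.ZE.Fib2

/-!
# Hasse-Weil L-functions and zeta functions of schemes with fibres of dimension at most `n`
-/

set_option autoImplicit false

namespace Q54.ZE

open CategoryTheory AlgebraicGeometry Topology Pool.Agent.Y116.UV Pool.Agent.Z125.UN Complex

/-- A scheme over `ℤ[1/N]` as a scheme over the integers. -/
noncomputable def baseZ {N : ℕ} {X : Scheme.{0}} (f : X ⟶ Spec (CommRingCat.of (ZN N))) : Sch ℤ :=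
  Over.mk (f ≫ Spec.map (CommRingCat.ofHom (algebraMap ℤ (ZN N))))

lemma ft_baseZ {N : ℕ} {X : Scheme.{0}} (f : X ⟶ Spec (CommRingCat.of (ZN N)))
    (hf : LocallyOfFiniteType f) (hq : QuasiCompact f) : FT False (baseZ f) := by
  have h1 : FT False (aff ℤ (ZN N)) := ft_aff False
  have h2 := h1.locallyOfFiniteType
  have h3 := h1.quasiCompact
  change LocallyOfFiniteType (Spec.map (CommRingCat.ofHom (algebraMap ℤ (ZN N)))) at h2
  change QuasiCompact (Spec.map (CommRingCat.ofHom (algebraMap ℤ (ZN N)))) at h3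
  exact ⟨inferInstanceAs (LocallyOfFiniteType (f ≫ _)),
    inferInstanceAs (QuasiCompact (f ≫ _)), fun h => h.elim⟩

/-- **Hasse-Weil L-functions of schemes with one interesting cohomology group.** -/
theorem hasseWeil_gen {S : Set ℂ} (hS : Tr S) {N : ℕ}
    {X : Scheme.{0}} (f : X ⟶ Spec (CommRingCat.of (ZN N))) (hf : LocallyOfFiniteType f)
    (hq : QuasiCompact f) (hmY : ZMer S (baseZ f)) {b r : ℕ} {Y : Fin r → Scheme.{0}}
    (g : ∀ l, Y l ⟶ Spec (CommRingCat.of (ZN N))) (hg : ∀ l, LocallyOfFiniteType (g l))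
    (hgq : ∀ l, QuasiCompact (g l)) (hmg : ∀ l, ZMer S (baseZ (g l)))
    {α : Nat.Primes → Fin b → ℂ} {w : ℝ}
    (hw : ∀ p k, ‖α p k‖ ≤ (p.1 : ℝ) ^ w) (c : Fin r → ℤ) (t : Fin r → ℕ) {ε : ℤ}
    (hε : ε * ε = 1) (hcount : ∀ x : Nat.Primes × ℕ, ¬ x.1.1 ∣ N → (ptCount X x : ℂ) =
      ∑ l, (c l : ℂ) * (x.1.1 : ℂ) ^ ((x.2 + 1) * t l) * ptCount (Y l) x +
        ε * ∑ k, α x.1 k ^ (x.2 + 1)) :
    ∃ F : ℂ → ℂ, NoDiv S F ∧ ∃ τ : ℝ, ∀ s : ℂ, τ < s.re → F s = hasseWeil N α s := by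
  have hY : FT False (baseZ f) := ft_baseZ f hf hq
  have hYl : ∀ l, FT False (baseZ (g l)) := fun l => ft_baseZ (g l) (hg l) (hgq l)
  obtain ⟨σ, hσ⟩ := zgood _ hY
  have hsp : ∀ l : Fin r, ∃ σ, Good (nrm (baseZ (g l)).left) σ := fun l => zgood _ (hYl l)
  choose σ' hσ' using hsp
  obtain ⟨G, hG, τ, hGτ⟩ := (mer_iff hσ).1 hmY
  have h1 : ∀ l : Fin r, ∃ F : ℂ → ℂ, NoDiv S F ∧ ∃ τ : ℝ, ∀ s : ℂ, τ < s.re →
      F s = exp (lg (nrm (baseZ (g l)).left) s) := fun l => (mer_iff (hσ' l)).1 (hmg l)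
  choose F hF τ' hFτ using h1
  let M : ℝ := ∑ l, (|σ' l| + |τ' l| + t l)
  have hM : ∀ l, σ' l + t l ≤ M ∧ τ' l + t l ≤ M := by
    intro l
    have h2 : |σ' l| + |τ' l| + t l ≤ M :=
      Finset.single_le_sum (f := fun l => |σ' l| + |τ' l| + (t l : ℝ))
        (fun l _ => by positivity) (Finset.mem_univ l)
    have h3 := le_abs_self (σ' l)
    have h4 := le_abs_self (τ' l)
    have h5 := abs_nonneg (σ' l)
    have h6 := abs_nonneg (τ' l)
    constructor <;> linarith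
  refine ⟨(G / ∏ l, (fun s => F l (s - t l)) ^ c l) ^ ε,
    (hG.div (NoDiv.prod fun l => ((hF l).sub hS (t l)).zpow (c l))).zpow ε,
    max (max σ τ) (max M w), fun s hs => ?_⟩
  rw [max_lt_iff, max_lt_iff, max_lt_iff] at hs
  obtain ⟨⟨hs1, hs2⟩, hs3, hs4⟩ := hs
  have hre : ∀ l, (s - t l).re = s.re - t l := fun l => by simp
  let V : ℂ := ε * (lg (nrm (baseZ f).left) s -
    ∑ l, (c l : ℂ) * lg (nrm (baseZ (g l)).left) (s - t l))
  have hV : HasSum (fun x : Nat.Primes × ℕ => if x.1.1 ∣ N then 0 else lterm α s x) V := by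
    have h2 := hasSum_scheme hY hσ (s := s) hs1.le
    have h3 : ∀ l ∈ (Finset.univ : Finset (Fin r)), HasSum (fun x : Nat.Primes × ℕ => (c l : ℂ) *
        ((ptCount (Y l) x : ℂ) / ((x.2 : ℂ) + 1) *
          ((x.1.1 : ℂ) ^ (-(((x.2 : ℂ) + 1) * (s - t l))))))
        ((c l : ℂ) * lg (nrm (baseZ (g l)).left) (s - t l)) := fun l _ =>
      (hasSum_scheme (hYl l) (hσ' l) (s := s - t l) (by
        rw [hre]
        linarith [(hM l).1])).mul_left _
    have h4 := (h2.sub (hasSum_sum h3)).mul_left (ε : ℂ)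
    refine h4.congr_fun ?_
    intro x
    have hε2 : (ε : ℂ) * ε = 1 := by exact_mod_cast hε
    have hp0 : (x.1.1 : ℂ) ≠ 0 := by exact_mod_cast x.1.2.ne_zero
    have h5 : ∀ l, ((x.1.1 : ℂ) ^ (-(((x.2 : ℂ) + 1) * (s - t l)))) =
        (x.1.1 : ℂ) ^ ((x.2 + 1) * t l) * ((x.1.1 : ℂ) ^ (-(((x.2 : ℂ) + 1) * s))) := by
      intro l
      rw [← Complex.cpow_natCast, ← Complex.cpow_add _ _ hp0]
      congr 1
      push_cast
      ring
    have h5' : ∑ l, (c l : ℂ) * ((ptCount (Y l) x : ℂ) / ((x.2 : ℂ) + 1) *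
          ((x.1.1 : ℂ) ^ (-(((x.2 : ℂ) + 1) * (s - t l))))) =
        (∑ l, (c l : ℂ) * (x.1.1 : ℂ) ^ ((x.2 + 1) * t l) * ptCount (Y l) x) / ((x.2 : ℂ) + 1) *
          ((x.1.1 : ℂ) ^ (-(((x.2 : ℂ) + 1) * s))) := by
      rw [Finset.sum_div, Finset.sum_mul]
      apply Finset.sum_congr rfl
      intro l _
      rw [h5]
      ring
    have h6 : (baseZ f).left = X := rfl
    rw [h5', h6]
    by_cases hx : x.1.1 ∣ N
    · rw [if_pos hx, ptCount_bad f x hx]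
      have h7 : ∑ l, (c l : ℂ) * (x.1.1 : ℂ) ^ ((x.2 + 1) * t l) * (ptCount (Y l) x : ℂ) = 0 := by
        apply Finset.sum_eq_zero
        intro l _
        rw [ptCount_bad (g l) x hx, Nat.cast_zero, mul_zero]
      rw [h7]
      simp
    · rw [if_neg hx, hcount x hx, lterm]
      linear_combination (-(∑ k, α x.1 k ^ (x.2 + 1)) / ((x.2 : ℂ) + 1) *
        ((x.1.1 : ℂ) ^ (-(((x.2 : ℂ) + 1) * s)))) * hε2
  rw [hasseWeil_eq hw hs4 hV, Pi.pow_apply, Pi.div_apply, Finset.prod_apply, hGτ s hs2]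
  have h2 : ∏ l, ((fun s => F l (s - t l)) ^ c l) s =
      exp (∑ l, (c l : ℂ) * lg (nrm (baseZ (g l)).left) (s - t l)) := by
    rw [Complex.exp_sum]
    apply Finset.prod_congr rfl
    intro l _
    rw [Pi.pow_apply, hFτ l (s - t l) (by
      rw [hre]
      linarith [(hM l).2]), ← Complex.exp_int_mul]
  rw [h2, ← Complex.exp_sub, ← Complex.exp_int_mul]

/-- The fibres of the spectrum of `ℤ[1/N]`. -/
lemma fib_ZN (n N : ℕ) : FibLE n (Spec.map (CommRingCat.ofHom (algebraMap ℤ (ZN N)))) := by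
  rw [Subsingleton.elim (algebraMap ℤ (ZN N))
    (@algebraMap ℤ (ZN N) _ _ (Ring.toIntAlgebra (ZN N)))]
  refine fib_int n (ZN N) fun a => ?_
  obtain ⟨⟨b, ⟨_, j, rfl⟩⟩, hb⟩ := IsLocalization.surj (Submonoid.powers (N : ℤ)) a
  refine ⟨(N : ℤ) ^ j, b, ?_, ?_⟩
  · have h1 := (IsLocalization.Away.algebraMap_isUnit (S := ZN N) (N : ℤ)).pow j
    rw [eq_intCast] at h1
    push_cast at h1 ⊢
    exact h1
  · rw [mul_comm]
    rw [eq_intCast, eq_intCast] at hb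
    exact hb

end Q54.ZE
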