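import Pool.Agent.Q54.ZE.Ana

/-!
# Meromorphic continuation of Euler products
-/

set_option autoImplicit false

namespace Q54.ZE

open Complex

section

variable {I J K : Type} {N : I → ℕ} {N' : J → ℕ} {M : K → ℕ} {σ : ℝ}

/-- The meromorphic function `F` has neither zeros nor poles outside of `S`. -/
structure NoDiv (S : Set ℂ) (F : ℂ → ℂ) : Prop where
  mero : MeromorphicOn F Set.univ
  order : ∀ s ∉ S, meromorphicOrderAt F s = 0

/-- The Euler product has a meromorphic continuation to the plane, with zeros and poles in `S`. -/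
def Mer (S : Set ℂ) (N : I → ℕ) : Prop :=
  ∃ F : ℂ → ℂ, NoDiv S F ∧ ∃ σ : ℝ, ∀ s : ℂ, σ < s.re → F s = ∏' i, fac N s i

/-- `S` is invariant under translation by integers. -/
def Tr (S : Set ℂ) : Prop := ∀ s, s + 1 ∈ S ↔ s ∈ S

variable {S : Set ℂ}

lemma Tr.add (hS : Tr S) (s : ℂ) (n : ℕ) : s + n ∈ S ↔ s ∈ S := by
  induction n with
  | zero => rw [Nat.cast_zero, add_zero]
  | succ n ih =>
    rw [← ih, ← hS (s + n)]
    push_cast
    rw [add_assoc]

lemma Tr.sub (hS : Tr S) (s : ℂ) (n : ℕ) : s - n ∈ S ↔ s ∈ S := by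
  rw [← hS.add (s - n) n, sub_add_cancel]

lemma NoDiv.mul {F G : ℂ → ℂ} (hF : NoDiv S F) (hG : NoDiv S G) : NoDiv S (F * G) where
  mero := hF.mero.mul hG.mero
  order s hs := by
    rw [meromorphicOrderAt_mul (hF.mero s trivial) (hG.mero s trivial), hF.order s hs,
      hG.order s hs, add_zero]

lemma NoDiv.div {F G : ℂ → ℂ} (hF : NoDiv S F) (hG : NoDiv S G) : NoDiv S (F / G) where
  mero := hF.mero.div hG.mero
  order s hs := by
    rw [meromorphicOrderAt_div (hF.mero s trivial) (hG.mero s trivial), hF.order s hs,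
      hG.order s hs, sub_zero]

lemma NoDiv.sub {F : ℂ → ℂ} (hS : Tr S) (hF : NoDiv S F) (m : ℕ) :
    NoDiv S fun s => F (s - m) where
  mero s _ := MeromorphicAt.comp_analyticAt (f := F) (g := fun s => s - m)
    (hF.mero (s - m) trivial) (by fun_prop)
  order s hs := by
    rw [meromorphicOrderAt_fun_comp_sub_const_eq_meromorphicOrderAt]
    exact hF.order _ fun h => hs ((hS.sub s m).1 h)

lemma NoDiv.add {F : ℂ → ℂ} (hS : Tr S) (hF : NoDiv S F) (m : ℕ) :
    NoDiv S fun s => F (s + m) where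
  mero s _ := MeromorphicAt.comp_analyticAt (f := F) (g := fun s => s + m)
    (hF.mero (s + m) trivial) (by fun_prop)
  order s hs := by
    rw [meromorphicOrderAt_fun_comp_add_const_eq_meromorphicOrderAt]
    exact hF.order _ fun h => hs ((hS.add s m).1 h)

lemma mer_iff (h : Good N σ) : Mer S N ↔ ∃ F : ℂ → ℂ, NoDiv S F ∧
    ∃ τ : ℝ, ∀ s : ℂ, τ < s.re → F s = exp (lg N s) := by
  constructor
  · rintro ⟨F, hF, τ, h1⟩
    refine ⟨F, hF, max σ τ, fun s hs => ?_⟩
    rw [h1 s ((le_max_right _ _).trans_lt hs), tprod_fac h ((le_max_left _ _).trans hs.le)]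
  · rintro ⟨F, hF, τ, h1⟩
    refine ⟨F, hF, max σ τ, fun s hs => ?_⟩
    rw [h1 s ((le_max_right _ _).trans_lt hs), tprod_fac h ((le_max_left _ _).trans hs.le)]

lemma mer_of_equiv (e : I ≃ J) (he : ∀ i, N' (e i) = N i) (h : Mer S N) : Mer S N' := by
  obtain ⟨F, hF, τ, h1⟩ := h
  refine ⟨F, hF, τ, fun s hs => ?_⟩
  rw [h1 s hs, ← e.tprod_eq]
  apply tprod_congr
  intro i
  rw [fac, fac, he]

lemma good_of_inj (h : Good N σ) (e : J → I) (hi : Function.Injective e)
    (he : ∀ j, N (e j) = N' j) : Good N' σ where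
  pos := h.pos
  two j := by
    rw [← he]
    exact h.two _
  sum := by
    have h1 := h.sum.comp_injective hi
    refine h1.congr fun j => ?_
    rw [Function.comp_apply, he]

lemma good_sum (h : Good N σ) (h' : Good N' σ) : Good (Sum.elim N N') σ where
  pos := h.pos
  two := by
    rintro (i | j)
    · exact h.two i
    · exact h'.two j
  sum := Summable.sum _ h.sum h'.sum

lemma lg_sum (h : Good N σ) (h' : Good N' σ) {s : ℂ} (hs : σ ≤ s.re) :
    lg (Sum.elim N N') s = lg N s + lg N' s := by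
  have h1 := hasSum_log (good_sum h h') hs
  have h2 : HasSum (fun x => log (fac (Sum.elim N N') s x)) (lg N s + lg N' s) :=
    HasSum.sum (hasSum_log h hs) (hasSum_log h' hs)
  exact h1.unique h2

lemma lg_equiv (h : Good N σ) (h' : Good N' σ) (e : I ≃ J) (he : ∀ i, N' (e i) = N i) {s : ℂ}
    (hs : σ ≤ s.re) : lg N s = lg N' s := by
  have h1 := hasSum_log h hs
  have h2 := (e.hasSum_iff).2 (hasSum_log h' hs)
  have h3 : (fun j => log (fac N' s j)) ∘ e = fun i => log (fac N s i) := by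
    funext i
    rw [Function.comp_apply, fac, fac, he]
  rw [h3] at h2
  exact h1.unique h2

/-- The three logarithms of a decomposition. -/
structure Split (N : I → ℕ) (N' : J → ℕ) (M : K → ℕ) (σ : ℝ) : Prop where
  left : Good N σ
  right : Good N' σ
  all : Good M σ
  add : ∀ s : ℂ, σ ≤ s.re → lg M s = lg N s + lg N' s

lemma split_of_equiv (h : Good M σ) (e : I ⊕ J ≃ K) (h1 : ∀ i, M (e (Sum.inl i)) = N i)
    (h2 : ∀ j, M (e (Sum.inr j)) = N' j) : Split N N' M σ := by
  have hl : Good N σ := good_of_inj h (fun i => e (Sum.inl i))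
    (e.injective.comp Sum.inl_injective) h1
  have hr : Good N' σ := good_of_inj h (fun i => e (Sum.inr i))
    (e.injective.comp Sum.inr_injective) h2
  refine ⟨hl, hr, h, fun s hs => ?_⟩
  rw [← lg_sum hl hr hs]
  refine (lg_equiv (good_sum hl hr) h e ?_ hs).symm
  rintro (i | j)
  · exact h1 i
  · exact h2 j

lemma Split.mer_all (h : Split N N' M σ) (h1 : Mer S N) (h2 : Mer S N') : Mer S M := by
  rw [mer_iff h.left] at h1
  rw [mer_iff h.right] at h2
  rw [mer_iff h.all]
  obtain ⟨F, hF, τ, h3⟩ := h1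
  obtain ⟨G, hG, ρ, h4⟩ := h2
  refine ⟨F * G, hF.mul hG, max σ (max τ ρ), fun s hs => ?_⟩
  rw [max_lt_iff, max_lt_iff] at hs
  rw [Pi.mul_apply, h3 s hs.2.1, h4 s hs.2.2, h.add s hs.1.le, Complex.exp_add]

lemma Split.mer_left (h : Split N N' M σ) (h1 : Mer S M) (h2 : Mer S N') : Mer S N := by
  rw [mer_iff h.all] at h1
  rw [mer_iff h.right] at h2
  rw [mer_iff h.left]
  obtain ⟨F, hF, τ, h3⟩ := h1
  obtain ⟨G, hG, ρ, h4⟩ := h2
  refine ⟨F / G, hF.div hG, max σ (max τ ρ), fun s hs => ?_⟩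
  rw [max_lt_iff, max_lt_iff] at hs
  rw [Pi.div_apply, h3 s hs.2.1, h4 s hs.2.2, h.add s hs.1.le, Complex.exp_add,
    mul_div_cancel_right₀ _ (Complex.exp_ne_zero _)]

lemma Split.mer_right (h : Split N N' M σ) (h1 : Mer S M) (h2 : Mer S N) : Mer S N' := by
  rw [mer_iff h.all] at h1
  rw [mer_iff h.left] at h2
  rw [mer_iff h.right]
  obtain ⟨F, hF, τ, h3⟩ := h1
  obtain ⟨G, hG, ρ, h4⟩ := h2
  refine ⟨F / G, hF.div hG, max σ (max τ ρ), fun s hs => ?_⟩
  rw [max_lt_iff, max_lt_iff] at hs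
  rw [Pi.div_apply, h3 s hs.2.1, h4 s hs.2.2, h.add s hs.1.le, Complex.exp_add,
    mul_div_cancel_left₀ _ (Complex.exp_ne_zero _)]

/-- The shift of the variable. -/
lemma mer_shift (hS : Tr S) (h : Good N σ) (h' : Good N' σ) (m : ℕ)
    (hc : ∀ k, co N' k = (k : ℂ) ^ m * co N k) (h1 : Mer S N) : Mer S N' := by
  rw [mer_iff h] at h1
  rw [mer_iff h']
  obtain ⟨F, hF, τ, h3⟩ := h1
  refine ⟨fun s => F (s - m), hF.sub hS m, max (σ + m) (τ + m), fun s hs => ?_⟩
  rw [max_lt_iff] at hs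
  rw [lg_shift h h' m hc hs.1.le]
  apply h3
  rw [sub_re, Complex.natCast_re]
  linarith [hs.2]

/-- The shift of the variable. -/
lemma mer_unshift (hS : Tr S) (h : Good N σ) (h' : Good N' σ) (m : ℕ)
    (hc : ∀ k, co N' k = (k : ℂ) ^ m * co N k) (h1 : Mer S N') : Mer S N := by
  rw [mer_iff h'] at h1
  rw [mer_iff h]
  obtain ⟨F, hF, τ, h3⟩ := h1
  refine ⟨fun s => F (s + m), hF.add hS m, max σ τ, fun s hs => ?_⟩
  rw [max_lt_iff] at hs
  have h4 := lg_shift h h' m hc (s := s + m) (by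
    rw [add_re, Complex.natCast_re]
    linarith [hs.1])
  rw [add_sub_cancel_right] at h4
  rw [← h4]
  apply h3
  rw [add_re, Complex.natCast_re]
  have : (0 : ℝ) ≤ m := Nat.cast_nonneg m
  linarith [hs.2]

/-- The logarithm is holomorphic. -/
lemma analytic_lg (h : Good N σ) {s : ℂ} (hs : σ < s.re) :
    MeromorphicAt (fun z => exp (lg N z)) s ∧
      meromorphicOrderAt (fun z => exp (lg N z)) s = 0 := by
  have hterm : ∀ z : ℂ, (LSeries.term (co N) z) = fun k : ℕ => co N k * (k : ℂ) ^ (-z) := by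
    intro z
    funext k
    rw [LSeries.term_def₀ (co_zero h)]
  have hsum : ∀ z : ℂ, σ ≤ z.re → LSeriesHasSum (co N) z (lg N z) := by
    intro z hz
    unfold LSeriesHasSum
    rw [hterm z]
    exact hasSum_co h hz
  have h1 : LSeries.abscissaOfAbsConv (co N) < s.re := by
    have h2 : LSeriesSummable (co N) (σ : ℂ) := (hsum σ (by rw [ofReal_re])).LSeriesSummable
    have h3 := h2.abscissaOfAbsConv_le
    rw [ofReal_re] at h3
    exact h3.trans_lt (by exact_mod_cast hs)
  have h2 : AnalyticAt ℂ (fun z => exp (LSeries (co N) z)) s :=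
    (LSeries_analyticOnNhd (co N) s h1).cexp
  have h4 : (fun z => exp (LSeries (co N) z)) =ᶠ[nhdsWithin s {s}ᶜ] fun z => exp (lg N z) := by
    apply Filter.EventuallyEq.filter_mono _ nhdsWithin_le_nhds
    have h3 : {z : ℂ | σ < z.re} ∈ nhds s :=
      (isOpen_lt continuous_const continuous_re).mem_nhds hs
    filter_upwards [h3] with z hz
    rw [(hsum z (le_of_lt hz)).LSeries_eq]
  refine ⟨h2.meromorphicAt.congr h4, ?_⟩
  rw [← meromorphicOrderAt_congr h4, h2.meromorphicOrderAt_eq,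
    h2.analyticOrderAt_eq_zero.2 (Complex.exp_ne_zero _)]
  rfl

/-- The product with the multiplicative group. -/
theorem mer_torus (hS : Tr S) (h : Good N σ) (h' : Good N' σ)
    (hc : ∀ k, co N' k = ((k : ℂ) - 1) * co N k) (h1 : Mer S N') : Mer S N := by
  rw [mer_iff h'] at h1
  rw [mer_iff h]
  obtain ⟨G, hG, τ', hG2⟩ := h1
  let τ : ℝ := max τ' (σ + 1)
  have hτ : σ + 1 ≤ τ := le_max_right _ _
  let E : ℂ → ℂ := fun s => exp (lg N s)
  have hE : ∀ s : ℂ, τ < s.re → G s * E s = E (s - 1) := by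
    intro s hs
    rw [hG2 s ((le_max_left _ _).trans_lt hs), lg_torus h h' hc (hτ.trans hs.le)]
    change exp (lg N (s - 1) - lg N s) * exp (lg N s) = exp (lg N (s - 1))
    rw [← Complex.exp_add, sub_add_cancel]
  let F : ℕ → ℂ → ℂ := fun n s => E (s + n) * ∏ k ∈ Finset.range n, G (s + ((k : ℂ) + 1))
  have hF : ∀ (n : ℕ) (s : ℂ), τ < s.re + n + 1 → F (n + 1) s = F n s := by
    intro n s hs
    change E (s + ((n + 1 : ℕ) : ℂ)) * ∏ k ∈ Finset.range (n + 1), G (s + ((k : ℂ) + 1)) =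
      E (s + n) * ∏ k ∈ Finset.range n, G (s + ((k : ℂ) + 1))
    rw [Finset.prod_range_succ]
    have h2 := hE (s + ((n : ℂ) + 1)) (by
      rw [add_re, add_re, one_re, Complex.natCast_re]
      linarith)
    have h3 : s + ((n : ℂ) + 1) - 1 = s + n := by ring
    rw [h3] at h2
    push_cast
    rw [← h2]
    ring
  have hF2 : ∀ (n m : ℕ) (s : ℂ), n ≤ m → τ < s.re + n + 1 → F m s = F n s := by
    intro n m s hnm hs
    induction m, hnm using Nat.le_induction with
    | base => rfl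
    | succ m hm ih =>
      rw [hF m s, ih]
      have : (n : ℝ) ≤ m := by exact_mod_cast hm
      linarith
  let n : ℂ → ℕ := fun s => ⌈τ - s.re⌉₊ + 1
  have hn : ∀ s, τ < s.re + n s := by
    intro s
    have h2 := Nat.le_ceil (τ - s.re)
    change τ < s.re + ((⌈τ - s.re⌉₊ + 1 : ℕ) : ℝ)
    push_cast
    linarith
  have key : ∀ s₀ : ℂ, ∃ m, (fun s => F (n s) s) =ᶠ[nhdsWithin s₀ {s₀}ᶜ] F m ∧
      MeromorphicAt (F m) s₀ ∧ (s₀ ∉ S → meromorphicOrderAt (F m) s₀ = 0) := by
    intro s₀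
    let m := n s₀ + 1
    have h4 : (m : ℝ) = n s₀ + 1 := by
      change ((n s₀ + 1 : ℕ) : ℝ) = _
      push_cast
      rfl
    have hre : σ < (s₀ + m).re := by
      rw [add_re, Complex.natCast_re, h4]
      linarith [hn s₀]
    have h2 : MeromorphicAt (fun s => E (s + m)) s₀ :=
      MeromorphicAt.comp_analyticAt (f := E) (g := fun s => s + m) (analytic_lg h hre).1
        (by fun_prop)
    have h3 : ∀ k ∈ Finset.range m, MeromorphicAt (fun s => G (s + ((k : ℂ) + 1))) s₀ :=
      fun k _ => MeromorphicAt.comp_analyticAt (f := G) (g := fun s => s + ((k : ℂ) + 1))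
        (hG.mero _ trivial) (by fun_prop)
    have h5 : MeromorphicAt (fun s => ∏ k ∈ Finset.range m, G (s + ((k : ℂ) + 1))) s₀ :=
      MeromorphicAt.fun_prod h3
    refine ⟨m, ?_, h2.mul h5, ?_⟩
    · apply Filter.EventuallyEq.filter_mono _ nhdsWithin_le_nhds
      have h3 : {z : ℂ | s₀.re - 1 < z.re} ∈ nhds s₀ :=
        (isOpen_lt continuous_const continuous_re).mem_nhds (by
          change s₀.re - 1 < s₀.re
          linarith)
      filter_upwards [h3] with s hs
      have hs' : s₀.re - 1 < s.re := hs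
      have h4 : n s ≤ m := by
        have h5 : ⌈τ - s.re⌉₊ ≤ ⌈τ - s₀.re⌉₊ + 1 := by
          rw [Nat.ceil_le]
          push_cast
          have h6 := Nat.le_ceil (τ - s₀.re)
          linarith
        change ⌈τ - s.re⌉₊ + 1 ≤ ⌈τ - s₀.re⌉₊ + 1 + 1
        omega
      exact (hF2 (n s) m s h4 (by linarith [hn s])).symm
    · intro hs₀
      have h6 : meromorphicOrderAt (F m) s₀ = meromorphicOrderAt (fun s => E (s + m)) s₀ +
          meromorphicOrderAt (fun s => ∏ k ∈ Finset.range m, G (s + ((k : ℂ) + 1))) s₀ :=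
        meromorphicOrderAt_mul h2 h5
      rw [h6, meromorphicOrderAt_fun_prod h3, Finset.sum_eq_zero, add_zero,
        meromorphicOrderAt_fun_comp_add_const_eq_meromorphicOrderAt]
      · exact (analytic_lg h hre).2
      · intro k _
        rw [meromorphicOrderAt_fun_comp_add_const_eq_meromorphicOrderAt]
        apply hG.order
        intro h7
        have h8 : s₀ + ((k : ℂ) + 1) = s₀ + ((k + 1 : ℕ) : ℂ) := by
          push_cast
          rfl
        rw [h8] at h7
        exact hs₀ ((hS.add s₀ (k + 1)).1 h7)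
  refine ⟨fun s => F (n s) s, ⟨?_, ?_⟩, τ, ?_⟩
  · intro s₀ _
    obtain ⟨m, h2, h3, -⟩ := key s₀
    exact h3.congr h2.symm
  · intro s₀ hs₀
    obtain ⟨m, h2, -, h3⟩ := key s₀
    rw [meromorphicOrderAt_congr h2]
    exact h3 hs₀
  · intro s hs
    have h2 := hF2 0 (n s) s (Nat.zero_le _) (by
      rw [Nat.cast_zero]
      linarith)
    change F (n s) s = _
    rw [h2]
    change E (s + ((0 : ℕ) : ℂ)) * ∏ k ∈ Finset.range 0, G (s + ((k : ℂ) + 1)) = E s
    rw [Finset.prod_range_zero, mul_one, Nat.cast_zero, add_zero]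

end

end Q54.ZE
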