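import Pool.Agent.Q54.ZE.Fib2

/-!
# Zeta functions of trilinear hypersurfaces and linear systems of matrices
-/

set_option autoImplicit false

namespace Q54.ZE

open CategoryTheory AlgebraicGeometry Topology Pool.Agent.Y116.UV Pool.Agent.Z125.UN Q54.CU

variable {a b c : ℕ}

/-- The matrix `∑ z_k A_k` over the field `F`. -/
def combo (F : Type) [Field F] (A : Fin c → Matrix (Fin a) (Fin b) ℤ) (z : Fin c → F) :
    Matrix (Fin a) (Fin b) F :=
  Matrix.of fun i j => ∑ k, z k * (A k i j : F)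

/-- The pairs `(y, z)` of vectors over the field `F` such that `(∑ z_k A_k) y = 0`. -/
def KerPairs (F : Type) [Field F] (A : Fin c → Matrix (Fin a) (Fin b) ℤ) : Type :=
  {v : (Fin b → F) × (Fin c → F) // ∀ i, ∑ j, combo F A v.2 i j * v.1 j = 0}

/-- The number of pairs `(y, z)` of vectors over the field with `p ^ (n + 1)` elements such that
`(∑ z_k A_k) y = 0`. -/
noncomputable def netCount (A : Fin c → Matrix (Fin a) (Fin b) ℤ) (x : Nat.Primes × ℕ) : ℕ :=
  haveI : Fact x.1.1.Prime := ⟨x.1.2⟩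
  Nat.card (KerPairs (GaloisField x.1.1 (x.2 + 1)) A)

/-- The exponential of the Dirichlet series of the numbers `netCount`. -/
noncomputable def netZeta (A : Fin c → Matrix (Fin a) (Fin b) ℤ) (s : ℂ) : ℂ :=
  Complex.exp (∑' x : Nat.Primes × ℕ, (netCount A x : ℂ) / (x.2 + 1) *
    ((x.1.1 : ℂ) ^ (-(((x.2 : ℂ) + 1) * s))))

/-- The coefficients as a list of matrices. -/
def slices (T : Fin a → Fin b → Fin c → ℤ) (k : Fin c) : Matrix (Fin a) (Fin b) ℤ :=
  Matrix.of fun i j => T i j k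

/-- The ring of the bilinear equations. -/
abbrev NRing (T : Fin a → Fin b → Fin c → ℤ) : Type :=
  MvPolynomial (Fin b ⊕ Fin c) ℤ ⧸ Ideal.span (Set.range (bl T))

lemma aeval_slices {F : Type} [Field F] (T : Fin a → Fin b → Fin c → ℤ) (v : Fin b ⊕ Fin c → F)
    (i : Fin a) : MvPolynomial.aeval v (bl T i) =
      ∑ j, combo F (slices T) (fun k => v (Sum.inr k)) i j * v (Sum.inl j) := by
  rw [aeval_bl]
  apply Finset.sum_congr rfl
  intro j _
  congr 1
  apply Finset.sum_congr rfl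
  intro k _
  rw [mul_comm]
  rfl

/-- The homomorphisms are the solutions. -/
noncomputable def netEquiv {F : Type} [Field F] (T : Fin a → Fin b → Fin c → ℤ) :
    (NRing T →+* F) ≃ KerPairs F (slices T) :=
  (quotHom _).trans ((Equiv.sumArrowEquivProdArrow (Fin b) (Fin c) F).subtypeEquiv fun v => by
    constructor
    · intro h i
      have h1 := h _ ⟨i, rfl⟩
      rw [aeval_slices] at h1
      exact h1
    · rintro h _ ⟨i, rfl⟩
      rw [aeval_slices]
      exact h i)

lemma homCount_net (T : Fin a → Fin b → Fin c → ℤ) (x : Nat.Primes × ℕ) :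
    homCount (NRing T) x = netCount (slices T) x :=
  Nat.card_congr (netEquiv T)

lemma mer_net (S : Set ℂ) (T : Fin a → Fin b → Fin c → ℤ) : Mer S (idN (maxS (NRing T))) ↔
    ∃ F : ℂ → ℂ, NoDiv S F ∧ ∃ τ : ℝ, ∀ s : ℂ, τ < s.re → F s = netZeta (slices T) s := by
  rw [mer_points]
  unfold netZeta
  simp only [homCount_net]

/-- The zeta function of the hypersurface and the linear system of matrices. -/
theorem zmer_net {S : Set ℂ} (hS : Tr S) (hz : Mer S (idN (maxS ℤ)))
    (T : Fin a → Fin b → Fin c → ℤ) : ZMer S (hypS T) ↔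
    ∃ F : ℂ → ℂ, NoDiv S F ∧ ∃ τ : ℝ, ∀ s : ℂ, τ < s.re → F s = netZeta (slices T) s := by
  have hP := bnd_zmer hS hz
  have h2 : ZMer S (aff ℤ (Pc (bl T) 1)) ↔ ZMer S (aff ℤ (NRing T)) :=
    ⟨iso_alg hP.toUni (oneE (bl T)).symm, iso_alg hP.toUni (oneE (bl T))⟩
  have h1 : ZMer S (hypS T) ↔ ZMer S (aff ℤ (Hyp T)) := Iff.rfl
  rw [h1, hyp_bl_iff hP, h2, zmer_aff, mer_net]

lemma co_zero_net (k : ℕ) (T : Fin 0 → Fin 0 → Fin c → ℤ) : co (idN (maxS (NRing T))) k =
    (k : ℂ) ^ c * co (idN (maxS ℤ)) k := by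
  refine co_compare (isFin_maxS ℤ) (isFin_maxS (NRing T))
    (fun p m _ => finite_hom ℤ) (fun p m _ => finite_hom (NRing T))
    (fun k => (k : ℂ) ^ c) ?_ k
  intro p m _ hm
  have h3 : Nat.card (ℤ →+* GaloisField p m) = 1 :=
    Nat.card_eq_one_iff_unique.2 ⟨inferInstance, ⟨Int.castRingHom _⟩⟩
  let e : KerPairs (GaloisField p m) (slices T) ≃ (Fin c → GaloisField p m) :=
    { toFun := fun v => v.1.2
      invFun := fun v => ⟨(0, v), fun i => i.elim0⟩
      left_inv := fun v => Subtype.ext (Prod.ext (Subsingleton.elim _ _) rfl)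
      right_inv := fun _ => rfl }
  rw [Nat.card_congr (ptsMax ℤ), Nat.card_congr (ptsMax (NRing T)), Nat.card_congr (netEquiv T),
    Nat.card_congr e, h3, Nat.card_fun, Nat.card_fin, GaloisField.card p m hm]
  push_cast
  ring

/-- The zeta function of the integers is controlled by the zero matrices. -/
theorem mer_int_of_net {S : Set ℂ} (hS : Tr S) (c : ℕ)
    (h : ∃ F : ℂ → ℂ, NoDiv S F ∧ ∃ τ : ℝ, ∀ s : ℂ, τ < s.re →
      F s = netZeta (slices (fun (_ : Fin 0) (_ : Fin 0) (_ : Fin c) => 0)) s) :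
    Mer S (idN (maxS ℤ)) := by
  rw [← mer_net] at h
  obtain ⟨σ, g1, g2⟩ := exists_good2 (subset_rfl (a := maxS ℤ))
    (subset_rfl (a := maxS (NRing (fun (_ : Fin 0) (_ : Fin 0) (_ : Fin c) => 0))))
  exact mer_unshift hS g1 g2 c (fun k => co_zero_net k _) h

/-- **Schemes with fibres of dimension at most `n` and linear systems of matrices.** -/
theorem fib_net {S : Set ℂ} (hS : Tr S) (n : ℕ) :
    (∀ (a b : ℕ) (T : Fin a → Fin b → Fin (n + 2) → ℤ), ZMer S (hypS T)) ↔
      ∀ (a b : ℕ) (A : Fin (n + 2) → Matrix (Fin a) (Fin b) ℤ),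
        ∃ F : ℂ → ℂ, NoDiv S F ∧ ∃ τ : ℝ, ∀ s : ℂ, τ < s.re → F s = netZeta A s := by
  have h0 : ∀ (a b : ℕ) (A : Fin (n + 2) → Matrix (Fin a) (Fin b) ℤ),
      slices (fun i j k => A k i j) = A := fun a b A => rfl
  constructor
  · intro h a b A
    have hz := mer_int_of_t0 hS (h 1 1 (T0 n))
    have h1 := (zmer_net hS hz _).1 (h a b fun i j k => A k i j)
    rwa [h0] at h1
  · intro h a b T
    have hz := mer_int_of_net hS (n + 2) (h 0 0 _)
    exact (zmer_net hS hz T).2 (h a b _)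

end Q54.ZE
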