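import Pool.Agent.Q54.ZE.Zet3

/-!
# Points of schemes with values in finite fields
-/

set_option autoImplicit false

namespace Q54.ZE

open CategoryTheory AlgebraicGeometry Topology Pool.Agent.Y116.UV Complex

section generic

variable {I : Type} {N : I → ℕ} {σ : ℝ}

/-- Finitely many small norms. -/
lemma finite_le (h : Good N σ) (k : ℕ) : {i | N i ≤ k}.Finite := by
  rcases Nat.eq_zero_or_pos k with rfl | hk
  · convert Set.finite_empty
    ext i
    simp only [Set.mem_ofPred_eq, Set.mem_empty_iff_false, iff_false]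
    have := h.two i
    omega
  · have h1 := h.sum.tendsto_cofinite_zero
    have h2 : (0 : ℝ) < (k : ℝ) ^ (-σ) := Real.rpow_pos_of_pos (by exact_mod_cast hk) _
    have h3 := h1.eventually (gt_mem_nhds h2)
    rw [Filter.eventually_cofinite] at h3
    refine h3.subset fun i hi => ?_
    have hi2 : N i ≤ k := hi
    have h4 := h.two i
    change ¬ (N i : ℝ) ^ (-σ) < (k : ℝ) ^ (-σ)
    rw [not_lt]
    exact Real.rpow_le_rpow_of_nonpos (by exact_mod_cast (by omega : 0 < N i))
      (by exact_mod_cast hi2) (neg_nonpos.2 h.pos.le)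

lemma fib_inj (h : Good N σ) (k : ℕ) : Function.Injective fun b : (nm N) ⁻¹' {k} => b.1.1 := by
  rintro ⟨⟨i, e⟩, hb⟩ ⟨⟨j, e'⟩, hb'⟩ hij
  have h1 : i = j := hij
  subst h1
  have h3 : N i ^ (e + 1) = N i ^ (e' + 1) := hb.trans hb'.symm
  have h4 := Nat.pow_right_injective (h.two i) h3
  have h5 : e = e' := by omega
  subst h5
  rfl

lemma finite_fib (h : Good N σ) (k : ℕ) : Finite ((nm N) ⁻¹' {k}) := by
  have h1 := (finite_le h k).to_subtype
  refine Finite.of_injective (β := {i | N i ≤ k}) (fun b => ⟨b.1.1, ?_⟩) ?_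
  · have h2 : N b.1.1 ^ (b.1.2 + 1) = k := b.2
    have h3 := h.two b.1.1
    change N b.1.1 ≤ k
    calc N b.1.1 = N b.1.1 ^ 1 := (pow_one _).symm
      _ ≤ N b.1.1 ^ (b.1.2 + 1) := Nat.pow_le_pow_right (by omega) (by omega)
      _ = k := h2
  · intro b b' hbb
    exact fib_inj h k (congrArg (fun z => z.1) hbb)

/-- The logarithm of the Euler product. -/
theorem hasSum_gen (h : Good N σ) (cnt : Nat.Primes × ℕ → ℂ)
    (h0 : ∀ k, (¬ ∃ p n : ℕ, p.Prime ∧ n ≠ 0 ∧ k = p ^ n) → co N k = 0)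
    (h1 : ∀ x : Nat.Primes × ℕ, ((x.2 : ℂ) + 1) * co N (ppow x) = cnt x) {s : ℂ}
    (hs : σ ≤ s.re) :
    HasSum (fun x : Nat.Primes × ℕ => cnt x / ((x.2 : ℂ) + 1) *
      ((x.1.1 : ℂ) ^ (-(((x.2 : ℂ) + 1) * s)))) (lg N s) := by
  have h1' := hasSum_co h hs
  have h2 : ∀ k ∉ Set.range ppow, co N k * (k : ℂ) ^ (-s) = 0 := by
    intro k hk
    rw [h0, zero_mul]
    rintro ⟨p, n, hp, hn, rfl⟩
    apply hk
    exact ⟨(⟨p, hp⟩, n - 1), by
      change p ^ (n - 1 + 1) = p ^ n
      rw [Nat.sub_add_cancel (by omega)]⟩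
  rw [← ppow_inj.hasSum_iff h2] at h1'
  refine h1'.congr_fun ?_
  rintro ⟨p, n⟩
  have h4 : ((n : ℂ) + 1) ≠ 0 := by exact_mod_cast (Nat.succ_ne_zero n)
  have h5 : co N (p.1 ^ (n + 1)) = cnt (p, n) / ((n : ℂ) + 1) := by
    rw [eq_div_iff h4, mul_comm]
    exact h1 (p, n)
  change cnt (p, n) / ((n : ℂ) + 1) * ((p.1 : ℂ) ^ (-(((n : ℂ) + 1) * s))) =
    co N (p.1 ^ (n + 1)) * ((p.1 ^ (n + 1) : ℕ) : ℂ) ^ (-s)
  rw [h5]
  congr 1
  have h6 : -(((n : ℂ) + 1) * s) = ((n + 1 : ℕ) : ℂ) * (-s) := by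
    push_cast
    ring
  rw [h6, Complex.natCast_cpow_natCast_mul]
  push_cast
  rfl

end generic

section fields

lemma exists_pow_hom {k K : Type} [Field k] [Field K] [Finite K] (f : k →+* K) :
    ∃ e : ℕ, Nat.card k ^ (e + 1) = Nat.card K := by
  let _ : Algebra k K := f.toAlgebra
  have h1 : Finite k := Finite.of_injective f f.injective
  have h2 : Module.Finite k K := Module.Finite.of_finite
  have h3 : 0 < Module.finrank k K := Module.finrank_pos
  obtain ⟨e, he⟩ := Nat.exists_eq_succ_of_ne_zero h3.ne'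
  refine ⟨e, ?_⟩
  have h4 := Module.natCard_eq_pow_finrank (K := k) (V := K)
  rw [h4, he]

/-- The order of a finite field is a prime power. -/
lemma card_prime_pow (k : Type) [Field k] [Finite k] :
    ∃ q d : ℕ, q.Prime ∧ d ≠ 0 ∧ Nat.card k = q ^ d := by
  obtain ⟨q, hq⟩ := CharP.exists k
  have hq2 : q.Prime := by
    rcases CharP.char_is_prime_or_zero k q with h2 | h2
    · exact h2
    · rw [h2] at hq
      have := CharP.charP_to_charZero k
      exact absurd (inferInstance : Infinite k) (by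
        rw [not_infinite_iff_finite]
        infer_instance)
  have : Fact q.Prime := ⟨hq2⟩
  let _ : Algebra (ZMod q) k := ZMod.algebra k q
  have h1 := FiniteField.pow_finrank_eq_natCard q k
  have h2 : 0 < Module.finrank (ZMod q) k := Module.finrank_pos
  exact ⟨q, _, hq2, h2.ne', h1.symm⟩

variable {I : Type} (κ : I → Type) [∀ i, Field (κ i)] [∀ i, Finite (κ i)] {σ : ℝ}

/-- The coefficients vanish outside of the prime powers. -/
lemma co_eq_zero_gen {k : ℕ} (hk : ¬ ∃ p n : ℕ, p.Prime ∧ n ≠ 0 ∧ k = p ^ n) :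
    co (fun i => Nat.card (κ i)) k = 0 := by
  rw [co]
  have h4 : IsEmpty ((nm fun i => Nat.card (κ i)) ⁻¹' {k}) := by
    constructor
    rintro ⟨⟨i, e⟩, hj⟩
    have h5 : Nat.card (κ i) ^ (e + 1) = k := hj
    obtain ⟨q, d, hq, hd, h6⟩ := card_prime_pow (κ i)
    apply hk
    refine ⟨q, d * (e + 1), hq, ?_, ?_⟩
    · exact mul_ne_zero hd (by omega)
    · rw [← h5, h6, pow_mul]
  exact tsum_empty

variable (p n : ℕ) [hp : Fact p.Prime]

/-- The coefficients of the Euler product of a family of finite fields. -/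
theorem mul_co_gen (h : Good (fun i => Nat.card (κ i)) σ) (hn : n ≠ 0) :
    (n : ℂ) * co (fun i => Nat.card (κ i)) (p ^ n) =
      Nat.card (Σ i, (κ i →+* GaloisField p n)) := by
  let N : I → ℕ := fun i => Nat.card (κ i)
  have hB : Finite ((nm N) ⁻¹' {p ^ n}) := finite_fib h _
  let e : (Σ b : (nm N) ⁻¹' {p ^ n}, (κ b.1.1 →+* GaloisField p n)) ≃
      Σ i, (κ i →+* GaloisField p n) :=
    Equiv.ofBijective (fun x => ⟨x.1.1.1, x.2⟩) (by
      constructor
      · rintro ⟨b, f⟩ ⟨b', f'⟩ hbb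
        rw [Sigma.mk.injEq] at hbb
        obtain ⟨h1, h2⟩ := hbb
        have h3 : b = b' := fib_inj h _ h1
        subst h3
        have h4 : f = f' := eq_of_heq h2
        rw [h4]
      · rintro ⟨i, f⟩
        obtain ⟨e, he⟩ := exists_pow_hom f
        rw [GaloisField.card p n hn] at he
        exact ⟨⟨⟨(i, e), he⟩, f⟩, rfl⟩)
  have hfin : ∀ b : (nm N) ⁻¹' {p ^ n}, Finite (κ b.1.1 →+* GaloisField p n) := fun b =>
    Finite.of_injective (fun f => (f : κ b.1.1 → GaloisField p n)) DFunLike.coe_injective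
  have := Fintype.ofFinite ((nm N) ⁻¹' {p ^ n})
  rw [← Nat.card_congr e, Nat.card_sigma, co]
  change (n : ℂ) * ∑' j : (nm N) ⁻¹' {p ^ n}, wt j.1 = _
  rw [tsum_fintype, Finset.mul_sum]
  push_cast
  apply Finset.sum_congr rfl
  intro b _
  obtain ⟨d, hd1, hd2⟩ := card_ringHom_of_pow (K := κ b.1.1) (e := b.1.2) p n hn b.2
  rw [hd1, wt]
  have h1 : ((b.1.2 : ℂ) + 1) ≠ 0 := by exact_mod_cast (by omega : b.1.2 + 1 ≠ 0)
  have h2 := congrArg (Nat.cast : ℕ → ℂ) hd2
  push_cast at h2
  rw [← h2]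
  field_simp

end fields

section schemes

variable {X : Sch ℤ} (hX : FT False X)

include hX

/-- Points with finite residue field are closed. -/
lemma closed_of_finite (x : X.left) [Finite (X.left.residueField x)] :
    IsClosed ({x} : Set X.left) := by
  have := jacobson_ft hX
  have := hX.locallyOfFiniteType
  rw [isClosed_singleton_iff_locallyOfFiniteType]
  have h1 : LocallyOfFiniteType (X.left.fromSpecResidueField x ≫ X.hom) := by
    obtain ⟨f, hf⟩ : ∃ f : CommRingCat.of ℤ ⟶ X.left.residueField x,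
        X.left.fromSpecResidueField x ≫ X.hom = Spec.map f :=
      ⟨Spec.preimage _, (Spec.map_preimage _).symm⟩
    rw [hf, HasRingHomProperty.Spec_iff (P := @LocallyOfFiniteType)]
    let _ := f.hom.toAlgebra
    have h2 : Module.Finite ℤ (X.left.residueField x) := Module.Finite.of_finite
    exact (RingHom.finiteType_algebraMap).2 (inferInstance : Algebra.FiniteType _ _)
  exact locallyOfFiniteType_of_comp _ X.hom

/-- Morphisms from the spectrum of a finite field. -/
noncomputable def ptsScheme (K : Type) [Field K] [Finite K] :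
    (Spec (CommRingCat.of K) ⟶ X.left) ≃
      Σ x : CP X.left, (X.left.residueField x.1 →+* K) :=
  (Scheme.SpecToEquivOfField K X.left).trans
    { toFun := fun y => ⟨⟨y.1, by
        have : Finite (X.left.residueField y.1) := Finite.of_injective _ y.2.hom.injective
        exact closed_of_finite hX y.1⟩, y.2.hom⟩
      invFun := fun y => ⟨y.1.1, CommRingCat.ofHom y.2⟩
      left_inv := fun _ => rfl
      right_inv := fun _ => rfl }

lemma finite_residue (x : CP X.left) : Finite (X.left.residueField x.1) := by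
  obtain ⟨σ, h⟩ := zgood X hX
  have h1 := h.two x
  exact Nat.finite_of_card_ne_zero (by
    change nrm X.left x ≠ 0
    omega)

/-- The coefficients of the Euler product of a scheme. -/
theorem mul_co_scheme (p n : ℕ) [hp : Fact p.Prime] (hn : n ≠ 0) :
    (n : ℂ) * co (nrm X.left) (p ^ n) =
      Nat.card (Spec (CommRingCat.of (GaloisField p n)) ⟶ X.left) := by
  obtain ⟨σ, h⟩ := zgood X hX
  have := finite_residue hX
  rw [Nat.card_congr (ptsScheme hX (GaloisField p n))]
  exact mul_co_gen (fun x : CP X.left => (X.left.residueField x.1 : Type)) p n h hn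

lemma co_scheme_zero {k : ℕ} (hk : ¬ ∃ p n : ℕ, p.Prime ∧ n ≠ 0 ∧ k = p ^ n) :
    co (nrm X.left) k = 0 := by
  have := finite_residue hX
  exact co_eq_zero_gen (fun x : CP X.left => (X.left.residueField x.1 : Type)) hk

end schemes

/-- The number of points with values in the field with `p ^ (n + 1)` elements. -/
noncomputable def ptCount (X : Scheme.{0}) (x : Nat.Primes × ℕ) : ℕ :=
  haveI : Fact x.1.1.Prime := ⟨x.1.2⟩
  Nat.card (Spec (CommRingCat.of (GaloisField x.1.1 (x.2 + 1))) ⟶ X)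

theorem hasSum_scheme {X : Sch ℤ} (hX : FT False X) {σ : ℝ} (h : Good (nrm X.left) σ) {s : ℂ}
    (hs : σ ≤ s.re) : HasSum (fun x : Nat.Primes × ℕ => (ptCount X.left x : ℂ) / ((x.2 : ℂ) + 1) *
      ((x.1.1 : ℂ) ^ (-(((x.2 : ℂ) + 1) * s)))) (lg (nrm X.left) s) := by
  refine hasSum_gen h (fun x => ptCount X.left x) (fun k hk => co_scheme_zero hX hk) ?_ hs
  rintro ⟨p, n⟩
  have : Fact p.1.Prime := ⟨p.2⟩
  have h1 := mul_co_scheme hX p.1 (n + 1) (Nat.succ_ne_zero n)
  push_cast at h1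
  exact h1

end Q54.ZE
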