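import Pool.Agent.Q54.ZE.Mer
import Pool.Agent.Q54.ZE.Cnt2

/-!
# The zeta function of the integers
-/

set_option autoImplicit false

namespace Q54.ZE

open Complex Filter Topology

/-- The Riemann zeta function is meromorphic. -/
theorem mero_zeta : MeromorphicOn riemannZeta Set.univ := by
  intro s _
  by_cases hs : s = 1
  · subst hs
    have h1 : AnalyticAt ℂ (Function.update (fun z => (z - 1) * riemannZeta z) 1 1) 1 := by
      apply Complex.analyticAt_of_differentiable_on_punctured_nhds_of_continuousAt
      · filter_upwards [self_mem_nhdsWithin] with z hz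
        have h2 : DifferentiableAt ℂ (fun z => (z - 1) * riemannZeta z) z :=
          (differentiableAt_id.sub_const 1).mul (differentiableAt_riemannZeta hz)
        refine h2.congr_of_eventuallyEq ?_
        filter_upwards [isOpen_ne.mem_nhds hz] with w hw
        exact Function.update_of_ne hw _ _
      · rw [continuousAt_update_same]
        exact riemannZeta_residue_one
    have h2 : MeromorphicAt (fun z => (z - 1) * riemannZeta z) 1 := by
      refine h1.meromorphicAt.congr ?_
      filter_upwards [self_mem_nhdsWithin] with w hw
      exact Function.update_of_ne hw _ _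
    have h3 : MeromorphicAt (fun z : ℂ => z - 1) 1 :=
      (analyticAt_id.sub analyticAt_const).meromorphicAt
    refine (h2.div h3).congr ?_
    filter_upwards [self_mem_nhdsWithin] with w hw
    have hw2 : w - 1 ≠ 0 := sub_ne_zero.2 hw
    change (w - 1) * riemannZeta w / (w - 1) = riemannZeta w
    rw [mul_div_cancel_left₀ _ hw2]
  · refine AnalyticAt.meromorphicAt ?_
    apply DifferentiableOn.analyticAt (s := {1}ᶜ)
    · intro z hz
      exact (differentiableAt_riemannZeta hz).differentiableWithinAt
    · exact isOpen_compl_singleton.mem_nhds hs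

/-- The maximal ideals of the integers. -/
noncomputable def primesEquiv : Nat.Primes ≃ maxS ℤ :=
  Equiv.ofBijective (fun p => ⟨Ideal.span {(p.1 : ℤ)},
    PrincipalIdealRing.isMaximal_of_irreducible
      (Int.prime_iff_natAbs_prime.2 (by simpa using p.2)).irreducible⟩) (by
    constructor
    · intro p q h
      have h1 : Ideal.span {(p.1 : ℤ)} = Ideal.span {(q.1 : ℤ)} := congrArg Subtype.val h
      rw [Ideal.span_singleton_eq_span_singleton, Int.associated_iff_natAbs] at h1
      apply Subtype.ext
      simpa using h1
    · rintro ⟨m, hm⟩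
      have hm2 : m.IsMaximal := hm
      have h0 : m ≠ ⊥ := Ring.ne_bot_of_isMaximal_of_not_isField hm2 Int.not_isField
      have h1 : Prime (Submodule.IsPrincipal.generator m) :=
        Submodule.IsPrincipal.prime_generator_of_isPrime m h0
      refine ⟨⟨(Submodule.IsPrincipal.generator m).natAbs, Int.prime_iff_natAbs_prime.1 h1⟩, ?_⟩
      apply Subtype.ext
      change Ideal.span {(((Submodule.IsPrincipal.generator m).natAbs : ℕ) : ℤ)} = m
      rw [Int.span_natAbs, Ideal.span_singleton_generator])

lemma primesEquiv_nrm (p : Nat.Primes) : idN (maxS ℤ) (primesEquiv p) = p.1 := by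
  change Nat.card (ℤ ⧸ Ideal.span {(p.1 : ℤ)}) = p.1
  rw [Nat.card_congr (Int.quotientSpanNatEquivZMod p.1).toEquiv, Nat.card_zmod]

theorem mer_int : Mer Set.univ (idN (maxS ℤ)) := by
  refine mer_of_equiv (N := fun p : Nat.Primes => p.1) primesEquiv primesEquiv_nrm ?_
  exact ⟨riemannZeta, ⟨mero_zeta, fun s hs => absurd trivial hs⟩, 1,
    fun s hs => (riemannZeta_eulerProduct_tprod hs).symm⟩

end Q54.ZE
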