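import Pool.Agent.Q54.ZE.Cnt2
import Pool.Agent.Y116.UV.Main

/-!
# Closed points of schemes of finite type over the integers
-/

set_option autoImplicit false

namespace Q54.ZE

open CategoryTheory AlgebraicGeometry Topology Pool.Agent.Y116.UV

/-- The closed points. -/
abbrev CP (X : Scheme.{0}) : Type := {x : X // IsClosed ({x} : Set X)}

/-- The norm of a closed point. -/
noncomputable def nrm (X : Scheme.{0}) (x : CP X) : ℕ := Nat.card (X.residueField x.1)

/-- Points and residue fields are preserved. -/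
structure Pres {X Y : Scheme.{0}} (f : X ⟶ Y) : Prop where
  inj : Function.Injective f
  closed : ∀ x, IsClosed ({x} : Set X) ↔ IsClosed ({f x} : Set Y)
  card : ∀ x, Nat.card (X.residueField x) = Nat.card (Y.residueField (f x))

lemma card_residue {X Y : Scheme.{0}} (f : X ⟶ Y) [SurjectiveOnStalks f] (x : X) :
    Nat.card (X.residueField x) = Nat.card (Y.residueField (f x)) := by
  symm
  refine Nat.card_congr (Equiv.ofBijective (f.residueFieldMap x).hom ⟨RingHom.injective _, ?_⟩)
  intro y
  obtain ⟨z, rfl⟩ := X.residue_surjective x y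
  obtain ⟨w, rfl⟩ := f.stalkMap_surjective x z
  refine ⟨Y.residue (f x) w, ?_⟩
  have h := Scheme.residue_residueFieldMap f x
  exact congrArg (fun g => g.hom w) h

lemma pres_open {X Y : Scheme.{0}} (f : X ⟶ Y) [IsOpenImmersion f] [JacobsonSpace Y] : Pres f where
  inj := f.isOpenEmbedding.injective
  closed x := by
    have h := f.isOpenEmbedding.preimage_closedPoints
    have h2 := Set.ext_iff.1 h x
    exact h2.symm
  card x := card_residue f x

lemma pres_closed {X Y : Scheme.{0}} (f : X ⟶ Y) [IsClosedImmersion f] : Pres f where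
  inj := f.isClosedEmbedding.injective
  closed x := by
    have h := f.isClosedEmbedding.preimage_closedPoints
    have h2 := Set.ext_iff.1 h x
    exact h2.symm
  card x := card_residue f x

/-- The closed points in the range. -/
noncomputable def Pres.equiv {X Y : Scheme.{0}} {f : X ⟶ Y} (h : Pres f) :
    CP X ≃ {y : CP Y // y.1 ∈ Set.range f} :=
  Equiv.ofBijective (fun x => ⟨⟨f x.1, (h.closed x.1).1 x.2⟩, x.1, rfl⟩) (by
    constructor
    · intro x y hxy
      apply Subtype.ext
      exact h.inj (congrArg (fun z => z.1.1) hxy)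
    · rintro ⟨⟨y, hy⟩, x, hx⟩
      change f x = y at hx
      subst hx
      exact ⟨⟨x, (h.closed x).2 hy⟩, rfl⟩)

lemma Pres.nrm {X Y : Scheme.{0}} {f : X ⟶ Y} (h : Pres f) (x : CP X) :
    nrm X x = nrm Y (h.equiv x).1 := h.card x.1

/-- Complementary ranges. -/
noncomputable def splitEquiv {Z X U : Scheme.{0}} {i : Z ⟶ X} {j : U ⟶ X} (hi : Pres i)
    (hj : Pres j) (h : Set.range i = (Set.range j)ᶜ) : CP Z ⊕ CP U ≃ CP X := by
  classical
  exact (hi.equiv.sumCongr hj.equiv).trans ((Equiv.sumComm _ _).trans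
    (((Equiv.refl _).sumCongr (Equiv.subtypeEquivRight fun y => by
      rw [h]
      rfl)).trans (Equiv.sumCompl fun y : CP X => y.1 ∈ Set.range j)))

lemma splitEquiv_inl {Z X U : Scheme.{0}} {i : Z ⟶ X} {j : U ⟶ X} (hi : Pres i)
    (hj : Pres j) (h : Set.range i = (Set.range j)ᶜ) (z : CP Z) :
    nrm X (splitEquiv hi hj h (Sum.inl z)) = nrm Z z := (hi.nrm z).symm

lemma splitEquiv_inr {Z X U : Scheme.{0}} {i : Z ⟶ X} {j : U ⟶ X} (hi : Pres i)
    (hj : Pres j) (h : Set.range i = (Set.range j)ᶜ) (z : CP U) :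
    nrm X (splitEquiv hi hj h (Sum.inr z)) = nrm U z := (hj.nrm z).symm

/-- The closed points of an affine scheme. -/
noncomputable def specEquiv (A : Type) [CommRing A] : CP (Spec (CommRingCat.of A)) ≃ maxS A where
  toFun x := ⟨x.1.asIdeal, (PrimeSpectrum.isClosed_singleton_iff_isMaximal x.1).1 x.2⟩
  invFun m := ⟨⟨m.1, have : m.1.IsMaximal := m.2; Ideal.IsMaximal.isPrime this⟩,
    (PrimeSpectrum.isClosed_singleton_iff_isMaximal _).2 m.2⟩
  left_inv _ := rfl
  right_inv _ := rfl

lemma specEquiv_nrm (A : Type) [CommRing A] (x : CP (Spec (CommRingCat.of A))) :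
    idN (maxS A) (specEquiv A x) = nrm (Spec (CommRingCat.of A)) x := by
  have hm : x.1.asIdeal.IsMaximal := (PrimeSpectrum.isClosed_singleton_iff_isMaximal x.1).1 x.2
  change Nat.card (A ⧸ x.1.asIdeal) = Nat.card _
  rw [Nat.card_congr (Equiv.ofBijective _
    (Ideal.bijective_algebraMap_quotient_residueField x.1.asIdeal))]
  exact (Nat.card_congr
    (Scheme.Spec.residueFieldIso (CommRingCat.of A) x.1).commRingCatIsoToRingEquiv.toEquiv).symm

end Q54.ZE
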