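import Pool.Agent.Q54.ZE.Riem
import Pool.Agent.Q54.ZE.Scz
import Pool.Agent.Y116.UV.Graph

/-!
# Zeta functions of schemes of finite type over the integers
-/

set_option autoImplicit false

namespace Q54.ZE

open CategoryTheory AlgebraicGeometry Topology Pool.Agent.Y116.UV

/-- The zeta function of the scheme has a meromorphic continuation, with zeros and poles in `S`. -/
def ZMer (S : Set ℂ) (X : Sch ℤ) : Prop := Mer S (nrm X.left)

variable {S : Set ℂ}

/-- The zeta function converges somewhere. -/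
def ZGood (X : Sch ℤ) : Prop := ∃ σ : ℝ, Good (nrm X.left) σ

lemma jacobson_ft {X : Sch ℤ} (hX : FT False X) : JacobsonSpace X.left := by
  have := jac_int
  have := hX.locallyOfFiniteType
  exact LocallyOfFiniteType.jacobsonSpace X.hom

lemma triple_pres {Z X U : Sch ℤ} {i : Z ⟶ X} {j : U ⟶ X} (hX : FT False X)
    (h : IsTriple i j) : Pres i.left ∧ Pres j.left := by
  have := jacobson_ft hX
  have := h.closed
  have := h.opened
  exact ⟨pres_closed i.left, pres_open j.left⟩

lemma isIso_inv_left {X Y : Sch ℤ} (e : X ≅ Y) : IsIso e.inv.left :=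
  inferInstanceAs (IsIso ((Over.forget _).mapIso e).inv)

lemma iso_pres {X Y : Sch ℤ} (hX : FT False X) (e : X ≅ Y) : Pres e.inv.left := by
  have := jacobson_ft hX
  have := isIso_inv_left e
  exact pres_open e.inv.left

/-- Isomorphic schemes have the same closed points. -/
noncomputable def isoEquiv {X Y : Sch ℤ} (hX : FT False X) (e : X ≅ Y) :
    CP Y.left ≃ CP X.left :=
  (iso_pres hX e).equiv.trans (Equiv.subtypeUnivEquiv fun x => by
    have h : Function.Surjective e.inv.left := by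
      have := isIso_inv_left e
      exact e.inv.left.surjective
    exact h x.1)

lemma isoEquiv_nrm {X Y : Sch ℤ} (hX : FT False X) (e : X ≅ Y) (y : CP Y.left) :
    nrm X.left (isoEquiv hX e y) = nrm Y.left y := ((iso_pres hX e).nrm y).symm

/-- The closed points of an affine scheme. -/
noncomputable def affEquiv (A : Type) [CommRing A] [Algebra ℤ A] : CP (aff ℤ A).left ≃ maxS A :=
  specEquiv A

lemma affEquiv_nrm (A : Type) [CommRing A] [Algebra ℤ A] (x : CP (aff ℤ A).left) :
    idN (maxS A) (affEquiv A x) = nrm (aff ℤ A).left x := specEquiv_nrm A x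

/-- Convergence. -/
theorem zgood (X : Sch ℤ) (hX : FT False X) : ZGood X := by
  refine of_affine' (P := ZGood) (sep := False) ?_ ?_ ?_ X hX
  · rintro X Y hX ⟨e⟩ ⟨σ, h⟩
    exact ⟨σ, good_of_inj h (isoEquiv hX e) (isoEquiv hX e).injective (isoEquiv_nrm hX e)⟩
  · rintro Z X U i j hX ht ⟨σ, h1⟩ ⟨τ, h2⟩
    obtain ⟨hi, hj⟩ := triple_pres hX ht
    have h3 := good_sum (h1.mono (le_max_left σ τ)) (h2.mono (le_max_right σ τ))
    refine ⟨max σ τ, good_of_inj h3 (splitEquiv hi hj ht.compl).symm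
      (splitEquiv hi hj ht.compl).symm.injective ?_⟩
    intro x
    obtain ⟨y, rfl⟩ := (splitEquiv hi hj ht.compl).surjective x
    rw [Equiv.symm_apply_apply]
    rcases y with y | y
    · exact (splitEquiv_inl hi hj ht.compl y).symm
    · exact (splitEquiv_inr hi hj ht.compl y).symm
  · intro A _ _ _
    obtain ⟨σ, h⟩ := exists_good (A := A) (S := maxS A) subset_rfl
    exact ⟨σ, good_of_inj h (affEquiv A) (affEquiv A).injective (affEquiv_nrm A)⟩

lemma triple_split {Z X U : Sch ℤ} {i : Z ⟶ X} {j : U ⟶ X} (hX : FT False X)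
    (h : IsTriple i j) : ∃ σ, Split (nrm Z.left) (nrm U.left) (nrm X.left) σ := by
  obtain ⟨hi, hj⟩ := triple_pres hX h
  obtain ⟨σ, h1⟩ := zgood X hX
  exact ⟨σ, split_of_equiv h1 (splitEquiv hi hj h.compl) (splitEquiv_inl hi hj h.compl)
    (splitEquiv_inr hi hj h.compl)⟩

lemma zmer_iso {X Y : Sch ℤ} (hX : FT False X) (e : X ≅ Y) (h : ZMer S X) : ZMer S Y :=
  mer_of_equiv (isoEquiv hX e).symm (fun x => by
    obtain ⟨y, rfl⟩ := (isoEquiv hX e).surjective x
    rw [Equiv.symm_apply_apply, isoEquiv_nrm]) h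

/-- The affine case in terms of maximal ideals. -/
lemma zmer_aff (A : Type) [CommRing A] [Algebra ℤ A] : 
    ZMer S (aff ℤ A) ↔ Mer S (idN (maxS A)) :=
  ⟨mer_of_equiv (affEquiv A) (affEquiv_nrm A), mer_of_equiv (affEquiv A).symm (fun x => by
    obtain ⟨y, rfl⟩ := (affEquiv A).surjective x
    rw [Equiv.symm_apply_apply]
    exact (affEquiv_nrm A y).symm)⟩

/-- The closed points of an open subscheme. -/
noncomputable def opnEquiv {A : Type} [CommRing A] [Algebra ℤ A] [Algebra.FiniteType ℤ A] {m : ℕ}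
    (f : Fin m → A) {U : Sch ℤ} (j : U ⟶ aff ℤ A) (hj : Pres j.left)
    (h : Set.range j.left = {x : PrimeSpectrum A | ∃ l, f l ∉ x.asIdeal}) :
    CP U.left ≃ neS f :=
  hj.equiv.trans
    { toFun := fun x => ⟨x.1.1.asIdeal,
        (PrimeSpectrum.isClosed_singleton_iff_isMaximal x.1.1).1 x.1.2,
          (Set.ext_iff.1 h x.1.1).1 x.2⟩
      invFun := fun m => ⟨⟨⟨m.1, Ideal.IsMaximal.isPrime m.2.1⟩,
        (PrimeSpectrum.isClosed_singleton_iff_isMaximal _).2 m.2.1⟩,
          (Set.ext_iff.1 h _).2 m.2.2⟩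
      left_inv := fun _ => rfl
      right_inv := fun _ => rfl }

lemma opnEquiv_nrm {A : Type} [CommRing A] [Algebra ℤ A] [Algebra.FiniteType ℤ A] {m : ℕ}
    (f : Fin m → A) {U : Sch ℤ} (j : U ⟶ aff ℤ A) (hj : Pres j.left)
    (h : Set.range j.left = {x : PrimeSpectrum A | ∃ l, f l ∉ x.asIdeal}) (x : CP U.left) :
    idN (neS f) (opnEquiv f j hj h x) = nrm U.left x := by
  rw [hj.nrm x]
  exact specEquiv_nrm A (hj.equiv x).1

lemma zmer_opn {A : Type} [CommRing A] [Algebra ℤ A] [Algebra.FiniteType ℤ A] {m : ℕ}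
    (f : Fin m → A) {U : Sch ℤ} (j : U ⟶ aff ℤ A) (hj : Pres j.left)
    (h : Set.range j.left = {x : PrimeSpectrum A | ∃ l, f l ∉ x.asIdeal}) :
    ZMer S U ↔ Mer S (idN (neS f)) :=
  ⟨mer_of_equiv (opnEquiv f j hj h) (opnEquiv_nrm f j hj h),
    mer_of_equiv (opnEquiv f j hj h).symm (fun x => by
      obtain ⟨y, rfl⟩ := (opnEquiv f j hj h).surjective x
      rw [Equiv.symm_apply_apply]
      exact (opnEquiv_nrm f j hj h y).symm)⟩

lemma ft_jou {A : Type} [CommRing A] [Algebra ℤ A] [Algebra.FiniteType ℤ A] {m : ℕ}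
    (f : Fin m → A) : Algebra.FiniteType ℤ (Jou f) :=
  Algebra.FiniteType.trans (S := A) inferInstance inferInstance

/-- The coefficients for an affine bundle. -/
lemma co_jou {A : Type} [CommRing A] [Algebra ℤ A] [Algebra.FiniteType ℤ A] {m : ℕ}
    (f : Fin m → A) (k : ℕ) :
    co (idN (maxS (Jou f))) k = (k : ℂ) ^ (m - 1) * co (idN (neS f)) k := by
  have := ft_jou f
  refine co_compare (isFin_of_subset (neS_subset f)) (isFin_maxS (Jou f))
    (fun p n _ => finite_hom A) (fun p n _ => finite_hom (Jou f)) (fun k => (k : ℂ) ^ (m - 1)) ?_ k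
  intro p n _ hn
  rw [card_jou, GaloisField.card p n hn]
  push_cast
  rfl

lemma co_laurent {A : Type} [CommRing A] [Algebra ℤ A] [Algebra.FiniteType ℤ A] (k : ℕ) :
    co (idN (maxS (LaurentPolynomial A))) k = ((k : ℂ) - 1) * co (idN (maxS A)) k := by
  have := ft_laurent (R := ℤ) A
  refine co_compare (isFin_maxS A) (isFin_maxS (LaurentPolynomial A))
    (fun p n _ => finite_hom A) (fun p n _ => finite_hom (LaurentPolynomial A))
    (fun k => (k : ℂ) - 1) ?_ k
  intro p n _ hn
  rw [card_laurent, GaloisField.card p n hn, Nat.cast_mul, Nat.cast_sub (Nat.one_le_pow _ _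
    (Nat.Prime.pos Fact.out))]
  push_cast
  rfl

lemma co_space (n k : ℕ) :
    co (idN (maxS (MvPolynomial (Fin n) ℤ))) k = (k : ℂ) ^ n * co (idN (maxS ℤ)) k := by
  refine co_compare (isFin_maxS ℤ) (isFin_maxS (MvPolynomial (Fin n) ℤ))
    (fun p n _ => finite_hom ℤ) (fun p m _ => finite_hom (MvPolynomial (Fin n) ℤ))
    (fun k => (k : ℂ) ^ n) ?_ k
  intro p m _ hm
  rw [card_space, GaloisField.card p m hm]
  push_cast
  rfl

lemma exists_good2 {A B : Type} [CommRing A] [CommRing B] [Algebra ℤ A] [Algebra ℤ B]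
    [Algebra.FiniteType ℤ A] [Algebra.FiniteType ℤ B] {S : Set (Ideal A)} {T : Set (Ideal B)}
    (hS : S ⊆ maxS A) (hT : T ⊆ maxS B) : ∃ σ, Good (idN S) σ ∧ Good (idN T) σ := by
  obtain ⟨σ, h1⟩ := exists_good hS
  obtain ⟨τ, h2⟩ := exists_good hT
  exact ⟨max σ τ, h1.mono (le_max_left σ τ), h2.mono (le_max_right σ τ)⟩

/-- The meromorphic continuation of zeta functions has the closure properties of a universal
property. -/
theorem uni_zmer (hS : Tr S) (hz : Mer S (idN (maxS ℤ))) : Uni False (ZMer S) where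
  iso hX e h := by
    obtain ⟨e⟩ := e
    exact zmer_iso hX e h
  total i j hX ht hZ hU := by
    obtain ⟨σ, h⟩ := triple_split hX ht
    exact h.mer_all hZ hU
  opened i j hX ht hZ hX' := by
    obtain ⟨σ, h⟩ := triple_split hX ht
    exact h.mer_right hX' hZ
  closed i j hX ht hX' hU := by
    obtain ⟨σ, h⟩ := triple_split hX ht
    exact h.mer_left hX' hU
  space n := by
    rw [zmer_aff]
    obtain ⟨σ, h1, h2⟩ := exists_good2 (A := ℤ) (B := MvPolynomial (Fin n) ℤ)
      (S := maxS ℤ) (T := maxS _) subset_rfl subset_rfl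
    exact mer_shift hS h1 h2 n (co_space n) hz
  jouanolou A _ _ _ m f U j hj hr h := by
    have := ft_jou f
    have : JacobsonSpace (aff ℤ A).left := jacobson_ft (ft_aff False)
    rw [zmer_aff] at h
    rw [zmer_opn f j (pres_open j.left) hr]
    obtain ⟨σ, h1, h2⟩ := exists_good2 (neS_subset f) (subset_rfl (a := maxS (Jou f)))
    exact mer_unshift hS h1 h2 (m - 1) (co_jou f) h
  torus A _ _ _ h := by
    have := ft_laurent (R := ℤ) A
    rw [zmer_aff] at h ⊢
    obtain ⟨σ, h1, h2⟩ := exists_good2 (subset_rfl (a := maxS A))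
      (subset_rfl (a := maxS (LaurentPolynomial A)))
    exact mer_torus hS h1 h2 co_laurent h

end Q54.ZE
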